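import Mathlib

/-!
# M21, Theorem X': derivations of a field with prescribed values on a transcendence basis
-/

open Polynomial

noncomputable section

namespace M21.XP

universe u

variable {K : Type u} [Field K] [Algebra ℂ K]

open scoped IntermediateField.algebraAdjoinAdjoin TensorProduct in
/-- derivations with prescribed values on a transcendence basis -/
theorem exists_der_basis {ι : Type u} {v : ι → K} (hv : IsTranscendenceBasis ℂ v) (w : ι → K) :
    ∃ D : Derivation ℂ K K, ∀ i, D (v i) = w i := by
  have hi : AlgebraicIndependent ℂ v := hv.1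
  let R := Algebra.adjoin ℂ (Set.range v)
  let F := IntermediateField.adjoin ℂ (Set.range v)
  have : Algebra.IsAlgebraic F K := hv.isAlgebraic_field
  have : Algebra.FormallyEtale F K := Algebra.FormallyEtale.of_isSeparable F K
  have : Algebra.FormallyEtale R F := Algebra.FormallyEtale.of_isLocalization (nonZeroDivisors _)
  have : Algebra.FormallyEtale R K := Algebra.FormallyEtale.comp R F K
  let : Algebra (MvPolynomial ι ℂ) K := (MvPolynomial.aeval v).toRingHom.toAlgebra
  have : IsScalarTower ℂ (MvPolynomial ι ℂ) K := IsScalarTower.of_algebraMap_eq' (by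
    ext c
    exact ((MvPolynomial.aeval v).commutes c).symm)
  let D1 : Derivation ℂ (MvPolynomial ι ℂ) K := MvPolynomial.mkDerivation ℂ w
  let e := hi.aevalEquiv
  have he : ∀ a : R, MvPolynomial.aeval v (e.symm a) = (a : K) := by
    intro a
    have := hi.algebraMap_aevalEquiv (e.symm a)
    rw [AlgEquiv.apply_symm_apply] at this
    exact this.symm
  let D2 : Derivation ℂ R K :=
    { toLinearMap := D1.toLinearMap ∘ₗ e.symm.toLinearMap
      map_one_eq_zero' := by
        simp
      leibniz' := by
        intro a b
        change D1 (e.symm (a * b)) = _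
        rw [map_mul, Derivation.leibniz]
        rw [Algebra.smul_def, Algebra.smul_def, Algebra.smul_def, Algebra.smul_def]
        change MvPolynomial.aeval v (e.symm a) * _ + MvPolynomial.aeval v (e.symm b) * _ = _
        rw [he, he]
        rfl }
  let l : K ⊗[R] Ω[R⁄ℂ] →ₗ[K] K := LinearMap.liftBaseChange K D2.liftKaehlerDifferential
  refine ⟨(l ∘ₗ (KaehlerDifferential.tensorKaehlerEquivOfFormallyEtale ℂ R K).symm.toLinearMap
    ).compDer (KaehlerDifferential.D ℂ K), fun i => ?_⟩
  have hm : v i ∈ R := Algebra.subset_adjoin ⟨i, rfl⟩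
  have h1 : (KaehlerDifferential.tensorKaehlerEquivOfFormallyEtale ℂ R K).symm
      (KaehlerDifferential.D ℂ K (v i)) = 1 ⊗ₜ KaehlerDifferential.D ℂ R ⟨v i, hm⟩ :=
    KaehlerDifferential.tensorKaehlerEquivOfFormallyEtale_symm_D_algebraMap ℂ R K ⟨v i, hm⟩
  change l ((KaehlerDifferential.tensorKaehlerEquivOfFormallyEtale ℂ R K).symm
      (KaehlerDifferential.D ℂ K (v i))) = w i
  rw [h1]
  change LinearMap.liftBaseChange K D2.liftKaehlerDifferential _ = w i
  rw [LinearMap.liftBaseChange_tmul, one_smul, Derivation.liftKaehlerDifferential_comp_D]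
  have h2 : e.symm ⟨v i, hm⟩ = MvPolynomial.X i := by
    apply hi
    rw [he, MvPolynomial.aeval_X]
  change D1 (e.symm ⟨v i, hm⟩) = w i
  rw [h2]
  exact MvPolynomial.mkDerivation_X ℂ w i

/-- derivations with prescribed values on two algebraically independent elements -/
theorem exists_der {r x : K} (hi : AlgebraicIndependent ℂ ![r, x]) (u v : K) :
    ∃ D : Derivation ℂ K K, D r = u ∧ D x = v := by
  have h1 : AlgebraicIndepOn ℂ id (Set.range ![r, x]) := (algebraicIndependent_subtype_range hi.injective).2 hi
  obtain ⟨T, hT, hb⟩ := exists_isTranscendenceBasis_superset h1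
  have hr : r ∈ T := hT ⟨0, rfl⟩
  have hx : x ∈ T := hT ⟨1, rfl⟩
  have hne : x ≠ r := by
    intro h0
    have := hi.injective (a₁ := 1) (a₂ := 0) h0
    simp at this
  classical
  obtain ⟨D, hD⟩ := exists_der_basis hb (fun t => if (t : K) = r then u else v)
  refine ⟨D, ?_, ?_⟩
  · have := hD ⟨r, hr⟩
    simpa using this
  · have := hD ⟨x, hx⟩
    simpa [hne] using this

end M21.XP
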