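import Pool.Agent.H.MP_21b43d_ag.X.Six3

/-!
# M6 / Theorem X', embedding of the second surface, part 1: quadruples, coordinates, chart rings

`Qd K` : quadruples `(r, s, x, y)` of elements of a field `K` over `ℂ`.
`q.Good` : `r, x` algebraically independent over `ℂ`, `s² = r³ + 1`,
`y³ = s (x⁶ + 1) + (x³ + 2)`.
`q.AA = ℂ[r, s, x, y]`, `q.BB = ℂ[r/s, 1/r, x, y r/s]` : the rings of two charts, the two other
ones are `q.flip.AA`, `q.flip.BB` with `q.flip = (r, s, 1/x, y/x²)`.
The surface is the closure of the point `q.vec` in `ℙ¹³`.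
-/

set_option autoImplicit false

open CategoryTheory AlgebraicGeometry TopologicalSpace MvPolynomial

namespace M21.XP

open M21X

noncomputable section

/-- **The ring of the chart `D₊(X_j)`** is generated by the quotients of the coordinates. -/
theorem RR_X {N : ℕ} {K : Type} [Field K] [Algebra ℂ K] (v : Fin (N + 1) → K) (j : Fin (N + 1))
    (hj : aeval v (X j : MvPolynomial (Fin (N + 1)) ℂ) ≠ 0) :
    RR v (X j) hj = (Algebra.adjoin ℂ (Set.range fun i => v i / v j)).toSubring := by
  have hj' : v j ≠ 0 := by simpa using hj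
  ext x
  rw [mem_RR_iff v (X j) hj (X_mem N j)]
  change _ ↔ x ∈ Algebra.adjoin ℂ (Set.range fun i => v i / v j)
  constructor
  · rintro ⟨n, g, hg, rfl⟩
    have h1 : aeval (fun i => (v j)⁻¹ * v i) g = ((v j)⁻¹) ^ (n * 1) * aeval v g :=
      Quad.aeval_rescale v (v j)⁻¹ g hg
    have h2 : aeval v g / (aeval v (X j : MvPolynomial (Fin (N + 1)) ℂ)) ^ n =
        aeval (fun i => v i / v j) g := by
      have h3 : (fun i => v i / v j) = fun i => (v j)⁻¹ * v i := by
        ext i
        rw [div_eq_inv_mul]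
      rw [h3, h1, aeval_X, mul_one, inv_pow, div_eq_inv_mul]
    rw [h2, Algebra.adjoin_range_eq_range_aeval]
    exact ⟨g, rfl⟩
  · intro hx
    rw [← mem_RR_iff v (X j) hj (X_mem N j)]
    induction hx using Algebra.adjoin_induction with
    | mem z hz =>
      obtain ⟨i, rfl⟩ := hz
      rw [mem_RR_iff v (X j) hj (X_mem N j)]
      exact ⟨1, X i, by simpa using X_mem N i, by simp⟩
    | algebraMap c => exact algebraMap_mem_RR v (X j) hj (X_mem N j) c
    | add a b _ _ ha hb => exact add_mem ha hb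
    | mul a b _ _ ha hb => exact mul_mem ha hb

/-- quadruples of elements of a field -/
@[ext]
structure Qd (K : Type) where
  /-- first coordinate of the elliptic curve -/
  r : K
  /-- second coordinate of the elliptic curve -/
  s : K
  /-- coordinate of the projective line -/
  x : K
  /-- the cube root -/
  y : K

namespace Qd

variable {K : Type} [Field K]

/-- the change of charts `x → 1/x` -/
def flip (q : Qd K) : Qd K := ⟨q.r, q.s, q.x⁻¹, q.y / q.x ^ 2⟩

theorem flip_flip (q : Qd K) (hx : q.x ≠ 0) : q.flip.flip = q := by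
  ext
  · rfl
  · rfl
  · simp [flip]
  · simp only [flip]
    field_simp

/-- the homogeneous coordinates -/
def vec (q : Qd K) : Fin 14 → K :=
  ![1, q.x, q.x ^ 2, q.r, q.r * q.x ^ 2, q.s, q.s * q.x ^ 2, q.r ^ 2, q.r ^ 2 * q.x ^ 2,
    q.r * q.s, q.r * q.s * q.x, q.r * q.s * q.x ^ 2, q.y, q.y * q.r ^ 2]

/-- the permutation of the coordinates corresponding to `flip` -/
def perm : Fin 14 → Fin 14 := ![2, 1, 0, 4, 3, 6, 5, 8, 7, 11, 10, 9, 12, 13]

theorem perm_perm (i : Fin 14) : perm (perm i) = i := by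
  revert i
  decide

theorem vec_flip (q : Qd K) (hx : q.x ≠ 0) (i : Fin 14) :
    q.flip.vec i = q.vec (perm i) / q.x ^ 2 := by
  fin_cases i <;> simp [vec, perm, flip] <;> field_simp

variable [Algebra ℂ K]

/-- the ring `ℂ[r, s, x, y]` of the first chart -/
def AA (q : Qd K) : Subalgebra ℂ K := Algebra.adjoin ℂ {q.r, q.s, q.x, q.y}

/-- the ring `ℂ[r/s, 1/r, x, y r/s]` of the second chart -/
def BB (q : Qd K) : Subalgebra ℂ K :=
  Algebra.adjoin ℂ {q.r / q.s, q.r⁻¹, q.x, q.y * q.r / q.s}

theorem adjoin_A (q : Qd K) : Algebra.adjoin ℂ (Set.range fun i => q.vec i / q.vec 0) = q.AA := by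
  apply le_antisymm
  · rw [Algebra.adjoin_le_iff]
    have hr : q.r ∈ q.AA := Algebra.subset_adjoin (by simp)
    have hs : q.s ∈ q.AA := Algebra.subset_adjoin (by simp)
    have hx : q.x ∈ q.AA := Algebra.subset_adjoin (by simp)
    have hy : q.y ∈ q.AA := Algebra.subset_adjoin (by simp)
    have hx2 := q.AA.pow_mem hx 2
    have hr2 := q.AA.pow_mem hr 2
    have hrs := q.AA.mul_mem hr hs
    have h0 : q.vec 0 = 1 := rfl
    rintro _ ⟨i, rfl⟩
    simp only [h0, div_one]
    fin_cases i
    · exact q.AA.one_mem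
    · exact hx
    · exact hx2
    · exact hr
    · exact q.AA.mul_mem hr hx2
    · exact hs
    · exact q.AA.mul_mem hs hx2
    · exact hr2
    · exact q.AA.mul_mem hr2 hx2
    · exact hrs
    · exact q.AA.mul_mem hrs hx
    · exact q.AA.mul_mem hrs hx2
    · exact hy
    · exact q.AA.mul_mem hy hr2
  · unfold AA
    rw [Algebra.adjoin_le_iff]
    have h : ∀ i, q.vec i / q.vec 0 ∈
        Algebra.adjoin ℂ (Set.range fun i => q.vec i / q.vec 0) :=
      fun i => Algebra.subset_adjoin ⟨i, rfl⟩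
    have h0 : q.vec 0 = 1 := rfl
    simp only [h0, div_one] at h ⊢
    rintro _ (rfl | rfl | rfl | rfl)
    · exact h 3
    · exact h 5
    · exact h 1
    · exact h 12

theorem adjoin_B (q : Qd K) (hr0 : q.r ≠ 0) (hs0 : q.s ≠ 0) :
    Algebra.adjoin ℂ (Set.range fun i => q.vec i / q.vec 9) = q.BB := by
  apply le_antisymm
  · rw [Algebra.adjoin_le_iff]
    have hc : q.r / q.s ∈ q.BB := Algebra.subset_adjoin (by simp)
    have he : q.r⁻¹ ∈ q.BB := Algebra.subset_adjoin (by simp)
    have hx : q.x ∈ q.BB := Algebra.subset_adjoin (by simp)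
    have hy : q.y * q.r / q.s ∈ q.BB := Algebra.subset_adjoin (by simp)
    have hx2 := q.BB.pow_mem hx 2
    have hce := q.BB.mul_mem hc he
    have hce2 := q.BB.mul_mem hce he
    have M : ∀ {a b : K}, a = b → b ∈ q.BB → a ∈ q.BB := fun h h' => h ▸ h'
    rintro _ ⟨i, rfl⟩
    fin_cases i
    · have e : q.vec 0 / q.vec 9 = q.r / q.s * q.r⁻¹ * q.r⁻¹ := by
        simp [vec]; field_simp; simp
      exact M e (hce2)
    · have e : q.vec 1 / q.vec 9 = q.r / q.s * q.r⁻¹ * q.r⁻¹ * q.x := by
        simp [vec]; field_simp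
      exact M e (q.BB.mul_mem hce2 hx)
    · have e : q.vec 2 / q.vec 9 = q.r / q.s * q.r⁻¹ * q.r⁻¹ * q.x ^ 2 := by
        simp [vec]; field_simp
      exact M e (q.BB.mul_mem hce2 hx2)
    · have e : q.vec 3 / q.vec 9 = q.r / q.s * q.r⁻¹ := by
        simp [vec]; field_simp
      exact M e (hce)
    · have e : q.vec 4 / q.vec 9 = q.r / q.s * q.r⁻¹ * q.x ^ 2 := by
        simp [vec]; field_simp
      exact M e (q.BB.mul_mem hce hx2)
    · have e : q.vec 5 / q.vec 9 = q.r⁻¹ := by
        simp [vec]; field_simp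
      exact M e (he)
    · have e : q.vec 6 / q.vec 9 = q.r⁻¹ * q.x ^ 2 := by
        simp [vec]; field_simp
      exact M e (q.BB.mul_mem he hx2)
    · have e : q.vec 7 / q.vec 9 = q.r / q.s := by
        simp [vec]; field_simp
      exact M e (hc)
    · have e : q.vec 8 / q.vec 9 = q.r / q.s * q.x ^ 2 := by
        simp [vec]; field_simp
      exact M e (q.BB.mul_mem hc hx2)
    · have e : q.vec 9 / q.vec 9 = 1 := by
        simp [vec, hr0, hs0]
      exact M e (q.BB.one_mem)
    · have e : q.vec 10 / q.vec 9 = q.x := by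
        simp [vec]; field_simp
      exact M e (hx)
    · have e : q.vec 11 / q.vec 9 = q.x ^ 2 := by
        simp [vec]; field_simp
      exact M e (hx2)
    · have e : q.vec 12 / q.vec 9 = q.y * q.r / q.s * q.r⁻¹ ^ 2 := by
        simp [vec]; field_simp
      exact M e (q.BB.mul_mem hy (q.BB.pow_mem he 2))
    · have e : q.vec 13 / q.vec 9 = q.y * q.r / q.s := by
        simp [vec]; field_simp
      exact M e (hy)
  · unfold BB
    rw [Algebra.adjoin_le_iff]
    have h : ∀ i, q.vec i / q.vec 9 ∈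
        Algebra.adjoin ℂ (Set.range fun i => q.vec i / q.vec 9) :=
      fun i => Algebra.subset_adjoin ⟨i, rfl⟩
    rintro _ (rfl | rfl | rfl | rfl)
    · have e : q.vec 7 / q.vec 9 = q.r / q.s := by
        simp [vec]; field_simp
      exact e ▸ h 7
    · have e : q.vec 5 / q.vec 9 = q.r⁻¹ := by
        simp [vec]; field_simp
      exact e ▸ h 5
    · have e : q.vec 10 / q.vec 9 = q.x := by
        simp [vec]; field_simp
      exact e ▸ h 10
    · have e : q.vec 13 / q.vec 9 = q.y * q.r / q.s := by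
        simp [vec]; field_simp
      exact e ▸ h 13

omit [Algebra ℂ K] in
theorem range_flip (q : Qd K) (hx : q.x ≠ 0) (j : Fin 14) :
    (Set.range fun i => q.flip.vec i / q.flip.vec j) =
      Set.range fun i => q.vec i / q.vec (perm j) := by
  have hx2 : q.x ^ 2 ≠ 0 := pow_ne_zero 2 hx
  ext z
  constructor
  · rintro ⟨i, rfl⟩
    refine ⟨perm i, ?_⟩
    simp only [vec_flip q hx]
    rw [div_div_div_cancel_right₀ hx2]
  · rintro ⟨i, rfl⟩
    refine ⟨perm i, ?_⟩
    simp only [vec_flip q hx]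
    rw [div_div_div_cancel_right₀ hx2, perm_perm]

theorem adjoin_A' (q : Qd K) (hx : q.x ≠ 0) :
    Algebra.adjoin ℂ (Set.range fun i => q.vec i / q.vec 2) = q.flip.AA := by
  have h := range_flip q hx 0
  have h0 : perm 0 = 2 := rfl
  rw [h0] at h
  rw [← h, adjoin_A]

theorem adjoin_B' (q : Qd K) (hr0 : q.r ≠ 0) (hs0 : q.s ≠ 0) (hx : q.x ≠ 0) :
    Algebra.adjoin ℂ (Set.range fun i => q.vec i / q.vec 11) = q.flip.BB := by
  have h := range_flip q hx 9
  have h0 : perm 9 = 11 := rfl
  rw [h0] at h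
  rw [← h, adjoin_B q.flip hr0 hs0]

end Qd

end

end M21.XP
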