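import Pool.Agent.H.MP_21b43d_ag.XP.Wt4
import Pool.Agent.H.MP_21b43d_ag.XP.Der1

/-!
# M21, Theorem X': the derivations `D0`, `D1`, `D2` and the vanishing of 1-forms on `D0`
-/

noncomputable section

namespace M21.XP

universe u

variable {K : Type u} [Field K] [Algebra ℂ K] {r s x y : K}

/-- `D` preserves the subalgebra `S` -/
def Pres (S : Subalgebra ℂ K) (D : Derivation ℂ K K) : Prop := ∀ a ∈ S, D a ∈ S

theorem pres_adjoin {G : Set K} {D : Derivation ℂ K K}
    (h : ∀ g ∈ G, D g ∈ Algebra.adjoin ℂ G) : Pres (Algebra.adjoin ℂ G) D := by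
  intro a ha
  induction ha using Algebra.adjoin_induction with
  | mem a ha => exact h a ha
  | algebraMap c =>
    rw [Derivation.map_algebraMap]
    exact Subalgebra.zero_mem _
  | add a b _ _ ha hb =>
    rw [map_add]
    exact Subalgebra.add_mem _ ha hb
  | mul a b ha' hb' ha hb =>
    rw [Derivation.leibniz, smul_eq_mul, smul_eq_mul]
    exact Subalgebra.add_mem _ (Subalgebra.mul_mem _ ha' hb) (Subalgebra.mul_mem _ hb' ha)

theorem charK : (2 : K) ≠ 0 ∧ (3 : K) ≠ 0 := by
  have : CharZero K := charZero_of_injective_algebraMap (algebraMap ℂ K).injective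
  exact ⟨by norm_num, by norm_num⟩

theorem Dat.y_ne (h : Dat r s x y) : y ≠ 0 := by
  intro h0
  have h1 := h.hS
  rw [h0] at h1
  have h2 : ev r x (Polynomial.C pP) + ev r x (Polynomial.C pQ) * s = 0 := by
    rw [ev_pP, ev_pQ]
    linear_combination -h1
  have h3 := (h.ind2 h2).2
  rw [← Polynomial.C_0] at h3
  have h4 := Polynomial.C_injective h3
  have h5 := congrArg (Polynomial.eval 0) h4
  simp [pQ] at h5

theorem D_pow (D : Derivation ℂ K K) (a : K) (n : ℕ) : D (a ^ (n + 1)) = (n + 1) * a ^ n * D a := by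
  rw [Derivation.leibniz_pow]
  simp [mul_assoc]

theorem D_s (h : Dat r s x y) (D : Derivation ℂ K K) : 2 * s * D s = 3 * r ^ 2 * D r := by
  have h1 := congrArg D h.hE
  rw [map_add, D_pow, D_pow, Derivation.map_one_eq_zero] at h1
  push_cast at h1
  linear_combination h1

theorem D_y (h : Dat r s x y) (D : Derivation ℂ K K) :
    3 * y ^ 2 * D y = D s * (x ^ 6 + 1) + (6 * s * x ^ 5 + 3 * x ^ 2) * D x := by
  have h1 := congrArg D h.hS
  have h2 : D (2 : K) = 0 := by
    have := D.map_natCast 2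
    simpa using this
  rw [map_add, Derivation.leibniz, map_add, map_add, D_pow, D_pow, D_pow,
    Derivation.map_one_eq_zero, h2] at h1
  simp only [smul_eq_mul] at h1
  push_cast at h1
  linear_combination h1

theorem exists_D01 (hi : AlgebraicIndependent ℂ ![r, x]) : ∃ D0 D1 : Derivation ℂ K K,
    D0 r = 0 ∧ D0 x = 3 * y ^ 2 ∧ D1 r = 6 * s * y ^ 2 ∧ D1 x = 0 := by
  obtain ⟨D0, h0, h0'⟩ := exists_der hi 0 (3 * y ^ 2)
  obtain ⟨D1, h1, h1'⟩ := exists_der hi (6 * s * y ^ 2) 0
  exact ⟨D0, D1, h0, h0', h1, h1'⟩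

section

variable (h : Dat r s x y) {D0 D1 : Derivation ℂ K K}

include h

theorem D0_s (hr : D0 r = 0) : D0 s = 0 := by
  have h1 := D_s h D0
  rw [hr, mul_zero] at h1
  exact (mul_eq_zero.1 h1).resolve_left (mul_ne_zero charK.1 h.s_ne)

theorem D0_y (hr : D0 r = 0) (hx : D0 x = 3 * y ^ 2) : D0 y = 6 * s * x ^ 5 + 3 * x ^ 2 := by
  have h1 := D_y h D0
  rw [D0_s h hr, hx] at h1
  have h2 : (3 * y ^ 2 : K) ≠ 0 := mul_ne_zero charK.2 (pow_ne_zero 2 h.y_ne)
  apply mul_left_cancel₀ h2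
  linear_combination h1

theorem D1_s (hr : D1 r = 6 * s * y ^ 2) : D1 s = 9 * r ^ 2 * y ^ 2 := by
  have h1 := D_s h D1
  rw [hr] at h1
  apply mul_left_cancel₀ (mul_ne_zero charK.1 h.s_ne)
  linear_combination h1

theorem D1_y (hr : D1 r = 6 * s * y ^ 2) (hx : D1 x = 0) : D1 y = 3 * r ^ 2 * (x ^ 6 + 1) := by
  have h1 := D_y h D1
  rw [D1_s h hr, hx] at h1
  have h2 : (3 * y ^ 2 : K) ≠ 0 := mul_ne_zero charK.2 (pow_ne_zero 2 h.y_ne)
  apply mul_left_cancel₀ h2
  linear_combination h1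

end

/-- the derivation `D2` -/
def D2 (r s x y : K) (D0 D1 : Derivation ℂ K K) : Derivation ℂ K K :=
  (3 * y ^ 2)⁻¹ • ((6 * s * x ^ 5 + 3 * x ^ 2) • D1 - (3 * r ^ 2 * (x ^ 6 + 1)) • D0)

theorem D2_apply (D0 D1 : Derivation ℂ K K) (a : K) : D2 r s x y D0 D1 a =
    (3 * y ^ 2)⁻¹ * ((6 * s * x ^ 5 + 3 * x ^ 2) * D1 a - (3 * r ^ 2 * (x ^ 6 + 1)) * D0 a) := by
  rfl

theorem pres_adjoin4 {a b c d : K} {D : Derivation ℂ K K}
    (ha : D a ∈ Algebra.adjoin ℂ {a, b, c, d}) (hb : D b ∈ Algebra.adjoin ℂ {a, b, c, d})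
    (hc : D c ∈ Algebra.adjoin ℂ {a, b, c, d}) (hd : D d ∈ Algebra.adjoin ℂ {a, b, c, d}) :
    Pres (Algebra.adjoin ℂ {a, b, c, d}) D := by
  apply pres_adjoin
  intro g hg
  simp only [Set.mem_insert_iff, Set.mem_singleton_iff] at hg
  rcases hg with hg | hg | hg | hg <;> rw [hg] <;> assumption

section

variable (h : Dat r s x y) {D0 D1 : Derivation ℂ K K}

include h

theorem pres0_A (hr : D0 r = 0) (hx : D0 x = 3 * y ^ 2) : Pres (chA r s x y) D0 := by
  have mr : r ∈ Algebra.adjoin ℂ {r, s, x, y} := Algebra.subset_adjoin (by simp)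
  have ms : s ∈ Algebra.adjoin ℂ {r, s, x, y} := Algebra.subset_adjoin (by simp)
  have mx : x ∈ Algebra.adjoin ℂ {r, s, x, y} := Algebra.subset_adjoin (by simp)
  have my : y ∈ Algebra.adjoin ℂ {r, s, x, y} := Algebra.subset_adjoin (by simp)
  apply pres_adjoin4
  · rw [hr]; exact Subalgebra.zero_mem _
  · rw [D0_s h hr]; exact Subalgebra.zero_mem _
  · rw [hx]
    repeat' first | assumption | apply ofNat_mem | apply add_mem | apply mul_mem | apply pow_mem
  · rw [D0_y h hr hx]
    repeat' first | assumption | apply ofNat_mem | apply add_mem | apply mul_mem | apply pow_mem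

theorem pres1_A (hr : D1 r = 6 * s * y ^ 2) (hx : D1 x = 0) : Pres (chA r s x y) D1 := by
  have mr : r ∈ Algebra.adjoin ℂ {r, s, x, y} := Algebra.subset_adjoin (by simp)
  have ms : s ∈ Algebra.adjoin ℂ {r, s, x, y} := Algebra.subset_adjoin (by simp)
  have mx : x ∈ Algebra.adjoin ℂ {r, s, x, y} := Algebra.subset_adjoin (by simp)
  have my : y ∈ Algebra.adjoin ℂ {r, s, x, y} := Algebra.subset_adjoin (by simp)
  apply pres_adjoin4
  · rw [hr]
    repeat' first | assumption | apply ofNat_mem | apply add_mem | apply mul_mem | apply pow_mem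
  · rw [D1_s h hr]
    repeat' first | assumption | apply ofNat_mem | apply add_mem | apply mul_mem | apply pow_mem
  · rw [hx]; exact Subalgebra.zero_mem _
  · rw [D1_y h hr hx]
    repeat' first | assumption | apply ofNat_mem | apply one_mem | apply add_mem |
      apply mul_mem | apply pow_mem

theorem pres2_A (hr : D0 r = 0) (hx : D0 x = 3 * y ^ 2) (hr' : D1 r = 6 * s * y ^ 2)
    (hx' : D1 x = 0) : Pres (chA r s x y) (D2 r s x y D0 D1) := by
  have mr : r ∈ Algebra.adjoin ℂ {r, s, x, y} := Algebra.subset_adjoin (by simp)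
  have ms : s ∈ Algebra.adjoin ℂ {r, s, x, y} := Algebra.subset_adjoin (by simp)
  have mx : x ∈ Algebra.adjoin ℂ {r, s, x, y} := Algebra.subset_adjoin (by simp)
  have my : y ∈ Algebra.adjoin ℂ {r, s, x, y} := Algebra.subset_adjoin (by simp)
  have h3 := charK (K := K).2
  have hy := h.y_ne
  apply pres_adjoin4
  · have e : D2 r s x y D0 D1 r = 2 * s * (6 * s * x ^ 5 + 3 * x ^ 2) := by
      rw [D2_apply, hr, hr']
      field_simp
      ring
    rw [e]
    repeat' first | assumption | apply ofNat_mem | apply add_mem | apply mul_mem | apply pow_mem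
  · have e : D2 r s x y D0 D1 s = 3 * r ^ 2 * (6 * s * x ^ 5 + 3 * x ^ 2) := by
      rw [D2_apply, D0_s h hr, D1_s h hr']
      field_simp
      ring
    rw [e]
    repeat' first | assumption | apply ofNat_mem | apply add_mem | apply mul_mem | apply pow_mem
  · have e : D2 r s x y D0 D1 x = -(3 * r ^ 2 * (x ^ 6 + 1)) := by
      rw [D2_apply, hx, hx']
      field_simp
      ring
    rw [e]
    repeat' first | assumption | apply ofNat_mem | apply one_mem | apply neg_mem |
      apply add_mem | apply mul_mem | apply pow_mem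
  · have e : D2 r s x y D0 D1 y = 0 := by
      rw [D2_apply, D0_y h hr hx, D1_y h hr' hx']
      ring
    rw [e]
    exact Subalgebra.zero_mem _

theorem pres0_A' (hr : D0 r = 0) (hx : D0 x = 3 * y ^ 2) :
    Pres (chA' r s x y) ((x ^ 2)⁻¹ • D0) := by
  have mr : r ∈ Algebra.adjoin ℂ {r, s, x⁻¹, y / x ^ 2} := Algebra.subset_adjoin (by simp)
  have ms : s ∈ Algebra.adjoin ℂ {r, s, x⁻¹, y / x ^ 2} := Algebra.subset_adjoin (by simp)
  have mx : x⁻¹ ∈ Algebra.adjoin ℂ {r, s, x⁻¹, y / x ^ 2} := Algebra.subset_adjoin (by simp)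
  have my : y / x ^ 2 ∈ Algebra.adjoin ℂ {r, s, x⁻¹, y / x ^ 2} :=
    Algebra.subset_adjoin (by simp)
  have hx0 := h.x_ne
  apply pres_adjoin4
  · rw [Derivation.smul_apply, hr, smul_zero]; exact Subalgebra.zero_mem _
  · rw [Derivation.smul_apply, D0_s h hr, smul_zero]; exact Subalgebra.zero_mem _
  · have e : ((x ^ 2)⁻¹ • D0) x⁻¹ = - (3 * (y / x ^ 2) ^ 2) := by
      rw [Derivation.smul_apply, Derivation.leibniz_inv, hx, smul_eq_mul, smul_eq_mul]
      field_simp
    rw [e]
    repeat' first | assumption | apply ofNat_mem | apply neg_mem | apply mul_mem | apply pow_mem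
  · have e : ((x ^ 2)⁻¹ • D0) (y / x ^ 2) = -(3 * x⁻¹ ^ 2 + (6 * s + 12) * x⁻¹ ^ 5) := by
      rw [Derivation.smul_apply, Derivation.leibniz_div, D_pow, hx, D0_y h hr hx]
      simp only [smul_eq_mul]
      have := h.hS
      field_simp
      push_cast
      linear_combination (-6) * h.hS
    rw [e]
    repeat' first | assumption | apply ofNat_mem | apply neg_mem | apply add_mem |
      apply mul_mem | apply pow_mem

theorem pres1_A' (hr : D1 r = 6 * s * y ^ 2) (hx : D1 x = 0) :
    Pres (chA' r s x y) ((x ^ 4)⁻¹ • D1) := by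
  have mr : r ∈ Algebra.adjoin ℂ {r, s, x⁻¹, y / x ^ 2} := Algebra.subset_adjoin (by simp)
  have ms : s ∈ Algebra.adjoin ℂ {r, s, x⁻¹, y / x ^ 2} := Algebra.subset_adjoin (by simp)
  have mx : x⁻¹ ∈ Algebra.adjoin ℂ {r, s, x⁻¹, y / x ^ 2} := Algebra.subset_adjoin (by simp)
  have my : y / x ^ 2 ∈ Algebra.adjoin ℂ {r, s, x⁻¹, y / x ^ 2} :=
    Algebra.subset_adjoin (by simp)
  have hx0 := h.x_ne
  apply pres_adjoin4
  · have e : ((x ^ 4)⁻¹ • D1) r = 6 * s * (y / x ^ 2) ^ 2 := by
      rw [Derivation.smul_apply, hr, smul_eq_mul]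
      field_simp
    rw [e]
    repeat' first | assumption | apply ofNat_mem | apply neg_mem | apply mul_mem | apply pow_mem
  · have e : ((x ^ 4)⁻¹ • D1) s = 9 * r ^ 2 * (y / x ^ 2) ^ 2 := by
      rw [Derivation.smul_apply, D1_s h hr, smul_eq_mul]
      field_simp
    rw [e]
    repeat' first | assumption | apply ofNat_mem | apply neg_mem | apply mul_mem | apply pow_mem
  · have e : ((x ^ 4)⁻¹ • D1) x⁻¹ = 0 := by
      rw [Derivation.smul_apply, Derivation.leibniz_inv, hx, smul_zero, smul_zero]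
    rw [e]
    exact Subalgebra.zero_mem _
  · have e : ((x ^ 4)⁻¹ • D1) (y / x ^ 2) = 3 * r ^ 2 * (1 + x⁻¹ ^ 6) := by
      rw [Derivation.smul_apply, Derivation.leibniz_div, D_pow, hx, D1_y h hr hx]
      simp only [smul_eq_mul]
      field_simp
      ring
    rw [e]
    repeat' first | assumption | apply ofNat_mem | apply one_mem | apply add_mem |
      apply mul_mem | apply pow_mem

theorem pres0_B (hr : D0 r = 0) (hx : D0 x = 3 * y ^ 2) :
    Pres (chB r s x y) (r⁻¹ • D0) := by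
  have mc : r / s ∈ Algebra.adjoin ℂ {r / s, r⁻¹, x, y * r / s} :=
    Algebra.subset_adjoin (by simp)
  have me : r⁻¹ ∈ Algebra.adjoin ℂ {r / s, r⁻¹, x, y * r / s} := Algebra.subset_adjoin (by simp)
  have mx : x ∈ Algebra.adjoin ℂ {r / s, r⁻¹, x, y * r / s} := Algebra.subset_adjoin (by simp)
  have my : y * r / s ∈ Algebra.adjoin ℂ {r / s, r⁻¹, x, y * r / s} :=
    Algebra.subset_adjoin (by simp)
  have hr0 := h.r_ne
  have hs0 := h.s_ne
  apply pres_adjoin4
  · have e : (r⁻¹ • D0) (r / s) = 0 := by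
      rw [Derivation.smul_apply, Derivation.leibniz_div, hr, D0_s h hr]
      simp
    rw [e]
    exact Subalgebra.zero_mem _
  · have e : (r⁻¹ • D0) r⁻¹ = 0 := by
      rw [Derivation.smul_apply, Derivation.leibniz_inv, hr]
      simp
    rw [e]
    exact Subalgebra.zero_mem _
  · have e : (r⁻¹ • D0) x = 3 * (y * r / s) ^ 2 * (1 + r⁻¹ ^ 3) := by
      rw [Derivation.smul_apply, hx, smul_eq_mul]
      field_simp
      linear_combination 3 * y ^ 2 * h.hE
    rw [e]
    repeat' first | assumption | apply ofNat_mem | apply one_mem | apply add_mem |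
      apply mul_mem | apply pow_mem
  · have e : (r⁻¹ • D0) (y * r / s) = 6 * x ^ 5 + 3 * (r / s) * r⁻¹ * x ^ 2 := by
      rw [Derivation.smul_apply, Derivation.leibniz_div, Derivation.leibniz, hr, D0_s h hr,
        D0_y h hr hx]
      simp only [smul_eq_mul]
      field_simp
      ring
    rw [e]
    repeat' first | assumption | apply ofNat_mem | apply one_mem | apply add_mem |
      apply mul_mem | apply pow_mem

theorem pres1_B (hr : D1 r = 6 * s * y ^ 2) (hx : D1 x = 0) :
    Pres (chB r s x y) (r⁻¹ • D1) := by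
  have mc : r / s ∈ Algebra.adjoin ℂ {r / s, r⁻¹, x, y * r / s} :=
    Algebra.subset_adjoin (by simp)
  have me : r⁻¹ ∈ Algebra.adjoin ℂ {r / s, r⁻¹, x, y * r / s} := Algebra.subset_adjoin (by simp)
  have mx : x ∈ Algebra.adjoin ℂ {r / s, r⁻¹, x, y * r / s} := Algebra.subset_adjoin (by simp)
  have my : y * r / s ∈ Algebra.adjoin ℂ {r / s, r⁻¹, x, y * r / s} :=
    Algebra.subset_adjoin (by simp)
  have hr0 := h.r_ne
  have hs0 := h.s_ne
  have hE := h.hE
  have hS := h.hS
  apply pres_adjoin4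
  · have e : (r⁻¹ • D1) (r / s) = (y * r / s) ^ 2 * (6 * r⁻¹ ^ 3 - 3) := by
      rw [Derivation.smul_apply, Derivation.leibniz_div, hr, D1_s h hr]
      simp only [smul_eq_mul]
      field_simp
      linear_combination 6 * y ^ 2 * hE
    rw [e]
    repeat' first | assumption | apply ofNat_mem | apply one_mem | apply sub_mem |
      apply mul_mem | apply pow_mem
  · have e : (r⁻¹ • D1) r⁻¹ = -(6 * (y * r / s) ^ 2 * (r / s) * (1 + r⁻¹ ^ 3) ^ 2) := by
      rw [Derivation.smul_apply, Derivation.leibniz_inv, hr]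
      simp only [smul_eq_mul]
      field_simp
      linear_combination -(6 * y ^ 2 * (s ^ 2 + (r ^ 3 + 1))) * hE
    rw [e]
    repeat' first | assumption | apply ofNat_mem | apply one_mem | apply neg_mem |
      apply add_mem | apply mul_mem | apply pow_mem
  · have e : (r⁻¹ • D1) x = 0 := by
      rw [Derivation.smul_apply, hx, smul_zero]
    rw [e]
    exact Subalgebra.zero_mem _
  · have e : (r⁻¹ • D1) (y * r / s) = -(3 * r⁻¹ * (x ^ 3 + 2) * (1 - (r / s) ^ 2 * r⁻¹ ^ 2)) +
        6 * r⁻¹ ^ 2 * (r / s) * (1 + r⁻¹ ^ 3) * (y * r / s) ^ 3 := by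
      rw [Derivation.smul_apply, Derivation.leibniz_div, Derivation.leibniz, hr, D1_s h hr,
        D1_y h hr hx]
      simp only [smul_eq_mul]
      field_simp
      linear_combination (-(s ^ 2 * (3 * s * (x ^ 6 + 1) - 9 * y ^ 3) - 6 * y ^ 3)) * hE +
        (-3 * s ^ 2 * (s ^ 2 - 1)) * hS
    rw [e]
    repeat' first | assumption | apply ofNat_mem | apply one_mem | apply neg_mem |
      apply sub_mem | apply add_mem | apply mul_mem | apply pow_mem

/-- **R4**: a linear form on the derivations of `K` which is regular on the charts vanishes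
on `D0` -/
theorem form_zero (hr : D0 r = 0) (hx : D0 x = 3 * y ^ 2) (hr' : D1 r = 6 * s * y ^ 2)
    (hx' : D1 x = 0) (θ : Derivation ℂ K K →ₗ[K] K)
    (hA : ∀ D, Pres (chA r s x y) D → θ D ∈ chA r s x y)
    (hA' : ∀ D, Pres (chA' r s x y) D → θ D ∈ chA' r s x y)
    (hB : ∀ D, Pres (chB r s x y) D → θ D ∈ chB r s x y) : θ D0 = 0 := by
  have hy := h.y_ne
  have h3 := charK (K := K).2
  refine t0_eq_zero h (t0 := θ D0) (t1 := θ D1) (t2 := θ (D2 r s x y D0 D1))
    (hA _ (pres0_A h hr hx)) ?_ ?_ (hA _ (pres1_A h hr' hx')) ?_ ?_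
    (hA _ (pres2_A h hr hx hr' hx')) ?_
  · have h1 := hA' _ (pres0_A' h hr hx)
    rw [map_smul, smul_eq_mul] at h1
    rwa [div_eq_mul_inv, mul_comm]
  · have h1 := hB _ (pres0_B h hr hx)
    rw [map_smul, smul_eq_mul] at h1
    rwa [div_eq_mul_inv, mul_comm]
  · have h1 := hA' _ (pres1_A' h hr' hx')
    rw [map_smul, smul_eq_mul] at h1
    rwa [div_eq_mul_inv, mul_comm]
  · have h1 := hB _ (pres1_B h hr' hx')
    rw [map_smul, smul_eq_mul] at h1
    rwa [div_eq_mul_inv, mul_comm]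
  · rw [D2, map_smul, map_sub, map_smul, map_smul]
    simp only [smul_eq_mul]
    field_simp

end

end M21.XP
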