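import Pool.Agent.H.MP_21b43d_ag.XP.Emb1
import Pool.Agent.H.MP_21b43d_ag.Defs

/-!
# M6 / Theorem X', embedding of the second surface, part 2: the four charts, the cover
-/

set_option autoImplicit false

open CategoryTheory AlgebraicGeometry TopologicalSpace MvPolynomial

namespace M21.XP

open M21X

noncomputable section

namespace Qd

variable {K : Type} [Field K] [Algebra ℂ K]

/-- the relations between the elements of a quadruple -/
structure Good (q : Qd K) : Prop where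
  ai : AlgebraicIndependent ℂ ![q.r, q.x]
  hE : q.s ^ 2 = q.r ^ 3 + 1
  hS : q.y ^ 3 = q.s * (q.x ^ 6 + 1) + (q.x ^ 3 + 2)

variable {q : Qd K}

theorem Good.trr (h : q.Good) : Transcendental ℂ q.r := ((ai_iff _ _).mp h.ai).1

theorem Good.trx (h : q.Good) : Transcendental ℂ q.x := ((ai_iff _ _).mp (ai_comm h.ai)).1

theorem Good.r_ne (h : q.Good) : q.r ≠ 0 := by
  simpa using Quad.ne_of_tr h.trr 0

theorem Good.x_ne (h : q.Good) : q.x ≠ 0 := by
  simpa using Quad.ne_of_tr h.trx 0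

theorem Good.s_ne (h : q.Good) : q.s ≠ 0 := by
  intro h0
  have h1 := h.hE
  rw [h0] at h1
  have h3 : Transcendental ℂ (q.r ^ 3) := h.trr.pow (by norm_num)
  apply Quad.ne_of_tr h3 (-1)
  rw [map_neg, map_one]
  linear_combination -h1

/-- There is a good quadruple in some field. -/
theorem exists_good : ∃ (K : Type) (_ : Field K) (_ : Algebra ℂ K) (q : Qd K), q.Good := by
  let F := FractionRing (MvPolynomial (Fin 2) ℂ)
  let K := AlgebraicClosure F
  let r : K := algebraMap F K (algebraMap (MvPolynomial (Fin 2) ℂ) F (MvPolynomial.X 0))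
  let x : K := algebraMap F K (algebraMap (MvPolynomial (Fin 2) ℂ) F (MvPolynomial.X 1))
  obtain ⟨s, hs⟩ := IsAlgClosed.exists_pow_nat_eq (r ^ 3 + 1) (n := 2) (by norm_num)
  obtain ⟨y, hy⟩ := IsAlgClosed.exists_pow_nat_eq (s * (x ^ 6 + 1) + (x ^ 3 + 2)) (n := 3)
    (by norm_num)
  have hai : AlgebraicIndependent ℂ ![r, x] := by
    have h1 := (MvPolynomial.algebraicIndependent_X (Fin 2) ℂ)
    have h2 := h1.map' (f := (IsScalarTower.toAlgHom ℂ F K).comp
      (IsScalarTower.toAlgHom ℂ (MvPolynomial (Fin 2) ℂ) F)) (by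
        rw [AlgHom.coe_comp]
        exact (algebraMap F K).injective.comp
          (IsFractionRing.injective (MvPolynomial (Fin 2) ℂ) F))
    convert h2 using 1
    ext i
    fin_cases i <;> rfl
  exact ⟨K, inferInstance, inferInstance, ⟨r, s, x, y⟩, hai, hs, hy⟩

/-- the coordinates defining the four charts -/
def idx : Fin 4 → Fin 14 := ![0, 2, 9, 11]

/-- the rings of the four charts: `A`, `A'`, `B`, `B'` -/
def rg (q : Qd K) : Fin 4 → Subalgebra ℂ K := ![q.AA, q.flip.AA, q.BB, q.flip.BB]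

omit [Algebra ℂ K] in
theorem vec0_ne (q : Qd K) : q.vec 0 ≠ 0 := one_ne_zero

theorem Good.idx_ne (h : q.Good) (i : Fin 4) :
    aeval q.vec (X (idx i) : MvPolynomial (Fin 14) ℂ) ≠ 0 := by
  have hr := h.r_ne
  have hs := h.s_ne
  have hx := h.x_ne
  rw [aeval_X]
  fin_cases i
  · exact one_ne_zero
  · exact pow_ne_zero 2 hx
  · exact mul_ne_zero hr hs
  · exact mul_ne_zero (mul_ne_zero hr hs) (pow_ne_zero 2 hx)

theorem Good.RR_idx (h : q.Good) (i : Fin 4) :
    RR (N := 13) q.vec (X (idx i)) (h.idx_ne i) = (q.rg i).toSubring := by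
  rw [RR_X (N := 13) q.vec (idx i) (h.idx_ne i)]
  congr 1
  fin_cases i
  · exact q.adjoin_A
  · exact q.adjoin_A' h.x_ne
  · exact q.adjoin_B h.r_ne h.s_ne
  · exact q.adjoin_B' h.r_ne h.s_ne h.x_ne

/-- **The surface.** -/
abbrev XX (q : Qd K) : Scheme.{0} := M21X.XX (N := 13) q.vec q.vec0_ne

/-- its generic `K`-point -/
abbrev pt (q : Qd K) : Spec (.of K) ⟶ q.XX := XX.pt (N := 13) q.vec q.vec0_ne

/-- its structure morphism -/
abbrev str (q : Qd K) : q.XX ⟶ Spec (.of ℂ) := XX.str (N := 13) q.vec q.vec0_ne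

theorem isIntegral_XX (q : Qd K) : IsIntegral q.XX := inferInstance

theorem isProjectiveC_str (q : Qd K) : IsProjectiveC q.str :=
  ⟨13, XX.emb (N := 13) q.vec q.vec0_ne, inferInstance, rfl⟩

variable (h : q.Good)

/-- the identification of the two chart rings -/
def Good.ringEquiv (i : Fin 4) : RR (N := 13) q.vec (X (idx i)) (h.idx_ne i) ≃+* q.rg i :=
  RingEquiv.subringCongr (h.RR_idx i)

theorem Good.ringEquiv_val (i : Fin 4) (x : RR (N := 13) q.vec (X (idx i)) (h.idx_ne i)) :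
    (h.ringEquiv i x : K) = x := rfl

/-- **The four charts.** -/
def Good.ch (i : Fin 4) : Spec (.of (q.rg i)) ⟶ q.XX :=
  Spec.map (h.ringEquiv i).toCommRingCatIso.hom ≫
    chart (N := 13) q.vec q.vec0_ne (X (idx i)) (h.idx_ne i) (X_mem 13 (idx i)) one_pos

instance (i : Fin 4) : IsOpenImmersion (h.ch i) := by
  unfold Good.ch
  infer_instance

theorem Good.ch_opensRange (i : Fin 4) :
    (h.ch i).opensRange = UU (N := 13) q.vec q.vec0_ne (X (idx i)) := by
  unfold Good.ch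
  rw [Scheme.Hom.opensRange_comp_of_isIso, chart_opensRange]

theorem Good.ch_pt (i : Fin 4) :
    Spec.map (CommRingCat.ofHom (algebraMap (q.rg i) K)) ≫ h.ch i = q.pt := by
  rw [Good.ch, ← Category.assoc, ← Spec.map_comp]
  exact chart_pt (N := 13) q.vec q.vec0_ne (X (idx i)) (h.idx_ne i) (X_mem 13 (idx i)) one_pos

theorem pt_str' (q : Qd K) : q.pt ≫ q.str = Spec.map (CommRingCat.ofHom (algebraMap ℂ K)) :=
  pt_str (N := 13) q.vec q.vec0_ne

theorem Good.ch_str (i : Fin 4) :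
    h.ch i ≫ q.str = Spec.map (CommRingCat.ofHom (algebraMap ℂ (q.rg i))) := by
  obtain ⟨φ, hφ⟩ := Spec.map_surjective (h.ch i ≫ q.str)
  rw [← hφ]
  congr 1
  have h1 : Spec.map (φ ≫ CommRingCat.ofHom (algebraMap (q.rg i) K)) =
      Spec.map (CommRingCat.ofHom (algebraMap ℂ K)) := by
    rw [Spec.map_comp, hφ, ← Category.assoc, h.ch_pt i]
    exact q.pt_str'
  have h2 := Spec.map_injective h1
  ext c
  exact congrArg (fun ψ => CommRingCat.Hom.hom ψ c) h2

/-- **The four charts cover the surface.** -/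
theorem Good.ch_cover (x : q.XX) : ∃ i, x ∈ (h.ch i).opensRange := by
  by_contra hcon
  push Not at hcon
  set y : PP 13 := XX.emb (N := 13) q.vec q.vec0_ne x with hy
  set P : Ideal (MvPolynomial (Fin 14) ℂ) := y.asHomogeneousIdeal.toIdeal with hP
  have hPp : P.IsPrime := y.isPrime
  have hs : ∀ i, X (idx i) ∈ P := by
    intro i
    have h1 := hcon i
    rw [h.ch_opensRange] at h1
    by_contra h2
    exact h1 h2
  have hz : ∀ (f : MvPolynomial (Fin 14) ℂ) (d : ℕ), f ∈ gr 13 d → 0 < d → aeval q.vec f = 0 →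
      f ∈ P := by
    intro f d hd h0 hf
    have h1 := Quad.not_mem_of_aeval_eq_zero (N := 13) q.vec q.vec0_ne f hd h0 hf x
    by_contra h2
    exact h1 h2
  have m0 : X 0 ∈ P := hs 0
  have m2 : X 2 ∈ P := hs 1
  have m9 : X 9 ∈ P := hs 2
  have m11 : X 11 ∈ P := hs 3
  have qd : ∀ i j : Fin 14, X i * X j ∈ gr 13 2 := fun i j =>
    SetLike.mul_mem_graded (A := gr 13) (X_mem 13 i) (X_mem 13 j)
  have cub : ∀ i j k : Fin 14, X i * X j * X k ∈ gr 13 3 := fun i j k =>
    SetLike.mul_mem_graded (A := gr 13)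
      (SetLike.mul_mem_graded (A := gr 13) (X_mem 13 i) (X_mem 13 j)) (X_mem 13 k)
  have sq : ∀ a b : MvPolynomial (Fin 14) ℂ, a * a - b ∈ P → b ∈ P → a ∈ P := by
    intro a b h1 h2
    have h3 : a * a ∈ P := by
      have := P.add_mem h1 h2
      rwa [sub_add_cancel] at this
    rcases hPp.mem_or_mem h3 with h4 | h4 <;> exact h4
  have cube : ∀ a b : MvPolynomial (Fin 14) ℂ, a * a * a - b ∈ P → b ∈ P → a ∈ P := by
    intro a b h1 h2
    have h3 : a * a * a ∈ P := by
      have := P.add_mem h1 h2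
      rwa [sub_add_cancel] at this
    rcases hPp.mem_or_mem h3 with h4 | h4
    · rcases hPp.mem_or_mem h4 with h5 | h5 <;> exact h5
    · exact h4
  have hE := h.hE
  have hS := h.hS
  have m1 : X 1 ∈ P := by
    refine sq _ (X 0 * X 2) (hz _ 2 (sub_mem (qd _ _) (qd _ _)) (by norm_num) ?_)
      (P.mul_mem_left _ m2)
    simp [vec]
    ring
  have m7 : X 7 ∈ P := by
    refine sq _ (X 9 * X 5 - X 3 * X 0)
      (hz _ 2 (sub_mem (qd _ _) (sub_mem (qd _ _) (qd _ _))) (by norm_num) ?_)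
      (P.sub_mem (P.mul_mem_right _ m9) (P.mul_mem_left _ m0))
    simp [vec]
    linear_combination (-q.r) * hE
  have m3 : X 3 ∈ P := by
    refine sq _ (X 7 * X 0) (hz _ 2 (sub_mem (qd _ _) (qd _ _)) (by norm_num) ?_)
      (P.mul_mem_left _ m0)
    simp [vec]
    ring
  have m5 : X 5 ∈ P := by
    refine sq _ (X 7 * X 3 + X 0 * X 0)
      (hz _ 2 (sub_mem (qd _ _) (add_mem (qd _ _) (qd _ _))) (by norm_num) ?_)
      (P.add_mem (P.mul_mem_left _ m3) (P.mul_mem_left _ m0))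
    simp [vec]
    linear_combination hE
  have m8 : X 8 ∈ P := by
    refine sq _ (X 11 * X 6 - X 4 * X 2)
      (hz _ 2 (sub_mem (qd _ _) (sub_mem (qd _ _) (qd _ _))) (by norm_num) ?_)
      (P.sub_mem (P.mul_mem_right _ m11) (P.mul_mem_left _ m2))
    simp [vec]
    linear_combination (-q.r * q.x ^ 4) * hE
  have m4 : X 4 ∈ P := by
    refine sq _ (X 8 * X 2) (hz _ 2 (sub_mem (qd _ _) (qd _ _)) (by norm_num) ?_)
      (P.mul_mem_left _ m2)
    simp [vec]
    ring
  have m6 : X 6 ∈ P := by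
    refine sq _ (X 8 * X 4 + X 2 * X 2)
      (hz _ 2 (sub_mem (qd _ _) (add_mem (qd _ _) (qd _ _))) (by norm_num) ?_)
      (P.add_mem (P.mul_mem_left _ m4) (P.mul_mem_left _ m2))
    simp [vec]
    linear_combination (q.x ^ 4) * hE
  have m10 : X 10 ∈ P := by
    refine sq _ (X 9 * X 11) (hz _ 2 (sub_mem (qd _ _) (qd _ _)) (by norm_num) ?_)
      (P.mul_mem_left _ m11)
    simp [vec]
    ring
  -- `y³ = s x⁶ + s + x³ + 2`
  have m12 : X 12 ∈ P := by
    refine cube _ (X 6 * X 2 * X 2 + X 5 * X 0 * X 0 + X 1 * X 2 * X 0 + X 0 * X 0 * X 0 +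
      X 0 * X 0 * X 0)
      (hz _ 3 (sub_mem (cub _ _ _) (add_mem (add_mem (add_mem (add_mem (cub _ _ _) (cub _ _ _))
        (cub _ _ _)) (cub _ _ _)) (cub _ _ _))) (by norm_num) ?_)
      (P.add_mem (P.add_mem (P.add_mem (P.add_mem (P.mul_mem_left _ m2) (P.mul_mem_left _ m0))
        (P.mul_mem_left _ m0)) (P.mul_mem_left _ m0)) (P.mul_mem_left _ m0))
    simp [vec]
    linear_combination hS
  -- `(y r²)³ = (rs x²)³ - (rs x²)(r² x²) x² + (rs)³ - (rs) r² + r⁶ x³ + 2 r⁶`
  have m13 : X 13 ∈ P := by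
    refine cube _ (X 11 * X 11 * X 11 - X 11 * X 8 * X 2 + (X 9 * X 9 * X 9 - X 9 * X 7 * X 0) +
      (X 10 * X 6 * X 7 - X 3 * X 1 * X 8) + X 7 * X 7 * X 7 + X 7 * X 7 * X 7)
      (hz _ 3 (sub_mem (cub _ _ _) (add_mem (add_mem (add_mem (add_mem (sub_mem (cub _ _ _)
        (cub _ _ _)) (sub_mem (cub _ _ _) (cub _ _ _))) (sub_mem (cub _ _ _) (cub _ _ _)))
        (cub _ _ _)) (cub _ _ _))) (by norm_num) ?_)
      (P.add_mem (P.add_mem (P.add_mem (P.add_mem (P.sub_mem (P.mul_mem_left _ m11)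
        (P.mul_mem_left _ m2)) (P.sub_mem (P.mul_mem_left _ m9) (P.mul_mem_left _ m0)))
        (P.sub_mem (P.mul_mem_left _ m7) (P.mul_mem_left _ m8))) (P.mul_mem_left _ m7))
        (P.mul_mem_left _ m7))
    simp [vec]
    linear_combination (q.r ^ 6) * hS - (q.r ^ 3 * q.s * q.x ^ 6 + q.r ^ 3 * q.s +
      q.r ^ 3 * q.x ^ 3) * hE
  obtain ⟨j, hj⟩ := Quad.exists_X_mem 13 y
  apply hj
  change X j ∈ P
  fin_cases j
  · exact m0
  · exact m1
  · exact m2
  · exact m3
  · exact m4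
  · exact m5
  · exact m6
  · exact m7
  · exact m8
  · exact m9
  · exact m10
  · exact m11
  · exact m12
  · exact m13

end Qd

end

end M21.XP
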