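import Pool.Agent.H.MP_21b43d_ag.X.Alb7
import Pool.Agent.H.MP_21b43d_ag.XP.Der2
import Pool.Agent.H.MP_21b43d_ag.XP.Emb2

/-!
# M6 / Theorem X': no finite morphism from the second surface to a group scheme
-/

set_option autoImplicit false

open CategoryTheory AlgebraicGeometry TopologicalSpace Opposite

namespace M21.XP

open M21X

noncomputable section

variable {K : Type} [Field K] [Algebra ℂ K]

namespace Qd

theorem Good.dat {q : Qd K} (h : q.Good) : Dat q.r q.s q.x q.y := Dat.mk' h.ai h.hE h.hS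

/-- **No finite morphism to a group scheme.** -/
theorem Good.not_finite {q : Qd K} (h : q.Good) (G : Over (Spec (.of ℂ))) [GrpObj G]
    (g : Over.mk q.str ⟶ G) : ¬ IsFinite g.left := by
  intro hg
  obtain ⟨I, th, h1, h2⟩ := exists_theta' q.str q.pt (pt_str' q) (q.rg 0) (h.ch 0) (h.ch_pt 0) G g
    hg
  obtain ⟨D0, D1, hr, hx, hr', hx'⟩ := exists_D01 (s := q.s) (y := q.y) h.ai
  have hzero : ∀ i, th i D0 = 0 := by
    intro i
    refine form_zero h.dat hr hx hr' hx' (th i) ?_ ?_ ?_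
    · exact fun D hD => h1 i (q.rg 0) (h.ch 0) (h.ch_pt 0) D hD
    · exact fun D hD => h1 i (q.rg 1) (h.ch 1) (h.ch_pt 1) D hD
    · exact fun D hD => h1 i (q.rg 2) (h.ch 2) (h.ch_pt 2) D hD
  have hx0 : q.x ∈ q.rg 0 := Algebra.subset_adjoin (by simp)
  have h3 := h2 D0 hzero q.x hx0
  rw [hx] at h3
  exact mul_ne_zero charK.2 (pow_ne_zero 2 h.dat.y_ne) h3

theorem Good.albaneseNotFinite {q : Qd K} (h : q.Good) : AlbaneseNotFinite q.str :=
  fun A _ _ g => h.not_finite A g

end Qd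

end

end M21.XP
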