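import Pool.Agent.H.MP_21b43d_ag.XP.GridX
import Pool.Agent.H.MP_21b43d_ag.E3.Q.FinG

/-!
# M6 / X': stability conditions on the second surface exist
-/

set_option autoImplicit false

open CategoryTheory AlgebraicGeometry

noncomputable section

namespace M21.XP

open E3

variable {K : Type} [Field K] [Algebra ℂ K] {q : Qd K}

/-- **There are stability conditions on the second surface.** -/
theorem Qd.Good.exists_stab (h : q.Good) : Nonempty (StabilityCondition q.str) :=
  h.grid.exists_stab h.grid_ai h.splitK

end M21.XP
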