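import Pool.Agent.H.MP_21b43d_ag.XP.Spl1

/-!
# M21, Theorem X', existence part: the split basis, part 2: the chart rings are the spans
-/

noncomputable section

namespace M21.XP

variable {K : Type*} [Field K] [Algebra ℂ K] {r s x y : K}

/-- the ring of the chart `(σ, τ)` -/
def chX (r s x y : K) (σ τ : Bool) : Subalgebra ℂ K :=
  Algebra.adjoin ℂ {if τ then r / s else r, if τ then r⁻¹ else s, if σ then x⁻¹ else x,
    (y * if σ then (x ^ 2)⁻¹ else 1) * if τ then r / s else 1}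

/-- the span of the regular monomials -/
def MSX (r s x y : K) (σ τ : Bool) : Submodule ℂ K :=
  Submodule.span ℂ {g | ∃ (p q : ℤ) (a b c : ℕ), Cnd σ τ p q a b c ∧ g = mon r s x y p q a b c}

theorem MSX_le (h : Dat r s x y) (σ τ : Bool) : MSX r s x y σ τ ≤ SPX r s x y σ τ := by
  refine Submodule.span_le.2 ?_
  rintro _ ⟨p, q, a, b, c, hc, rfl⟩
  exact mon_mem h c a b p q hc

theorem Cnd.add {σ τ : Bool} {p q p' q' : ℤ} {a b c a' b' c' : ℕ} (h : Cnd σ τ p q a b c)
    (h' : Cnd σ τ p' q' a' b' c') : Cnd σ τ (p + p') (q + q') (a + a') (b + b') (c + c') := by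
  obtain ⟨h1, h2⟩ := h
  obtain ⟨h1', h2'⟩ := h'
  refine ⟨?_, ?_⟩
  all_goals
    cases σ <;> cases τ <;>
      simp only [Bool.false_eq_true, if_false, if_true] at h1 h2 h1' h2' ⊢ <;>
      push_cast at h1 h2 h1' h2' ⊢ <;> omega

theorem mon_mul (h : Dat r s x y) (p q p' q' : ℤ) (a b c a' b' c' : ℕ) :
    mon r s x y p q a b c * mon r s x y p' q' a' b' c' =
      mon r s x y (p + p') (q + q') (a + a') (b + b') (c + c') := by
  have hZ : r * s ≠ 0 := mul_ne_zero h.r_ne h.s_ne
  unfold mon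
  rw [zpow_add₀ hZ, zpow_add₀ h.x_ne]
  ring

theorem MSX_mul (h : Dat r s x y) {σ τ : Bool} {t u : K} (ht : t ∈ MSX r s x y σ τ)
    (hu : u ∈ MSX r s x y σ τ) : t * u ∈ MSX r s x y σ τ := by
  have h1 := Submodule.mul_mem_mul ht hu
  refine (Submodule.span_mul_span ℂ _ _ |>.le.trans ?_) h1
  rw [Submodule.span_le]
  rintro _ ⟨_, ⟨p, q, a, b, c, hc, rfl⟩, _, ⟨p', q', a', b', c', hc', rfl⟩, rfl⟩
  change mon r s x y p q a b c * mon r s x y p' q' a' b' c' ∈ _
  rw [mon_mul h]
  exact Submodule.subset_span ⟨_, _, _, _, _, hc.add hc', rfl⟩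

theorem gen_mem_MSX {σ τ : Bool} {p q : ℤ} {a b c : ℕ} {t : K} (hc : Cnd σ τ p q a b c)
    (ht : mon r s x y p q a b c = t) : t ∈ MSX r s x y σ τ :=
  ht ▸ Submodule.subset_span ⟨p, q, a, b, c, hc, rfl⟩

theorem chX_le (h : Dat r s x y) (σ τ : Bool) {t : K} (ht : t ∈ chX r s x y σ τ) :
    t ∈ SPX r s x y σ τ := by
  apply MSX_le h
  have hx := h.x_ne
  have hr := h.r_ne
  have hs := h.s_ne
  have h1 : (1 : K) ∈ MSX r s x y σ τ :=
    gen_mem_MSX (p := 0) (q := 0) (a := 0) (b := 0) (c := 0) (by cases σ <;> cases τ <;> simp [Cnd])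
      (by simp [mon])
  induction ht using Algebra.adjoin_induction with
  | mem t ht =>
    simp only [Set.mem_insert_iff, Set.mem_singleton_iff] at ht
    rcases ht with ht | ht | ht | ht
    · rw [ht]
      cases τ
      · refine gen_mem_MSX (p := 0) (q := 0) (a := 1) (b := 0) (c := 0) ?_ ?_
        · cases σ <;> simp [Cnd]
        · simp [mon]
      · refine gen_mem_MSX (p := 0) (q := -1) (a := 2) (b := 0) (c := 0) ?_ ?_
        · cases σ <;> simp [Cnd]
        · simp only [mon, zpow_zero, pow_zero, zpow_neg_one, if_true]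
          field_simp
    · rw [ht]
      cases τ
      · refine gen_mem_MSX (p := 0) (q := 0) (a := 0) (b := 1) (c := 0) ?_ ?_
        · cases σ <;> simp [Cnd]
        · simp [mon]
      · refine gen_mem_MSX (p := 0) (q := -1) (a := 0) (b := 1) (c := 0) ?_ ?_
        · cases σ <;> simp [Cnd]
        · simp only [mon, zpow_zero, pow_zero, pow_one, zpow_neg_one, if_true]
          field_simp
    · rw [ht]
      cases σ
      · refine gen_mem_MSX (p := 1) (q := 0) (a := 0) (b := 0) (c := 0) ?_ ?_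
        · cases τ <;> simp [Cnd]
        · simp [mon]
      · refine gen_mem_MSX (p := -1) (q := 0) (a := 0) (b := 0) (c := 0) ?_ ?_
        · cases τ <;> simp [Cnd]
        · simp [mon]
    · rw [ht]
      cases σ <;> cases τ
      · refine gen_mem_MSX (p := 0) (q := 0) (a := 0) (b := 0) (c := 1) ?_ ?_
        · simp [Cnd]
        · simp [mon]
      · refine gen_mem_MSX (p := 0) (q := -1) (a := 2) (b := 0) (c := 1) ?_ ?_
        · simp [Cnd]
        · simp only [mon, zpow_zero, pow_zero, pow_one, zpow_neg_one, if_true,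
            Bool.false_eq_true, if_false]
          field_simp
      · refine gen_mem_MSX (p := -2) (q := 0) (a := 0) (b := 0) (c := 1) ?_ ?_
        · simp [Cnd]
        · have e : x ^ (-2 : ℤ) = (x ^ 2)⁻¹ := by rw [zpow_neg]; norm_cast
          simp only [mon, e, zpow_zero, pow_zero, pow_one, if_true, Bool.false_eq_true, if_false]
          field_simp
      · refine gen_mem_MSX (p := -2) (q := -1) (a := 2) (b := 0) (c := 1) ?_ ?_
        · simp [Cnd]
        · have e : x ^ (-2 : ℤ) = (x ^ 2)⁻¹ := by rw [zpow_neg]; norm_cast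
          simp only [mon, e, pow_zero, pow_one, zpow_neg_one, if_true]
          field_simp
  | algebraMap c =>
    rw [Algebra.algebraMap_eq_smul_one]
    exact Submodule.smul_mem _ _ h1
  | add a b _ _ ha hb => exact Submodule.add_mem _ ha hb
  | mul a b _ _ ha hb => exact MSX_mul h ha hb

theorem rs_mem1 {S : Subalgebra ℂ K} (hr : r ≠ 0) (hs : s ≠ 0) (hE : s ^ 2 = r ^ 3 + 1)
    (hc : r / s ∈ S) (he : r⁻¹ ∈ S) (α β : ℤ) (h : 2 * α + 3 * β ≤ 0) : r ^ α * s ^ β ∈ S := by
  have hw : s ^ 2 / r ^ 3 ∈ S := by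
    have e : s ^ 2 / r ^ 3 = 1 + r⁻¹ ^ 3 := by
      rw [hE]
      field_simp
    rw [e]
    exact add_mem (one_mem _) (pow_mem he 3)
  have hu : r ^ 3 / s ^ 2 ∈ S := by
    have e : r ^ 3 / s ^ 2 = 1 - (r / s * r⁻¹) ^ 2 := by
      field_simp
      linear_combination -hE
    rw [e]
    exact sub_mem (one_mem _) (pow_mem (mul_mem hc he) 2)
  obtain ⟨n, hn⟩ : ∃ n : ℕ, (n : ℤ) = -(2 * α + 3 * β) := ⟨(-(2 * α + 3 * β)).toNat, by omega⟩
  have e : r ^ α * s ^ β = (r / s) ^ n * (r ^ 3 / s ^ 2) ^ (α + β) := by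
    obtain ⟨k, hk⟩ : ∃ k : ℤ, k = α + β := ⟨_, rfl⟩
    have e1 : α = n + 3 * k := by omega
    have e2 : β = -(n : ℤ) - 2 * k := by omega
    rw [← hk, e1, e2, zpow_add₀ hr, zpow_sub₀ hs, zpow_neg, zpow_natCast, zpow_natCast, zpow_mul,
      zpow_mul, div_zpow, div_pow]
    norm_cast
    field_simp
  rw [e]
  refine mul_mem (pow_mem hc n) ?_
  rcases le_or_gt 0 (α + β) with hk | hk
  · obtain ⟨k, hk'⟩ : ∃ k : ℕ, (k : ℤ) = α + β := ⟨(α + β).toNat, by omega⟩
    rw [← hk', zpow_natCast]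
    exact pow_mem hu k
  · obtain ⟨k, hk'⟩ : ∃ k : ℕ, (k : ℤ) = -(α + β) := ⟨(-(α + β)).toNat, by omega⟩
    have e3 : α + β = -(k : ℤ) := by omega
    rw [e3, zpow_neg, zpow_natCast, ← inv_pow, inv_div]
    exact pow_mem hw k

theorem mon_fact (hr : r ≠ 0) (hs : s ≠ 0) (hx : x ≠ 0) (σ τ : Bool) (p q : ℤ) (a b c : ℕ) :
    mon r s x y p q a b c = x ^ (p + if σ then 2 * (c : ℤ) else 0) *
      (r ^ (q + a - if τ then (c : ℤ) else 0) * s ^ (q + b + if τ then (c : ℤ) else 0)) *
      ((y * if σ then (x ^ 2)⁻¹ else 1) * if τ then r / s else 1) ^ c := by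
  have e2 : x ^ (2 * (c : ℤ)) = (x ^ 2) ^ c := by
    rw [zpow_mul, zpow_natCast]
    norm_cast
  unfold mon
  cases σ <;> cases τ
  · simp only [Bool.false_eq_true, if_false, mul_one, add_zero, sub_zero]
    rw [zpow_add₀ hr, zpow_add₀ hs, mul_zpow, zpow_natCast, zpow_natCast]
    ring
  · simp only [Bool.false_eq_true, if_false, if_true, mul_one, add_zero]
    rw [zpow_sub₀ hr, zpow_add₀ hr, zpow_add₀ hs, zpow_add₀ hs, mul_zpow, zpow_natCast,
      zpow_natCast, zpow_natCast, zpow_natCast, mul_pow, div_pow]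
    field_simp
  · simp only [Bool.false_eq_true, if_false, if_true, mul_one, add_zero, sub_zero]
    rw [zpow_add₀ hx, e2, zpow_add₀ hr, zpow_add₀ hs, mul_zpow, zpow_natCast,
      zpow_natCast, mul_pow, inv_pow]
    field_simp
  · simp only [if_true]
    rw [zpow_add₀ hx, e2, zpow_sub₀ hr, zpow_add₀ hr, zpow_add₀ hs, zpow_add₀ hs, mul_zpow,
      zpow_natCast, zpow_natCast, zpow_natCast, zpow_natCast, mul_pow, mul_pow, inv_pow, div_pow]
    field_simp

theorem zpow_mem_of_nonneg {S : Subalgebra ℂ K} {t : K} (ht : t ∈ S) {n : ℤ} (hn : 0 ≤ n) :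
    t ^ n ∈ S := by
  obtain ⟨k, rfl⟩ := Int.eq_ofNat_of_zero_le hn
  rw [zpow_natCast]
  exact pow_mem ht k

theorem zpow_mem_of_nonpos {S : Subalgebra ℂ K} {t : K} (ht : t⁻¹ ∈ S) {n : ℤ} (hn : n ≤ 0) :
    t ^ n ∈ S := by
  have h1 : 0 ≤ -n := by omega
  have e : t ^ n = t⁻¹ ^ (-n) := by rw [inv_zpow', neg_neg]
  rw [e]
  exact zpow_mem_of_nonneg ht h1

theorem mon_mem_chX (h : Dat r s x y) {σ τ : Bool} {p q : ℤ} {a b c : ℕ}
    (hc : Cnd σ τ p q a b c) : mon r s x y p q a b c ∈ chX r s x y σ τ := by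
  have hx := h.x_ne
  have hr := h.r_ne
  have hs := h.s_ne
  obtain ⟨hc1, hc2⟩ := hc
  have m1 : (if τ then r / s else r) ∈ chX r s x y σ τ := Algebra.subset_adjoin (by simp)
  have m2 : (if τ then r⁻¹ else s) ∈ chX r s x y σ τ := Algebra.subset_adjoin (by simp)
  have m3 : (if σ then x⁻¹ else x) ∈ chX r s x y σ τ := Algebra.subset_adjoin (by simp)
  have m4 : ((y * if σ then (x ^ 2)⁻¹ else 1) * if τ then r / s else 1) ∈ chX r s x y σ τ :=
    Algebra.subset_adjoin (by simp)
  rw [mon_fact hr hs hx σ τ p q a b c]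
  refine mul_mem (mul_mem ?_ ?_) (pow_mem m4 c)
  · cases σ
    · simp only [Bool.false_eq_true, if_false, add_zero] at hc1 m3 ⊢
      exact zpow_mem_of_nonneg m3 hc1
    · simp only [if_true] at hc1 m3 ⊢
      exact zpow_mem_of_nonpos m3 hc1
  · cases τ
    · simp only [Bool.false_eq_true, if_false, add_zero, sub_zero] at hc2 m1 m2 ⊢
      exact mul_mem (zpow_mem_of_nonneg m1 (by omega)) (zpow_mem_of_nonneg m2 (by omega))
    · simp only [if_true] at hc2 m1 m2 ⊢
      exact rs_mem1 hr hs h.hE m1 m2 _ _ (by omega)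

/-- **The chart rings are the spans of the monomials.** -/
theorem chX_eq (h : Dat r s x y) (σ τ : Bool) :
    Subalgebra.toSubmodule (chX r s x y σ τ) = SPX r s x y σ τ := by
  apply le_antisymm
  · intro t ht
    exact chX_le h σ τ ht
  · refine Submodule.span_le.2 ?_
    rintro _ ⟨l, p, q, ⟨h1, h2⟩, rfl⟩
    refine mon_mem_chX h (p := p) (q := q) (a := ua l.1) (b := ub l.1) (c := l.2) ⟨?_, ?_⟩
    · unfold RgX aX at h1
      cases σ
      · simpa using h1
      · simp only [if_true] at h1 ⊢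
        omega
    · unfold RgX bX at h2
      cases τ
      · simpa using h2
      · simp only [if_true] at h2 ⊢
        omega

theorem mem_chX_iff (h : Dat r s x y) (σ τ : Bool) (t : K) :
    t ∈ chX r s x y σ τ ↔ t ∈ SPX r s x y σ τ := by
  rw [← chX_eq h, Subalgebra.mem_toSubmodule]

theorem chX_ff : chX r s x y false false = chA r s x y := by
  unfold chX chA
  simp

theorem chX_tf : chX r s x y true false = chA' r s x y := by
  unfold chX chA'
  simp [div_eq_mul_inv]

theorem chX_ft : chX r s x y false true = chB r s x y := by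
  unfold chX chB
  simp [mul_div_assoc]

theorem chX_tt : chX r s x y true true = chB r s x⁻¹ (y / x ^ 2) := by
  unfold chX chB
  simp [mul_div_assoc, div_eq_mul_inv, mul_assoc]

end M21.XP
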