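import Pool.Agent.H.MP_21b43d_ag.XP.Spl1

/-!
# M21, Theorem X', existence part: the split basis, part 3: linear independence

The monomials `x^p Z^q u y^k` (`p, q ∈ ℤ`) are linearly independent over `ℂ`.
-/

open Polynomial

noncomputable section

namespace M21.XP

variable {K : Type*} [Field K] [Algebra ℂ K] {r s x y : K}

/-- `r^m s^n` in coordinates -/
def pR (m n : ℕ) : Polynomial (Polynomial ℂ) := X ^ m * pE ^ (n / 2)

theorem ev_pR (h : Dat r s x y) (m n : ℕ) : ev r x (pR m n) * s ^ (n % 2) = r ^ m * s ^ n := by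
  rw [pR, map_mul, map_pow, map_pow, ev_X, ev_pE, ← h.hE, ← pow_mul, mul_assoc, ← pow_add,
    Nat.div_add_mod]

theorem pE_monic : pE.Monic := by
  have : pE = X ^ 3 + C 1 := by rw [pE, map_one]
  rw [this]
  exact monic_X_pow_add_C 1 (by norm_num)

theorem pR_monic (m n : ℕ) : (pR m n).Monic := (monic_X_pow m).mul (pE_monic.pow _)

theorem natDegree_pR (m n : ℕ) : (pR m n).natDegree = m + 3 * (n / 2) := by
  rw [pR, (monic_X_pow m).natDegree_mul (pE_monic.pow _), natDegree_X_pow, pE_monic.natDegree_pow,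
    natDegree_pE, mul_comm]

theorem u_eq {u u' : Fin 5} {Q Q' : ℕ}
    (h : 5 * Q + 2 * ua u + 3 * ub u = 5 * Q' + 2 * ua u' + 3 * ub u') : u = u' ∧ Q = Q' := by
  have h1 : (2 * ua u + 3 * ub u) % 5 = (2 * ua u' + 3 * ub u') % 5 := by omega
  have h2 : u = u' := by
    revert h1
    clear h
    revert u u'
    decide
  subst h2
  exact ⟨rfl, by omega⟩

theorem indep_aux (h : Dat r s x y) {J : Type*} (T : Finset J) (g : J → ℂ) (u : J → Fin 5)
    (k : J → Fin 3) (P Q : J → ℕ)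
    (hinj : ∀ z ∈ T, ∀ z' ∈ T, u z = u z' → k z = k z' → P z = P z' → Q z = Q z' → z = z')
    (hsum : ∑ z ∈ T, g z • (x ^ P z * (r * s) ^ Q z *
      (r ^ ua (u z) * s ^ ub (u z) * y ^ (k z : ℕ))) = 0) :
    ∀ z ∈ T, g z = 0 := by
  classical
  -- coordinates
  let F : Fin 2 → Fin 3 → Polynomial (Polynomial ℂ) := fun i j => ∑ z ∈ T,
    if (Q z + ub (u z)) % 2 = (i : ℕ) ∧ k z = j then
      C (C (g z) * X ^ P z) * pR (Q z + ua (u z)) (Q z + ub (u z)) else 0
  have hF : el r s x y F = 0 := by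
    rw [← hsum, el]
    simp only [F, map_sum, Finset.sum_mul]
    rw [Finset.sum_congr rfl (fun i _ => Finset.sum_comm), Finset.sum_comm]
    refine Finset.sum_congr rfl fun z _ => ?_
    have hlt : (Q z + ub (u z)) % 2 < 2 := Nat.mod_lt _ (by norm_num)
    rw [Finset.sum_eq_single (⟨(Q z + ub (u z)) % 2, hlt⟩ : Fin 2), Finset.sum_eq_single (k z)]
    · rw [if_pos ⟨rfl, rfl⟩, map_mul, ev_C, map_mul, aeval_C, map_pow, aeval_X, Algebra.smul_def]
      have e := ev_pR h (Q z + ua (u z)) (Q z + ub (u z))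
      have e2 : r ^ (Q z + ua (u z)) * s ^ (Q z + ub (u z)) =
          (r * s) ^ Q z * (r ^ ua (u z) * s ^ ub (u z)) := by
        rw [pow_add, pow_add, mul_pow]
        ring
      rw [e2] at e
      linear_combination (algebraMap ℂ K (g z) * x ^ P z * y ^ (k z : ℕ)) * e
    · intro j _ hj
      rw [if_neg (fun hh => hj hh.2.symm)]
      simp
    · intro hh
      exact absurd (Finset.mem_univ _) hh
    · intro i _ hi
      refine Finset.sum_eq_zero fun j _ => ?_
      rw [if_neg (fun hh => hi (Fin.ext hh.1.symm))]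
      simp
    · intro hh
      exact absurd (Finset.mem_univ _) hh
  have hF0 := h.indep hF
  by_contra hcon
  push Not at hcon
  obtain ⟨z1, hz1, hg1⟩ := hcon
  -- an index of maximal weight
  let w : J → ℕ := fun z => 5 * Q z + 2 * ua (u z) + 3 * ub (u z)
  obtain ⟨z0, hz0, hmax⟩ := (T.filter fun z => g z ≠ 0).exists_max_image w
    ⟨z1, Finset.mem_filter.2 ⟨hz1, hg1⟩⟩
  rw [Finset.mem_filter] at hz0
  obtain ⟨hz0T, hg0⟩ := hz0
  have hlt : (Q z0 + ub (u z0)) % 2 < 2 := Nat.mod_lt _ (by norm_num)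
  have h1 : ((F ⟨(Q z0 + ub (u z0)) % 2, hlt⟩ (k z0)).coeff
      (Q z0 + ua (u z0) + 3 * ((Q z0 + ub (u z0)) / 2))).coeff (P z0) = 0 := by
    rw [hF0]
    simp
  simp only [F, finsetSum_coeff] at h1
  rw [Finset.sum_eq_single z0] at h1
  · rw [if_pos ⟨rfl, rfl⟩, coeff_C_mul, ← natDegree_pR, (pR_monic _ _).coeff_natDegree, mul_one,
      coeff_C_mul, coeff_X_pow_self, mul_one] at h1
    exact hg0 h1
  · intro z hz hne
    by_cases hg : g z = 0
    · rw [hg]
      simp
    split_ifs with hc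
    · rw [coeff_C_mul]
      have hw : w z ≤ w z0 := hmax z (Finset.mem_filter.2 ⟨hz, hg⟩)
      simp only [w] at hw
      rcases hw.lt_or_eq with hlt' | heq
      · have hdeg : (pR (Q z + ua (u z)) (Q z + ub (u z))).natDegree <
            Q z0 + ua (u z0) + 3 * ((Q z0 + ub (u z0)) / 2) := by
          rw [natDegree_pR]
          have := hc.1
          omega
        rw [coeff_eq_zero_of_natDegree_lt hdeg]
        simp
      · obtain ⟨hu, hQ⟩ := u_eq heq
        have hP : P z ≠ P z0 := fun hP => hne (hinj z hz z0 hz0T hu hc.2 hP hQ)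
        rw [hu, hQ, ← natDegree_pR, (pR_monic _ _).coeff_natDegree, mul_one, coeff_C_mul,
          coeff_X_pow, if_neg (Ne.symm hP), mul_zero]
    · simp
  · intro hh
    exact absurd hz0T hh

/-- **The monomials are linearly independent.** -/
theorem linInd_eX (h : Dat r s x y) : LinearIndependent ℂ
    (fun z : (Fin 5 × Fin 3) × ℤ × ℤ => x ^ z.2.1 * (r * s) ^ z.2.2 * eX r s y z.1) := by
  classical
  rw [linearIndependent_iff']
  intro T g hg
  have hx := h.x_ne
  have hZ : r * s ≠ 0 := mul_ne_zero h.r_ne h.s_ne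
  obtain ⟨N, hN⟩ : ∃ N : ℕ, ∀ z ∈ T, 0 ≤ z.2.1 + N ∧ 0 ≤ z.2.2 + N := by
    refine ⟨∑ z ∈ T, (z.2.1.natAbs + z.2.2.natAbs), fun z hz => ?_⟩
    have h1 : z.2.1.natAbs + z.2.2.natAbs ≤ ∑ z ∈ T, (z.2.1.natAbs + z.2.2.natAbs) :=
      Finset.single_le_sum (f := fun z : (Fin 5 × Fin 3) × ℤ × ℤ => z.2.1.natAbs + z.2.2.natAbs)
        (fun _ _ => Nat.zero_le _) hz
    generalize (∑ z ∈ T, (z.2.1.natAbs + z.2.2.natAbs)) = M at h1
    omega
  refine indep_aux h T g (fun z => z.1.1) (fun z => z.1.2) (fun z => (z.2.1 + N).toNat)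
    (fun z => (z.2.2 + N).toNat) ?_ ?_
  · intro z hz z' hz' h1 h2 h3 h4
    have e1 := hN z hz
    have e2 := hN z' hz'
    refine Prod.ext (Prod.ext h1 h2) (Prod.ext ?_ ?_)
    · omega
    · omega
  · have h1 : (x ^ N * (r * s) ^ N) * ∑ z ∈ T, g z • (x ^ z.2.1 * (r * s) ^ z.2.2 * eX r s y z.1)
        = 0 := by rw [hg, mul_zero]
    rw [Finset.mul_sum] at h1
    rw [← h1]
    refine Finset.sum_congr rfl fun z hz => ?_
    have e := hN z hz
    have e1 : x ^ (z.2.1 + N).toNat = x ^ z.2.1 * x ^ N := by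
      rw [← zpow_natCast x, Int.toNat_of_nonneg e.1, zpow_add₀ hx, zpow_natCast]
    have e2 : (r * s) ^ (z.2.2 + N).toNat = (r * s) ^ z.2.2 * (r * s) ^ N := by
      rw [← zpow_natCast (r * s), Int.toNat_of_nonneg e.2, zpow_add₀ hZ, zpow_natCast]
    rw [e1, e2, mul_smul_comm]
    congr 1
    unfold eX
    ring

end M21.XP
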