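import Pool.Agent.H.MP_21b43d_ag.XP.Emb2
import Pool.Agent.H.MP_21b43d_ag.XP.Spl2
import Pool.Agent.H.MP_21b43d_ag.XP.Spl3
import Pool.Agent.H.MP_21b43d_ag.E3.Q.Grid

/-!
# M21, Theorem X', existence part: the grid and the split structure sheaf of the second surface

`B = x`, `Z = r s`; the charts are `D₊(1)`, `D₊(x²)`, `D₊(r s)`, `D₊(r s x²)`.
-/

set_option autoImplicit false

open CategoryTheory CategoryTheory.Limits AlgebraicGeometry TopologicalSpace MvPolynomial

noncomputable section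

namespace M21.XP

open M21X M21.E3

variable {K : Type} [Field K] [Algebra ℂ K] {q : Qd K}

/-- Linear independence of the monomials gives algebraic independence. -/
theorem ai_of_li {b z : K} (h : LinearIndependent ℂ (fun m : ℕ × ℕ => b ^ m.1 * z ^ m.2)) :
    AlgebraicIndependent ℂ ![b, z] := by
  rw [algebraicIndependent_iff]
  intro p hp
  have h1 : aeval ![b, z] p = ∑ m ∈ p.support, p.coeff m • (b ^ m 0 * z ^ m 1) := by
    rw [aeval_def, eval₂_eq']
    refine Finset.sum_congr rfl fun m _ => ?_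
    rw [Fin.prod_univ_two, Algebra.smul_def]
    rfl
  rw [h1] at hp
  have hinj : Function.Injective (fun m : Fin 2 →₀ ℕ => (m 0, m 1)) := by
    intro m m' hm
    ext i
    fin_cases i
    · exact congrArg Prod.fst hm
    · exact congrArg Prod.snd hm
  have h2 := h.comp _ hinj
  rw [linearIndependent_iff'] at h2
  ext m
  by_cases hm : m ∈ p.support
  · rw [h2 p.support (fun m => p.coeff m) hp m hm, coeff_zero]
  · rw [notMem_support_iff.1 hm, coeff_zero]

namespace Qd

theorem Good.dat (h : q.Good) : Dat q.r q.s q.x q.y := Dat.mk' h.ai h.hE h.hS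

/-- `x` and `r s` are algebraically independent. -/
theorem Good.ai2 (h : q.Good) : AlgebraicIndependent ℂ ![q.x, q.r * q.s] := by
  refine ai_of_li ?_
  have h1 := linInd_eX h.dat
  have h2 := h1.comp (fun m : ℕ × ℕ => (((0 : Fin 5), (0 : Fin 3)), (m.1 : ℤ), (m.2 : ℤ))) (by
    intro m m' hm
    simp only [Prod.mk.injEq, Nat.cast_inj, true_and] at hm
    exact Prod.ext hm.1 hm.2)
  convert! h2 using 1
  ext m
  simp [eX, ua, ub]

/-- the number of the chart `s, t` -/
def ix4 (s t : Bool) : Fin 4 := if s then (if t then 3 else 1) else (if t then 2 else 0)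

theorem ix4_surj (i : Fin 4) : ∃ s t, ix4 s t = i := by
  fin_cases i
  · exact ⟨false, false, rfl⟩
  · exact ⟨true, false, rfl⟩
  · exact ⟨false, true, rfl⟩
  · exact ⟨true, true, rfl⟩

theorem rg_ix4 (q : Qd K) (s t : Bool) : q.rg (ix4 s t) = chX q.r q.s q.x q.y s t := by
  cases s <;> cases t
  · exact chX_ff.symm
  · exact chX_ft.symm
  · exact chX_tf.symm
  · exact chX_tt.symm

omit [Algebra ℂ K] in
theorem vec_ix4 (q : Qd K) (s t : Bool) : q.vec (idx (ix4 s t)) =
    (if s then q.x ^ 2 else 1) * (if t then q.r * q.s else 1) := by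
  cases s <;> cases t <;> simp [ix4, idx, vec, mul_comm]

theorem Good.mem_RR (h : q.Good) (s t : Bool) (a : K) :
    a ∈ RR (N := 13) q.vec (X (idx (ix4 s t))) (h.idx_ne (ix4 s t)) ↔
      a ∈ SPX q.r q.s q.x q.y s t := by
  rw [h.RR_idx, ← mem_chX_iff h.dat, ← rg_ix4]
  rfl

/-- **The grid.** -/
def Good.grid (h : q.Good) : Grid (N := 13) q.vec q.vec0_ne where
  d := 1
  f s t := X (idx (ix4 s t))
  d_pos := one_pos
  hf s t := X_mem 13 _
  ne s t := h.idx_ne (ix4 s t)
  B := q.x
  Z := q.r * q.s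
  m := 2
  n := 1
  m_pos := two_pos
  n_pos := one_pos
  hB t := by
    rw [aeval_X, aeval_X, vec_ix4, vec_ix4]
    simp
  hZ s := by
    rw [aeval_X, aeval_X, vec_ix4, vec_ix4]
    simp [mul_comm]
  memB s t := by
    rw [h.mem_RR]
    refine Submodule.subset_span ⟨(0, 0), BiP.sg s, 0, ⟨?_, ?_⟩, ?_⟩
    · cases s <;> simp [RgX, aX, BiP.sg]
    · cases t <;> simp [RgX, bX, ua, ub]
    · simp [eX, ua, ub]
  memZ s t := by
    rw [h.mem_RR]
    refine Submodule.subset_span ⟨(0, 0), 0, BiP.sg t, ⟨?_, ?_⟩, ?_⟩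
    · cases s <;> simp [RgX, aX]
    · cases t <;> simp [RgX, bX, ua, ub, BiP.sg]
    · simp [eX, ua, ub]
  cover y := by
    obtain ⟨i, hi⟩ := h.ch_cover y
    obtain ⟨s, t, rfl⟩ := ix4_surj i
    rw [h.ch_opensRange] at hi
    exact ⟨s, t, hi⟩

theorem Good.grid_B (h : q.Good) : h.grid.B = q.x := rfl
theorem Good.grid_Z (h : q.Good) : h.grid.Z = q.r * q.s := rfl

theorem Good.grid_ai (h : q.Good) : AlgebraicIndependent ℂ ![h.grid.B, h.grid.Z] := h.ai2

/-- **The split structure sheaf of the second surface.** -/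
def Good.splitK (h : q.Good) : SplitK h.grid (Fin 5 × Fin 3) where
  e := eX q.r q.s q.y
  a := aX
  b := bX
  indep := linInd_eX h.dat
  secs s t a := h.mem_RR s t a

end Qd

end M21.XP
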