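import Pool.Agent.H.MP_21b43d_ag.XP.Wt2

/-!
# M21, Theorem X': conditions at the charts

`A = ℂ[r,s,x,y]`, `A' = ℂ[r,s,1/x,y/x^2]`, `B = ℂ[r/s,1/r,x,yr/s]`.
* `wt_inf`: `t ∈ A`, `t/x^k ∈ A'`: the coordinates `P_ij` satisfy `deg_x P_ij + 2 j ≤ k`;
* `wt_P0`: `t ∈ A`, `t/r^k ∈ B`: `2 deg_r P_ij + 3 i + j ≤ 2 k`;
* `mem_E_of_inf`: `A ∩ A' = ℂ[r,s]`;
* `not_split`: `s/r` is not `g0 - g1` with `g0 ∈ A`, `g1 ∈ B`.
-/

open Polynomial

noncomputable section

namespace M21.XP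

variable {K : Type*} [Field K] [Algebra ℂ K] {r s x y : K}

/-- the chart `A` -/
def chA (r s x y : K) : Subalgebra ℂ K := Algebra.adjoin ℂ {r, s, x, y}

/-- the chart `A'` -/
def chA' (r s x y : K) : Subalgebra ℂ K := Algebra.adjoin ℂ {r, s, x⁻¹, y / x ^ 2}

/-- the chart `B` -/
def chB (r s x y : K) : Subalgebra ℂ K := Algebra.adjoin ℂ {r / s, r⁻¹, x, y * r / s}

/-- weights for the pole order along `x = ∞` -/
def wInf : Wgt := ⟨1, 0, 0, 2, by norm_num, by norm_num⟩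

/-- weights for the pole order along the fibre of `P0` -/
def wP0 : Wgt := ⟨0, 2, 3, 1, by norm_num, by norm_num⟩

/-- trivial weights -/
def wTriv : Wgt := ⟨0, 0, 0, 0, by norm_num, by norm_num⟩

theorem Dat.x_ne (h : Dat r s x y) : x ≠ 0 := by
  intro h0
  have h1 : ev r x (C X) = ev r x 0 := by rw [ev_CX, h0, map_zero]
  have h2 := h.inj h1
  rw [← map_zero C] at h2
  exact X_ne_zero (C_injective h2)

theorem Dat.r_ne (h : Dat r s x y) : r ≠ 0 := by
  intro h0
  have h1 : ev r x X = ev r x 0 := by rw [ev_X, h0, map_zero]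
  exact X_ne_zero (h.inj h1)

theorem Dat.s_ne (h : Dat r s x y) : s ≠ 0 := by
  intro h0
  have h1 : ev r x 0 + ev r x 1 * s = 0 := by rw [h0]; simp
  exact one_ne_zero (h.ind2 h1).2

theorem exists_el (h : Dat r s x y) {t : K} (ht : t ∈ chA r s x y) : ∃ P, t = el r s x y P := by
  obtain ⟨N, hN⟩ := mem_of_adjoin (w := wTriv) (r := r) (s := s) (x := x) (y := y) (D := 1)
    (d := 0) Fil_one (S := {r, s, x, y}) (by
      rintro t (rfl | rfl | rfl | rfl)
      · exact ⟨0, by rw [pow_zero, one_mul]; exact Fil_r⟩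
      · exact ⟨0, by rw [pow_zero, one_mul]; exact Fil_s⟩
      · exact ⟨0, by rw [pow_zero, one_mul]; exact Fil_x⟩
      · exact ⟨0, by rw [pow_zero, one_mul]; exact Fil_y⟩) ht
  rw [one_pow, one_mul] at hN
  obtain ⟨P, hP, -⟩ := rep_of_mem_Fil h hN
  exact ⟨P, hP⟩

theorem wt_inf (h : Dat r s x y) {P : Fin 2 → Fin 3 → Polynomial (Polynomial ℂ)} {k : ℕ}
    (ht : el r s x y P / x ^ k ∈ chA' r s x y) (i : Fin 2) (j : Fin 3) (n a : ℕ)
    (hc : ((P i j).coeff n).coeff a ≠ 0) : a + 2 * (j : ℕ) ≤ k := by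
  have hx := h.x_ne
  have hxF : x ∈ Fil wInf r s x y 1 := Fil_x
  obtain ⟨N, hN⟩ := mem_of_adjoin (w := wInf) (r := r) (s := s) (x := x) (y := y) (D := x)
    (d := 1) hxF (S := {r, s, x⁻¹, y / x ^ 2}) (by
      rintro t (rfl | rfl | rfl | rfl)
      · exact ⟨0, by rw [pow_zero, one_mul]; exact Fil_r⟩
      · exact ⟨0, by rw [pow_zero, one_mul]; exact Fil_s⟩
      · refine ⟨1, ?_⟩
        rw [pow_one, mul_inv_cancel₀ hx]
        exact Fil_mono (Nat.zero_le _) Fil_one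
      · refine ⟨2, ?_⟩
        rw [mul_div_cancel₀ _ (pow_ne_zero 2 hx)]
        exact Fil_y) ht
  have hN' : x ^ N * el r s x y P ∈ Fil wInf r s x y (k * 1 + N * 1) := by
    have h1 := Fil_mul (Fil_pow hxF k) hN
    have e : x ^ k * (x ^ N * (el r s x y P / x ^ k)) = x ^ N * el r s x y P := by
      field_simp
    rwa [e] at h1
  obtain ⟨P', hP', hB⟩ := rep_of_mem_Fil h hN'
  have e1 : (fun i j => C (X ^ N) * P i j) = P' := by
    apply h.el_inj
    rw [el_mul, ← hP', ev_C, map_pow, aeval_X]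
  have h2 := hB i j n (a + N) (by
    rw [← e1, coeff_C_mul, coeff_X_pow_mul]
    exact hc)
  simp only [wInf] at h2
  omega

theorem wt_P0 (h : Dat r s x y) {P : Fin 2 → Fin 3 → Polynomial (Polynomial ℂ)} {k : ℕ}
    (ht : el r s x y P / r ^ k ∈ chB r s x y) (i : Fin 2) (j : Fin 3) (n : ℕ)
    (hc : (P i j).coeff n ≠ 0) : 2 * n + 3 * (i : ℕ) + (j : ℕ) ≤ 2 * k := by
  have hr := h.r_ne
  have hs := h.s_ne
  have hrF : r ∈ Fil wP0 r s x y 2 := Fil_r
  have hsF : s ∈ Fil wP0 r s x y 3 := Fil_s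
  have hDF : r * s ^ 2 ∈ Fil wP0 r s x y 8 := by
    have h1 := Fil_mul hrF (Fil_pow hsF 2)
    exact h1
  obtain ⟨N, hN⟩ := mem_of_adjoin (w := wP0) (r := r) (s := s) (x := x) (y := y)
    (D := r * s ^ 2) (d := 8) hDF (S := {r / s, r⁻¹, x, y * r / s}) (by
      rintro t (rfl | rfl | rfl | rfl)
      · refine ⟨1, ?_⟩
        have e : (r * s ^ 2) ^ 1 * (r / s) = x ^ 0 * r ^ 2 * s ^ 1 * y ^ 0 := by
          field_simp
        rw [e]
        exact mem_Fil 0 2 1 0 (by simp [wP0])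
      · refine ⟨1, ?_⟩
        have e : (r * s ^ 2) ^ 1 * r⁻¹ = x ^ 0 * r ^ 0 * s ^ 2 * y ^ 0 := by
          field_simp
        rw [e]
        exact mem_Fil 0 0 2 0 (by simp [wP0])
      · exact ⟨0, by rw [pow_zero, one_mul]; exact Fil_x⟩
      · refine ⟨1, ?_⟩
        have e : (r * s ^ 2) ^ 1 * (y * r / s) = x ^ 0 * r ^ 2 * s ^ 1 * y ^ 1 := by
          field_simp
        rw [e]
        exact mem_Fil 0 2 1 1 (by simp [wP0])) ht
  have hN' : (r * s ^ 2) ^ N * el r s x y P ∈ Fil wP0 r s x y (k * 2 + N * 8) := by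
    have h1 := Fil_mul (Fil_pow hrF k) hN
    have e : r ^ k * ((r * s ^ 2) ^ N * (el r s x y P / r ^ k)) =
        (r * s ^ 2) ^ N * el r s x y P := by
      field_simp
    rwa [e] at h1
  obtain ⟨P', hP', hB⟩ := rep_of_mem_Fil h hN'
  have e1 : (fun i j => (X * pE) ^ N * P i j) = P' := by
    apply h.el_inj
    rw [el_mul, ← hP', map_pow, map_mul, ev_X, ev_pE, h.hE]
  have hP0 : P i j ≠ 0 := by
    intro h0
    rw [h0] at hc
    simp at hc
  have hE0 : pE ≠ 0 := by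
    intro h0
    have := natDegree_pE
    rw [h0] at this
    simp at this
  have hD0 : (X * pE : Polynomial (Polynomial ℂ)) ^ N ≠ 0 :=
    pow_ne_zero _ (mul_ne_zero X_ne_zero hE0)
  have hdeg : ((X * pE) ^ N * P i j).natDegree = N * 4 + (P i j).natDegree := by
    rw [natDegree_mul hD0 hP0, natDegree_pow, natDegree_mul X_ne_zero hE0, natDegree_pE,
      natDegree_X]
  generalize hQ : (X * pE) ^ N * P i j = Q at hdeg
  have hQ0 : Q ≠ 0 := by
    rw [← hQ]
    exact mul_ne_zero hD0 hP0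
  have hQ' : P' i j = Q := by
    rw [← e1, ← hQ]
  have hlead : Q.coeff (N * 4 + (P i j).natDegree) ≠ 0 := by
    rw [← hdeg]
    exact leadingCoeff_ne_zero.2 hQ0
  obtain ⟨a, ha⟩ : ∃ a, (Q.coeff (N * 4 + (P i j).natDegree)).coeff a ≠ 0 := by
    by_contra hcon
    push Not at hcon
    exact hlead (Polynomial.ext (by simpa using hcon))
  have h2 := hB i j (N * 4 + (P i j).natDegree) a (by rw [hQ']; exact ha)
  have h3 : n ≤ (P i j).natDegree := le_natDegree_of_ne_zero hc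
  simp only [wP0] at h2
  omega

/-- `A ∩ A' = ℂ[r,s]` -/
theorem mem_E_of_inf (h : Dat r s x y) {t : K} (ht : t ∈ chA r s x y) (ht' : t ∈ chA' r s x y) :
    ∃ p q : Polynomial ℂ, t = aeval r p + aeval r q * s := by
  obtain ⟨P, rfl⟩ := exists_el h ht
  have h1 := wt_inf h (P := P) (k := 0) (by rw [pow_zero, div_one]; exact ht')
  have h2 : ∀ i (j : Fin 3), (j : ℕ) ≠ 0 → P i j = 0 := by
    intro i j hj
    ext n a
    rw [coeff_zero, coeff_zero]
    by_contra hc
    have := h1 i j n a hc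
    omega
  have h3 : ∀ i, P i 0 = ((P i 0).map (evalRingHom 0)).map C := by
    intro i
    ext n a
    rw [coeff_map, coeff_map, coe_evalRingHom, coeff_C]
    split_ifs with ha
    · rw [ha, coeff_zero_eq_eval_zero]
    · by_contra hc
      have := h1 i 0 n a hc
      simp at this
      exact ha this
  have h4 : ∀ p : Polynomial ℂ, ev r x (p.map C) = aeval r p := by
    intro p
    rw [ev, coe_eval₂RingHom, eval₂_map]
    rw [aeval_def]
    congr 1
    ext c
    simp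
  refine ⟨(P 0 0).map (evalRingHom 0), (P 1 0).map (evalRingHom 0), ?_⟩
  rw [← h4, ← h4, ← h3, ← h3, el_eq, h2 0 1 (by simp), h2 1 1 (by simp), h2 0 2 (by simp),
    h2 1 2 (by simp)]
  simp

/-- `s/r` is not in `A + B`: the class of `s/r` is not zero in `H^1(O)` -/
theorem not_split (h : Dat r s x y) {g0 g1 : K} (h0 : g0 ∈ chA r s x y)
    (h1 : g1 ∈ chB r s x y) : s / r ≠ g0 - g1 := by
  intro he
  have hr := h.r_ne
  obtain ⟨P, rfl⟩ := exists_el h h0
  have e1 : el r s x y (fun i j => X * P i j - if i = 1 ∧ j = 0 then 1 else 0) / r ^ 1 = g1 := by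
    have e2 : el r s x y (fun i j => X * P i j - if i = 1 ∧ j = 0 then 1 else 0)
        = r * el r s x y P - s := by
      rw [el_eq, el_eq]
      simp only [map_sub, map_mul, ev_X]
      simp
      ring
    rw [e2, pow_one, sub_div, mul_div_cancel_left₀ _ hr, he]
    ring
  have h2 := wt_P0 h (k := 1) (by rw [e1]; exact h1) 1 0 0 (by
    simp)
  simp at h2

end M21.XP
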