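import Pool.Agent.H.MP_21b43d_ag.XP.Sm3
import Pool.Agent.H.MP_21b43d_ag.XP.Wt3
import Pool.Agent.H.MP_21b43d_ag.T.Open
import Pool.Agent.H.MP_21b43d_ag.X.Alb6

/-!
# M6 / Theorem X': `H¹(𝒪) ≠ 0`

A Čech cocycle with values in the structure sheaf which is not a coboundary gives a nonzero
morphism `𝒪 ⟶ 𝒪⟦1⟧` in the derived category.
-/

set_option autoImplicit false
set_option linter.all false

open CategoryTheory CategoryTheory.Limits AlgebraicGeometry TopologicalSpace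
open CategoryTheory.Pretriangulated

namespace M21.XP

open M21X

noncomputable section

variable {X : Scheme.{0}} {ι : Type} {U : ι → X.Opens}

/-- The structure sheaf. -/
def OO (X : Scheme.{0}) : X.Modules := SheafOfModules.unit X.ringCatSheaf

/-- Functions as sections of the structure sheaf. -/
def toOO {V : X.Opens} (r : Γ(X, V)) : Γ(OO X, V) := r

/-- Sections of the structure sheaf as functions. -/
def ofOO {V : X.Opens} (r : Γ(OO X, V)) : Γ(X, V) := r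

theorem ofOO_res {V W : X.Opens} (h : W ≤ V) (r : Γ(OO X, V)) :
    ofOO (res (OO X) h r) = resF h (ofOO r) := rfl

theorem ofOO_sub {V : X.Opens} (r s : Γ(OO X, V)) : ofOO (r - s) = ofOO r - ofOO s := rfl

theorem smul_one_OO {V : X.Opens} (r : Γ(X, V)) : ofOO (r • toOO (1 : Γ(X, V))) = r :=
  mul_one r

theorem res_one_OO {V W : X.Opens} (h : W ≤ V) :
    res (OO X) h (toOO (1 : Γ(X, V))) = toOO (1 : Γ(X, W)) :=
  map_one (X.presheaf.map (homOfLE h).op).hom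

/-- If the cocycle `c` splits on the structure sheaf, it is a coboundary. -/
theorem coboundary_of_splits (c : Cocycle U) (h : Splits c (OO X)) :
    ∃ a : ∀ i, Γ(X, U i), ∀ i k,
      resF (inf_le_left : U i ⊓ U k ≤ U i) (a i) - resF (inf_le_right : U i ⊓ U k ≤ U k) (a k) =
        c.c i k := by
  obtain ⟨α, hα⟩ := h
  refine ⟨fun i => ofOO ((α i).f (U i) le_rfl (toOO 1)), fun i k => ?_⟩
  have h1 := hα i k (U i ⊓ U k) inf_le_left inf_le_right (toOO 1)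
  have h2 := (α i).res (U i) (U i ⊓ U k) le_rfl inf_le_left (toOO 1)
  have h3 := (α k).res (U k) (U i ⊓ U k) le_rfl inf_le_right (toOO 1)
  rw [res_one_OO] at h2 h3
  rw [← ofOO_res, ← ofOO_res, ← ofOO_sub, ← h2, ← h3]
  refine (congrArg ofOO h1).trans ?_
  rw [smul_one_OO]
  have : (resF (le_inf inf_le_left inf_le_right : U i ⊓ U k ≤ U i ⊓ U k) (c.c i k)) = c.c i k := by
    show X.presheaf.map (homOfLE (le_refl _)).op _ = _
    have e : (homOfLE (le_refl (U i ⊓ U k))).op = 𝟙 _ := rfl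
    rw [e, CategoryTheory.Functor.map_id]
    rfl
  exact this

/-- A cocycle which is not a coboundary shows that the surface is irregular. -/
theorem irregular_of_cocycle (hU : ∀ x : X, ∃ i, x ∈ U i) (c : Cocycle U)
    (h : ¬ Splits c (OO X)) : IrregularSurface X := by
  refine ⟨(tcExt c hU).cc.app ((DerivedCategory.singleFunctor X.Modules 0).obj (OO X)), ?_⟩
  intro h0
  apply h
  obtain ⟨s, hs⟩ := (tcExt c hU).section_of_cc_zero _ h0 0
  have h1 := splits_of_section c _ s hs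
  exact Splits.of_iso c
    ((DerivedCategory.singleFunctorCompHomologyFunctorIso X.Modules 0).app (OO X)) h1

section charts

variable [IsIntegral X] {K : Type} [Field K] [Algebra ℂ K] (xi : Spec (.of K) ⟶ X) [IsDominant xi]
  (R : ι → Subalgebra ℂ K) (j : ∀ i, Spec (.of (R i)) ⟶ X) [∀ i, IsOpenImmersion (j i)]
  (hj : ∀ i, Spec.map (CommRingCat.ofHom (algebraMap (R i) K)) ≫ j i = xi)

include hj in
theorem le_xi (i : ι) : ⊤ ≤ xi ⁻¹ᵁ ((j i) ''ᵁ ⊤) := by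
  intro p _
  refine ⟨Spec.map (CommRingCat.ofHom (algebraMap (R i) K)) p, trivial, ?_⟩
  rw [← hj i]
  rfl

include hj in
theorem le_xi2 (i k : ι) : ⊤ ≤ xi ⁻¹ᵁ ((j i) ''ᵁ ⊤ ⊓ (j k) ''ᵁ ⊤) := fun p hp =>
  ⟨le_xi xi R j hj i hp, le_xi xi R j hj k hp⟩

/-- The value of a section on a chart lies in the chart ring. -/
theorem sec_mem (i : ι) (s : Γ(X, (j i) ''ᵁ ⊤)) :
    secV ((j i) ''ᵁ ⊤) xi (le_xi xi R j hj i) s ∈ R i := by
  have hW : ⊤ ≤ (j i) ⁻¹ᵁ ((j i) ''ᵁ ⊤) := fun p _ => ⟨p, trivial, rfl⟩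
  rw [secV_fac ((j i) ''ᵁ ⊤) (algebraMap (R i) K) (hj i).symm hW (le_xi xi R j hj i)]
  exact (secV ((j i) ''ᵁ ⊤) (j i) hW s).2

/-- Elements of the chart ring are values of sections. -/
theorem exists_sec (i : ι) (a : K) (ha : a ∈ R i) :
    ∃ s : Γ(X, (j i) ''ᵁ ⊤), secV ((j i) ''ᵁ ⊤) xi (le_xi xi R j hj i) s = a := by
  have hW : ⊤ ≤ (j i) ⁻¹ᵁ ((j i) ''ᵁ ⊤) := fun p _ => ⟨p, trivial, rfl⟩
  obtain ⟨s, hs⟩ := secV_surj' (j i) hW ⟨a, ha⟩
  refine ⟨s, ?_⟩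
  rw [secV_fac ((j i) ''ᵁ ⊤) (algebraMap (R i) K) (hj i).symm hW (le_xi xi R j hj i)]
  rw [RingHom.comp_apply, hs]
  rfl

/-- **Irregularity from the charts.** `g i ∈ K` with `g i - g k` regular on `U i ∩ U k`, such that
there are no `a i ∈ R i` with the same differences. -/
theorem irregular_of_charts (hc : ∀ x, ∃ i, x ∈ (j i).opensRange) (g : ι → K)
    (hg : ∀ i k, ∃ f : Γ(X, (j i) ''ᵁ ⊤ ⊓ (j k) ''ᵁ ⊤),
      secV _ xi (le_xi2 xi R j hj i k) f = g i - g k)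
    (hn : ∀ a : ι → K, (∀ i, a i ∈ R i) → (∀ i k, a i - a k = g i - g k) → False) :
    IrregularSurface X := by
  choose f hf using hg
  let c : Cocycle (fun i => (j i) ''ᵁ ⊤) :=
    { c := f
      add := by
        intro i k l V h1 h2 h3
        have hx : ⊤ ≤ xi ⁻¹ᵁ (((j i) ''ᵁ ⊤ ⊓ (j k) ''ᵁ ⊤) ⊓ (j l) ''ᵁ ⊤) := fun p hp =>
          ⟨le_xi2 xi R j hj i k hp, le_xi xi R j hj l hp⟩
        have h4 : resF (inf_le_left : ((j i) ''ᵁ ⊤ ⊓ (j k) ''ᵁ ⊤) ⊓ (j l) ''ᵁ ⊤ ≤ _) (f i k) +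
            resF (le_inf (inf_le_left.trans inf_le_right) inf_le_right :
              ((j i) ''ᵁ ⊤ ⊓ (j k) ''ᵁ ⊤) ⊓ (j l) ''ᵁ ⊤ ≤ _) (f k l) =
            resF (le_inf (inf_le_left.trans inf_le_left) inf_le_right :
              ((j i) ''ᵁ ⊤ ⊓ (j k) ''ᵁ ⊤) ⊓ (j l) ''ᵁ ⊤ ≤ _) (f i l) := by
          apply secV_inj xi hx
          rw [map_add]
          rw [secV_res xi _ hx (le_xi2 xi R j hj i k), secV_res xi _ hx (le_xi2 xi R j hj k l),
            secV_res xi _ hx (le_xi2 xi R j hj i l), hf, hf, hf]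
          ring
        have h5 := congrArg (resF (le_inf h1 (h2.trans inf_le_right) :
          V ≤ ((j i) ''ᵁ ⊤ ⊓ (j k) ''ᵁ ⊤) ⊓ (j l) ''ᵁ ⊤)) h4
        have h6 : ∀ a b : Γ(X, ((j i) ''ᵁ ⊤ ⊓ (j k) ''ᵁ ⊤) ⊓ (j l) ''ᵁ ⊤),
            resF (le_inf h1 (h2.trans inf_le_right) :
              V ≤ ((j i) ''ᵁ ⊤ ⊓ (j k) ''ᵁ ⊤) ⊓ (j l) ''ᵁ ⊤) (a + b) =
            resF _ a + resF _ b := fun a b => map_add _ a b
        rw [h6, resF_resF, resF_resF, resF_resF] at h5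
        exact h5 }
  refine irregular_of_cocycle (fun x => ?_) c fun hs => ?_
  · obtain ⟨i, hi⟩ := hc x
    refine ⟨i, ?_⟩
    show x ∈ (j i) ''ᵁ ⊤
    rw [Scheme.Hom.image_top_eq_opensRange]
    exact hi
  · obtain ⟨a, ha⟩ := coboundary_of_splits c hs
    refine hn (fun i => secV _ xi (le_xi xi R j hj i) (a i))
      (fun i => sec_mem xi R j hj i (a i)) fun i k => ?_
    have h1 := congrArg (secV _ xi (le_xi2 xi R j hj i k)) (ha i k)
    rw [map_sub, secV_res xi _ (le_xi2 xi R j hj i k) (le_xi xi R j hj i),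
      secV_res xi _ (le_xi2 xi R j hj i k) (le_xi xi R j hj k)] at h1
    rw [h1]
    exact hf i k

/-- Products of elements of two chart rings are regular on the intersection. -/
theorem exists_mul (i k : ι) (a b : K) (ha : a ∈ R i) (hb : b ∈ R k) :
    ∃ f : Γ(X, (j i) ''ᵁ ⊤ ⊓ (j k) ''ᵁ ⊤), secV _ xi (le_xi2 xi R j hj i k) f = a * b := by
  obtain ⟨s, hs⟩ := exists_sec xi R j hj i a ha
  obtain ⟨t, ht⟩ := exists_sec xi R j hj k b hb
  refine ⟨resF inf_le_left s * resF inf_le_right t, ?_⟩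
  rw [map_mul, secV_res xi _ (le_xi2 xi R j hj i k) (le_xi xi R j hj i),
    secV_res xi _ (le_xi2 xi R j hj i k) (le_xi xi R j hj k), hs, ht]

end charts

namespace Qd

variable {K : Type} [Field K] [Algebra ℂ K] {q : Qd K} (h : q.Good)

include h in
/-- **The surface is irregular.** -/
theorem Good.irregular : IrregularSurface q.XX := by
  have hs0 : q.s ∈ q.rg 0 := Algebra.subset_adjoin (by simp)
  have hs1 : q.s ∈ q.rg 1 := Algebra.subset_adjoin (by simp [Qd.flip])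
  have hr2 : q.r⁻¹ ∈ q.rg 2 := Algebra.subset_adjoin (by simp)
  have hr3 : q.r⁻¹ ∈ q.rg 3 := Algebra.subset_adjoin (by simp [Qd.flip])
  refine irregular_of_charts q.pt q.rg h.ch h.ch_pt h.ch_cover
    ![q.s / q.r, q.s / q.r, 0, 0] ?_ ?_
  · have key : ∀ i k : Fin 4, q.s ∈ q.rg i → q.r⁻¹ ∈ q.rg k →
        (∃ f : Γ(q.XX, (h.ch i) ''ᵁ ⊤ ⊓ (h.ch k) ''ᵁ ⊤),
          secV _ q.pt (le_xi2 q.pt q.rg h.ch h.ch_pt i k) f = q.s / q.r - 0) ∧
        (∃ f : Γ(q.XX, (h.ch k) ''ᵁ ⊤ ⊓ (h.ch i) ''ᵁ ⊤),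
          secV _ q.pt (le_xi2 q.pt q.rg h.ch h.ch_pt k i) f = 0 - q.s / q.r) := by
      intro i k hi hk
      constructor
      · obtain ⟨f, hf⟩ := exists_mul q.pt q.rg h.ch h.ch_pt i k _ _ hi hk
        exact ⟨f, by rw [hf, sub_zero, div_eq_mul_inv]⟩
      · obtain ⟨f, hf⟩ := exists_mul q.pt q.rg h.ch h.ch_pt k i _ _ hk hi
        exact ⟨-f, by rw [map_neg, hf, zero_sub, div_eq_mul_inv, mul_comm]⟩
    have key0 : ∀ (i k : Fin 4) (a : K),
        ∃ f : Γ(q.XX, (h.ch i) ''ᵁ ⊤ ⊓ (h.ch k) ''ᵁ ⊤),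
          secV _ q.pt (le_xi2 q.pt q.rg h.ch h.ch_pt i k) f = a - a := fun i k a =>
      ⟨0, by rw [map_zero, sub_self]⟩
    intro i k
    fin_cases i <;> fin_cases k
    · exact key0 0 0 _
    · exact key0 0 1 _
    · exact (key 0 2 hs0 hr2).1
    · exact (key 0 3 hs0 hr3).1
    · exact key0 1 0 _
    · exact key0 1 1 _
    · exact (key 1 2 hs1 hr2).1
    · exact (key 1 3 hs1 hr3).1
    · exact (key 0 2 hs0 hr2).2
    · exact (key 1 2 hs1 hr2).2
    · exact key0 2 2 _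
    · exact key0 2 3 _
    · exact (key 0 3 hs0 hr3).2
    · exact (key 1 3 hs1 hr3).2
    · exact key0 3 2 _
    · exact key0 3 3 _
  · intro a ha hd
    have h02 : a 0 - a 2 = q.s / q.r - 0 := hd 0 2
    exact not_split (Dat.mk' h.ai h.hE h.hS) (ha 0) (ha 2) (by rw [h02, sub_zero])

end Qd

end

end M21.XP
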