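import Mathlib

set_option autoImplicit false
set_option linter.all false

namespace M21.XP

open MvPolynomial

/-- Localising at the Jacobian of a pre-submersive presentation gives a standard smooth algebra. -/
theorem std_of_jacobian {S : Type} [CommRing S] [Algebra ℂ S] {m c : ℕ}
    (P : Algebra.PreSubmersivePresentation ℂ S (Fin m) (Fin c)) (n : ℕ) (hn : n + c = m)
    (T : Type) [CommRing T] [Algebra ℂ T] [Algebra S T] [IsScalarTower ℂ S T]
    [IsLocalization.Away P.jacobian T] :
    Algebra.IsStandardSmoothOfRelativeDimension n ℂ T := by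
  let Q := (Algebra.PreSubmersivePresentation.localizationAway T P.jacobian).comp P
  have hQ : IsUnit Q.jacobian := by
    have h1 : Q.jacobian = P.jacobian • algebraMap S T P.jacobian := by
      rw [Algebra.PreSubmersivePresentation.comp_jacobian_eq_jacobian_smul_jacobian,
        Algebra.PreSubmersivePresentation.localizationAway_jacobian]
    rw [h1, Algebra.smul_def]
    have h2 : IsUnit (algebraMap S T P.jacobian) :=
      IsLocalization.Away.algebraMap_isUnit P.jacobian
    exact h2.mul h2
  let W : Algebra.SubmersivePresentation ℂ T (Unit ⊕ Fin m) (Unit ⊕ Fin c) :=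
    { Q with jacobian_isUnit := hQ }
  refine W.isStandardSmoothOfRelativeDimension ?_
  show Nat.card (Unit ⊕ Fin m) - Nat.card (Unit ⊕ Fin c) = n
  have h1 : Nat.card (Unit ⊕ Fin m) = 1 + m := by
    rw [Nat.card_sum, Nat.card_unique, Nat.card_eq_fintype_card, Fintype.card_fin]
  have h2 : Nat.card (Unit ⊕ Fin c) = 1 + c := by
    rw [Nat.card_sum, Nat.card_unique, Nat.card_eq_fintype_card, Fintype.card_fin]
  rw [h1, h2]
  omega

/-- The minors of the Jacobian matrix, as elements of the quotient ring. -/
noncomputable def minor {m c : ℕ} (g : Fin c → MvPolynomial (Fin m) ℂ) (a : Fin c → Fin m) :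
    MvPolynomial (Fin m) ℂ :=
  Matrix.det (Matrix.of fun i j : Fin c => pderiv (a i) (g j))

theorem minor_eq_zero {m c : ℕ} (g : Fin c → MvPolynomial (Fin m) ℂ) (a : Fin c → Fin m)
    (ha : ¬ Function.Injective a) : minor g a = 0 := by
  rw [Function.not_injective_iff] at ha
  obtain ⟨i, j, hij, hne⟩ := ha
  refine Matrix.det_zero_of_row_eq hne ?_
  funext k
  simp only [Matrix.of_apply, hij]

/-- Pointwise criterion (Nullstellensatz) for the minors to generate the unit ideal. -/
theorem span_minors {m c : ℕ} (g : Fin c → MvPolynomial (Fin m) ℂ)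
    (h : ∀ p : Fin m → ℂ, (∀ i, eval p (g i) = 0) → ∃ a : Fin c → Fin m, eval p (minor g a) ≠ 0) :
    Ideal.span (Set.range fun a : {a : Fin c → Fin m // Function.Injective a} =>
      Ideal.Quotient.mk (Ideal.span (Set.range g)) (minor g a.1)) = ⊤ := by
  by_contra hne
  obtain ⟨M, hM, hle⟩ := Ideal.exists_le_maximal _ hne
  have hM' : (M.comap (Ideal.Quotient.mk (Ideal.span (Set.range g)))).IsMaximal :=
    Ideal.comap_isMaximal_of_surjective _ Ideal.Quotient.mk_surjective
  obtain ⟨p, hp⟩ := MvPolynomial.isMaximal_iff_eq_vanishingIdeal_singleton.mp hM'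
  have hmem : ∀ f : MvPolynomial (Fin m) ℂ,
      Ideal.Quotient.mk (Ideal.span (Set.range g)) f ∈ M → eval p f = 0 := by
    intro f hf
    have h1 : f ∈ M.comap (Ideal.Quotient.mk (Ideal.span (Set.range g))) := hf
    rw [hp, MvPolynomial.mem_vanishingIdeal_singleton_iff] at h1
    rwa [← MvPolynomial.coe_aeval_eq_eval, RingHom.coe_coe]
  obtain ⟨a, ha⟩ := h p (fun i => hmem _ (by
    have : Ideal.Quotient.mk (Ideal.span (Set.range g)) (g i) = 0 :=
      Ideal.Quotient.eq_zero_iff_mem.mpr (Ideal.subset_span ⟨i, rfl⟩)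
    rw [this]; exact M.zero_mem))
  by_cases hinj : Function.Injective a
  · exact ha (hmem _ (hle (Ideal.subset_span ⟨⟨a, hinj⟩, rfl⟩)))
  · exact ha (by rw [minor_eq_zero g a hinj, map_zero])

/-- Jacobian criterion: a complete intersection with pointwise nonvanishing minors is locally
standard smooth of relative dimension the number of variables minus the number of equations. -/
theorem locally_of_minors {m c : ℕ} (n : ℕ) (hn : n + c = m)
    (g : Fin c → MvPolynomial (Fin m) ℂ)
    (h : ∀ p : Fin m → ℂ, (∀ i, eval p (g i) = 0) → ∃ a : Fin c → Fin m, eval p (minor g a) ≠ 0)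
    {S : Type} [CommRing S] [Algebra ℂ S]
    (e : (MvPolynomial (Fin m) ℂ ⧸ Ideal.span (Set.range g)) ≃ₐ[ℂ] S) :
    RingHom.Locally (RingHom.IsStandardSmoothOfRelativeDimension n) (algebraMap ℂ S) := by
  have h0 : RingHom.Locally (RingHom.IsStandardSmoothOfRelativeDimension n)
      (algebraMap ℂ (MvPolynomial (Fin m) ℂ ⧸ Ideal.span (Set.range g))) := by
    refine ⟨_, span_minors g h, ?_⟩
    rintro t ⟨⟨a, ha⟩, rfl⟩
    let s := Function.surjInv (Ideal.Quotient.mk_surjective (I := Ideal.span (Set.range g)))
    have hs : ∀ x, Ideal.Quotient.mk _ (s x) = x :=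
      Function.surjInv_eq (Ideal.Quotient.mk_surjective (I := Ideal.span (Set.range g)))
    let P0 := Algebra.PreSubmersivePresentation.naive (R := ℂ) (v := g) a ha s hs
    have hjac : P0.jacobian = Ideal.Quotient.mk (Ideal.span (Set.range g)) (minor g a) := by
      rw [Algebra.PreSubmersivePresentation.jacobian_eq_jacobiMatrix_det]
      have h1 : P0.jacobiMatrix = Matrix.of fun i j : Fin c => pderiv (a i) (g j) := by
        ext1 i j
        exact Algebra.PreSubmersivePresentation.jacobiMatrix_naive a ha _ _ i j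
      rw [h1]
      rfl
    have h2 := std_of_jacobian P0 n hn (Localization.Away P0.jacobian)
    rw [hjac] at h2
    show (((algebraMap _ _).comp (algebraMap ℂ _)) : ℂ →+* _).IsStandardSmoothOfRelativeDimension n
    rw [← IsScalarTower.algebraMap_eq]
    rwa [RingHom.isStandardSmoothOfRelativeDimension_algebraMap]
  have h3 := (RingHom.locally_respectsIso
    (RingHom.isStandardSmoothOfRelativeDimension_respectsIso (n := n))).left
      (algebraMap ℂ (MvPolynomial (Fin m) ℂ ⧸ Ideal.span (Set.range g))) e.toRingEquiv h0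
  have h4 : (e.toRingEquiv.toRingHom).comp
      (algebraMap ℂ (MvPolynomial (Fin m) ℂ ⧸ Ideal.span (Set.range g))) = algebraMap ℂ S := by
    ext z
    exact e.commutes z
  rw [h4] at h3
  exact h3

end M21.XP
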