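import Pool.Agent.H.MP_21b43d_ag.XP.NR
import Pool.Agent.H.MP_21b43d_ag.XP.Alb
import Pool.Agent.H.MP_21b43d_ag.XP.Irr

/-!
# M6 / Theorem X': the second surface

For every field `K` over `ℂ` and elements `r, s, x, y` of `K` with `r, x` algebraically
independent over `ℂ`, `s² = r³ + 1` and `y³ = s (x⁶ + 1) + (x³ + 2)`, the closure `q.XX` of the
point `q.vec` in `ℙ¹³` is a smooth projective surface with `H¹(𝒪) ≠ 0`, without rational curves,
and no morphism from it to an abelian variety is finite.
-/

set_option autoImplicit false

open CategoryTheory AlgebraicGeometry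

namespace M21.XP

/-- **Theorem X'.** -/
theorem main {K : Type} [Field K] [Algebra ℂ K] (q : Qd K) (h : q.Good) :
    IsSmoothProjectiveSurface q.str ∧ IrregularSurface q.XX ∧ NoRationalCurve q.str ∧
      AlbaneseNotFinite q.str :=
  ⟨h.isSmoothProjectiveSurface, h.irregular, h.noRationalCurve, h.albaneseNotFinite⟩

end M21.XP
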