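import Mathlib

/-!
# M21 (Theorem X'): the Jacobian criterion on the four charts, pointwise
-/

open MvPolynomial

namespace M21.XP

/-- the relations of the chart `A`, variables `r, s, x, y` -/
noncomputable def gA : Fin 2 → MvPolynomial (Fin 4) ℂ :=
  ![X 1 ^ 2 - X 0 ^ 3 - 1, X 3 ^ 3 - X 1 * (X 2 ^ 6 + 1) - (X 2 ^ 3 + 2)]

/-- the relations of the chart `A'`, variables `r, s, x', y'` -/
noncomputable def gA' : Fin 2 → MvPolynomial (Fin 4) ℂ :=
  ![X 1 ^ 2 - X 0 ^ 3 - 1, X 3 ^ 3 - X 1 * (1 + X 2 ^ 6) - (X 2 ^ 3 + 2 * X 2 ^ 6)]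

/-- the relations of the chart `B`, variables `c, e, x, y` -/
noncomputable def gB : Fin 2 → MvPolynomial (Fin 4) ℂ :=
  ![X 0 ^ 2 * (1 + X 1 ^ 3) - X 1,
    (1 + X 1 ^ 3) * X 3 ^ 3 - (X 2 ^ 6 + 1) - X 0 * X 1 * (X 2 ^ 3 + 2)]

/-- the relations of the chart `B'`, variables `c, e, x', y'` -/
noncomputable def gB' : Fin 2 → MvPolynomial (Fin 4) ℂ :=
  ![X 0 ^ 2 * (1 + X 1 ^ 3) - X 1,
    (1 + X 1 ^ 3) * X 3 ^ 3 - (1 + X 2 ^ 6) - X 0 * X 1 * (X 2 ^ 3 + 2 * X 2 ^ 6)]

theorem pderiv_two (i : Fin 4) : pderiv i (2 : MvPolynomial (Fin 4) ℂ) = 0 := by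
  have h : (2 : MvPolynomial (Fin 4) ℂ) = ((2 : ℕ) : MvPolynomial (Fin 4) ℂ) := by norm_num
  rw [h]
  exact Derivation.map_natCast _ _

/-- If all minors of the Jacobian matrix vanish, a contradiction follows: chart `A`. -/
theorem minors_A (p : Fin 4 → ℂ) (hp : ∀ i, eval p (gA i) = 0) :
    ∃ j k, eval p (pderiv j (gA 0)) * eval p (pderiv k (gA 1)) -
      eval p (pderiv k (gA 0)) * eval p (pderiv j (gA 1)) ≠ 0 := by
  obtain ⟨r, hr⟩ : ∃ r, p 0 = r := ⟨_, rfl⟩
  obtain ⟨s, hs⟩ : ∃ s, p 1 = s := ⟨_, rfl⟩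
  obtain ⟨x, hx⟩ : ∃ x, p 2 = x := ⟨_, rfl⟩
  obtain ⟨y, hy⟩ : ∃ y, p 3 = y := ⟨_, rfl⟩
  have h0 : s ^ 2 = r ^ 3 + 1 := by
    have := hp 0
    simp [gA, hr, hs] at this
    linear_combination this
  have h1 : y ^ 3 = s * (x ^ 6 + 1) + (x ^ 3 + 2) := by
    have := hp 1
    simp [gA, hs, hx, hy] at this
    linear_combination this
  have a0 : eval p (pderiv 0 (gA 0)) = - (3 * r ^ 2) := by
    simp [gA, Derivation.leibniz_pow, Derivation.leibniz, pderiv_X, pderiv_two, hr]
  have a1 : eval p (pderiv 1 (gA 0)) = 2 * s := by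
    simp [gA, Derivation.leibniz_pow, Derivation.leibniz, pderiv_X, pderiv_two, hs]
  have a2 : eval p (pderiv 2 (gA 0)) = 0 := by
    simp [gA, Derivation.leibniz_pow, Derivation.leibniz, pderiv_X, pderiv_two]
  have a3 : eval p (pderiv 3 (gA 0)) = 0 := by
    simp [gA, Derivation.leibniz_pow, Derivation.leibniz, pderiv_X, pderiv_two]
  have b0 : eval p (pderiv 0 (gA 1)) = 0 := by
    simp [gA, Derivation.leibniz_pow, Derivation.leibniz, pderiv_X, pderiv_two]
  have b1 : eval p (pderiv 1 (gA 1)) = - (x ^ 6 + 1) := by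
    simp [gA, Derivation.leibniz_pow, Derivation.leibniz, pderiv_X, pderiv_two, hx]
  have b2 : eval p (pderiv 2 (gA 1)) = - (6 * s * x ^ 5 + 3 * x ^ 2) := by
    simp [gA, Derivation.leibniz_pow, Derivation.leibniz, pderiv_X, pderiv_two, hs, hx]
    ring
  have b3 : eval p (pderiv 3 (gA 1)) = 3 * y ^ 2 := by
    simp [gA, Derivation.leibniz_pow, Derivation.leibniz, pderiv_X, pderiv_two, hy]
  by_contra hcon
  push Not at hcon
  have m03 := hcon 0 3
  have m13 := hcon 1 3
  have m01 := hcon 0 1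
  have m12 := hcon 1 2
  rw [a0, a3, b0, b3] at m03
  rw [a1, a3, b1, b3] at m13
  rw [a0, a1, b0, b1] at m01
  rw [a1, a2, b1, b2] at m12
  by_cases hy0 : y = 0
  · subst hy0
    by_cases hr0 : r = 0
    · subst hr0
      have hs2 : s ^ 2 = 1 := by linear_combination h0
      have hs0 : s ≠ 0 := by
        rintro rfl
        norm_num at hs2
      have h2 : s * x ^ 2 * (2 * s * x ^ 3 + 1) = 0 := by linear_combination (-1 / 6) * m12
      rcases mul_eq_zero.mp h2 with h3 | h3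
      · have hx0 : x = 0 := by
          rcases mul_eq_zero.mp h3 with h4 | h4
          · exact absurd h4 hs0
          · exact pow_eq_zero_iff (by norm_num) |>.mp h4
        subst hx0
        have h4 : s = -2 := by linear_combination -h1
        rw [h4] at hs2
        norm_num at hs2
      · have h4 : x ^ 3 = - s / 2 := by linear_combination (s / 2) * h3 - x ^ 3 * hs2
        have h5 : x ^ 6 = (- s / 2) ^ 2 := by rw [← h4]; ring
        rw [h4, h5] at h1
        have h6 : s = - 8 / 3 := by linear_combination (-4 / 3) * h1 - (1 / 3) * s * hs2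
        rw [h6] at hs2
        norm_num at hs2
    · have h2 : x ^ 6 + 1 = 0 := by
        have h3 : r ^ 2 * (x ^ 6 + 1) = 0 := by linear_combination (1 / 3) * m01
        rcases mul_eq_zero.mp h3 with h4 | h4
        · exact absurd (pow_eq_zero_iff (by norm_num) |>.mp h4) hr0
        · exact h4
      have h3 : x ^ 3 = -2 := by linear_combination -h1 - s * h2
      have h4 : (5 : ℂ) = 0 := by linear_combination h2 - (x ^ 3 - 2) * h3
      norm_num at h4
  · have hy2 : y ^ 2 ≠ 0 := pow_ne_zero 2 hy0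
    have hr0 : r = 0 := by
      have h2 : y ^ 2 * r ^ 2 = 0 := by linear_combination (-1 / 9) * m03
      rcases mul_eq_zero.mp h2 with h3 | h3
      · exact absurd h3 hy2
      · exact pow_eq_zero_iff (by norm_num) |>.mp h3
    have hs0 : s = 0 := by
      have h2 : y ^ 2 * s = 0 := by linear_combination (1 / 6) * m13
      rcases mul_eq_zero.mp h2 with h3 | h3
      · exact absurd h3 hy2
      · exact h3
    rw [hr0, hs0] at h0
    norm_num at h0

/-- chart `A'` -/
theorem minors_A' (p : Fin 4 → ℂ) (hp : ∀ i, eval p (gA' i) = 0) :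
    ∃ j k, eval p (pderiv j (gA' 0)) * eval p (pderiv k (gA' 1)) -
      eval p (pderiv k (gA' 0)) * eval p (pderiv j (gA' 1)) ≠ 0 := by
  obtain ⟨r, hr⟩ : ∃ r, p 0 = r := ⟨_, rfl⟩
  obtain ⟨s, hs⟩ : ∃ s, p 1 = s := ⟨_, rfl⟩
  obtain ⟨x, hx⟩ : ∃ x, p 2 = x := ⟨_, rfl⟩
  obtain ⟨y, hy⟩ : ∃ y, p 3 = y := ⟨_, rfl⟩
  have h0 : s ^ 2 = r ^ 3 + 1 := by
    have := hp 0
    simp [gA', hr, hs] at this
    linear_combination this
  have h1 : y ^ 3 = s * (1 + x ^ 6) + (x ^ 3 + 2 * x ^ 6) := by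
    have := hp 1
    simp [gA', hs, hx, hy] at this
    linear_combination this
  have a0 : eval p (pderiv 0 (gA' 0)) = - (3 * r ^ 2) := by
    simp [gA', Derivation.leibniz_pow, Derivation.leibniz, pderiv_X, pderiv_two, hr]
  have a1 : eval p (pderiv 1 (gA' 0)) = 2 * s := by
    simp [gA', Derivation.leibniz_pow, Derivation.leibniz, pderiv_X, pderiv_two, hs]
  have a2 : eval p (pderiv 2 (gA' 0)) = 0 := by
    simp [gA', Derivation.leibniz_pow, Derivation.leibniz, pderiv_X, pderiv_two]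
  have a3 : eval p (pderiv 3 (gA' 0)) = 0 := by
    simp [gA', Derivation.leibniz_pow, Derivation.leibniz, pderiv_X, pderiv_two]
  have b0 : eval p (pderiv 0 (gA' 1)) = 0 := by
    simp [gA', Derivation.leibniz_pow, Derivation.leibniz, pderiv_X, pderiv_two]
  have b1 : eval p (pderiv 1 (gA' 1)) = - (1 + x ^ 6) := by
    simp [gA', Derivation.leibniz_pow, Derivation.leibniz, pderiv_X, pderiv_two, hx]
  have b2 : eval p (pderiv 2 (gA' 1)) = - (6 * (s + 2) * x ^ 5 + 3 * x ^ 2) := by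
    simp [gA', Derivation.leibniz_pow, Derivation.leibniz, pderiv_X, pderiv_two, hs, hx]
    ring
  have b3 : eval p (pderiv 3 (gA' 1)) = 3 * y ^ 2 := by
    simp [gA', Derivation.leibniz_pow, Derivation.leibniz, pderiv_X, pderiv_two, hy]
  by_contra hcon
  push Not at hcon
  have m03 := hcon 0 3
  have m13 := hcon 1 3
  have m01 := hcon 0 1
  have m12 := hcon 1 2
  rw [a0, a3, b0, b3] at m03
  rw [a1, a3, b1, b3] at m13
  rw [a0, a1, b0, b1] at m01
  rw [a1, a2, b1, b2] at m12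
  by_cases hy0 : y = 0
  · subst hy0
    by_cases hr0 : r = 0
    · subst hr0
      have hs2 : s ^ 2 = 1 := by linear_combination h0
      have hs0 : s ≠ 0 := by
        rintro rfl
        norm_num at hs2
      have h2 : s * x ^ 2 * (2 * (s + 2) * x ^ 3 + 1) = 0 := by linear_combination (-1 / 6) * m12
      rcases mul_eq_zero.mp h2 with h3 | h3
      · have hx0 : x = 0 := by
          rcases mul_eq_zero.mp h3 with h4 | h4
          · exact absurd h4 hs0
          · exact pow_eq_zero_iff (by norm_num) |>.mp h4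
        subst hx0
        exact hs0 (by linear_combination -h1)
      · have h6 : 4 * s * (s + 2) = 1 := by
          linear_combination (-4 * (s + 2)) * h1 - (2 * (s + 2) * x ^ 3 + 1) * h3
        have h7 : s = - 3 / 8 := by linear_combination (1 / 8) * h6 - (1 / 2) * hs2
        rw [h7] at hs2
        norm_num at hs2
    · have h2 : 1 + x ^ 6 = 0 := by
        have h3 : r ^ 2 * (1 + x ^ 6) = 0 := by linear_combination (1 / 3) * m01
        rcases mul_eq_zero.mp h3 with h4 | h4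
        · exact absurd (pow_eq_zero_iff (by norm_num) |>.mp h4) hr0
        · exact h4
      have h3 : x ^ 3 = 2 := by linear_combination -h1 - (s + 2) * h2
      have h4 : (5 : ℂ) = 0 := by linear_combination h2 - (x ^ 3 + 2) * h3
      norm_num at h4
  · have hy2 : y ^ 2 ≠ 0 := pow_ne_zero 2 hy0
    have hr0 : r = 0 := by
      have h2 : y ^ 2 * r ^ 2 = 0 := by linear_combination (-1 / 9) * m03
      rcases mul_eq_zero.mp h2 with h3 | h3
      · exact absurd h3 hy2
      · exact pow_eq_zero_iff (by norm_num) |>.mp h3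
    have hs0 : s = 0 := by
      have h2 : y ^ 2 * s = 0 := by linear_combination (1 / 6) * m13
      rcases mul_eq_zero.mp h2 with h3 | h3
      · exact absurd h3 hy2
      · exact h3
    rw [hr0, hs0] at h0
    norm_num at h0

/-- chart `B` -/
theorem minors_B (p : Fin 4 → ℂ) (hp : ∀ i, eval p (gB i) = 0) :
    ∃ j k, eval p (pderiv j (gB 0)) * eval p (pderiv k (gB 1)) -
      eval p (pderiv k (gB 0)) * eval p (pderiv j (gB 1)) ≠ 0 := by
  obtain ⟨c, hc⟩ : ∃ r, p 0 = r := ⟨_, rfl⟩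
  obtain ⟨e, he⟩ : ∃ s, p 1 = s := ⟨_, rfl⟩
  obtain ⟨x, hx⟩ : ∃ x, p 2 = x := ⟨_, rfl⟩
  obtain ⟨y, hy⟩ : ∃ y, p 3 = y := ⟨_, rfl⟩
  have h0 : c ^ 2 * (1 + e ^ 3) = e := by
    have := hp 0
    simp [gB, hc, he] at this
    linear_combination this
  have h1 : (1 + e ^ 3) * y ^ 3 = (x ^ 6 + 1) + c * e * (x ^ 3 + 2) := by
    have := hp 1
    simp [gB, hc, he, hx, hy] at this
    linear_combination this
  have a0 : eval p (pderiv 0 (gB 0)) = 2 * c * (1 + e ^ 3) := by
    simp [gB, Derivation.leibniz_pow, Derivation.leibniz, pderiv_X, pderiv_two, hc, he]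
    ring
  have a1 : eval p (pderiv 1 (gB 0)) = 3 * c ^ 2 * e ^ 2 - 1 := by
    simp [gB, Derivation.leibniz_pow, Derivation.leibniz, pderiv_X, pderiv_two, hc, he]
    ring
  have a2 : eval p (pderiv 2 (gB 0)) = 0 := by
    simp [gB, Derivation.leibniz_pow, Derivation.leibniz, pderiv_X, pderiv_two]
  have a3 : eval p (pderiv 3 (gB 0)) = 0 := by
    simp [gB, Derivation.leibniz_pow, Derivation.leibniz, pderiv_X, pderiv_two]
  have b0 : eval p (pderiv 0 (gB 1)) = - (e * (x ^ 3 + 2)) := by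
    simp [gB, Derivation.leibniz_pow, Derivation.leibniz, pderiv_X, pderiv_two, he, hx]
    ring
  have b1 : eval p (pderiv 1 (gB 1)) = 3 * e ^ 2 * y ^ 3 - c * (x ^ 3 + 2) := by
    simp [gB, Derivation.leibniz_pow, Derivation.leibniz, pderiv_X, pderiv_two, hc, he, hx, hy]
    ring
  have b2 : eval p (pderiv 2 (gB 1)) = - (6 * x ^ 5 + 3 * (c * e) * x ^ 2) := by
    simp [gB, Derivation.leibniz_pow, Derivation.leibniz, pderiv_X, pderiv_two, hc, he, hx]
    ring
  have b3 : eval p (pderiv 3 (gB 1)) = 3 * (1 + e ^ 3) * y ^ 2 := by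
    simp [gB, Derivation.leibniz_pow, Derivation.leibniz, pderiv_X, pderiv_two, he, hy]
    ring
  have hu : (1 + e ^ 3) * (1 - c ^ 2 * e ^ 2) = 1 := by linear_combination (- e ^ 2) * h0
  have hu1 : 1 + e ^ 3 ≠ 0 := left_ne_zero_of_mul (by rw [hu]; exact one_ne_zero)
  have hu2 : 1 - c ^ 2 * e ^ 2 ≠ 0 := right_ne_zero_of_mul (by rw [hu]; exact one_ne_zero)
  by_contra hcon
  push Not at hcon
  have m03 := hcon 0 3
  have m13 := hcon 1 3
  have m01 := hcon 0 1
  have m02 := hcon 0 2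
  have m12 := hcon 1 2
  rw [a0, a3, b0, b3] at m03
  rw [a1, a3, b1, b3] at m13
  rw [a0, a1, b0, b1] at m01
  rw [a0, a2, b0, b2] at m02
  rw [a1, a2, b1, b2] at m12
  by_cases hy0 : y = 0
  · subst hy0
    have h2 : (1 - c ^ 2 * e ^ 2) * (e * (x ^ 3 + 2)) = 0 := by
      linear_combination (-1 / 3) * m01 - (2 / 3) * (x ^ 3 + 2) * h0
    rcases mul_eq_zero.mp h2 with h3 | h3
    · exact hu2 h3
    · rcases mul_eq_zero.mp h3 with h4 | h4
      · subst h4
        have h5 : x ^ 5 = 0 := by linear_combination (1 / 6) * m12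
        have h6 : x = 0 := pow_eq_zero_iff (by norm_num) |>.mp h5
        subst h6
        norm_num at h1
      · have h5 : (5 : ℂ) = 0 := by
          linear_combination (-1) * h1 - (x ^ 3 - 2 + c * e) * h4
        norm_num at h5
  · have hy2 : (1 + e ^ 3) * y ^ 2 ≠ 0 := mul_ne_zero hu1 (pow_ne_zero 2 hy0)
    have hc0 : c = 0 := by
      have h2 : ((1 + e ^ 3) * y ^ 2) * ((1 + e ^ 3) * c) = 0 := by linear_combination (1 / 6) * m03
      rcases mul_eq_zero.mp h2 with h3 | h3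
      · exact absurd h3 hy2
      · rcases mul_eq_zero.mp h3 with h4 | h4
        · exact absurd h4 hu1
        · exact h4
    subst hc0
    apply hy2
    linear_combination (-1 / 3) * m13

/-- chart `B'` -/
theorem minors_B' (p : Fin 4 → ℂ) (hp : ∀ i, eval p (gB' i) = 0) :
    ∃ j k, eval p (pderiv j (gB' 0)) * eval p (pderiv k (gB' 1)) -
      eval p (pderiv k (gB' 0)) * eval p (pderiv j (gB' 1)) ≠ 0 := by
  obtain ⟨c, hc⟩ : ∃ r, p 0 = r := ⟨_, rfl⟩
  obtain ⟨e, he⟩ : ∃ s, p 1 = s := ⟨_, rfl⟩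
  obtain ⟨x, hx⟩ : ∃ x, p 2 = x := ⟨_, rfl⟩
  obtain ⟨y, hy⟩ : ∃ y, p 3 = y := ⟨_, rfl⟩
  have h0 : c ^ 2 * (1 + e ^ 3) = e := by
    have := hp 0
    simp [gB', hc, he] at this
    linear_combination this
  have h1 : (1 + e ^ 3) * y ^ 3 = (1 + x ^ 6) + c * e * (x ^ 3 + 2 * x ^ 6) := by
    have := hp 1
    simp [gB', hc, he, hx, hy] at this
    linear_combination this
  have a0 : eval p (pderiv 0 (gB' 0)) = 2 * c * (1 + e ^ 3) := by
    simp [gB', Derivation.leibniz_pow, Derivation.leibniz, pderiv_X, pderiv_two, hc, he]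
    ring
  have a1 : eval p (pderiv 1 (gB' 0)) = 3 * c ^ 2 * e ^ 2 - 1 := by
    simp [gB', Derivation.leibniz_pow, Derivation.leibniz, pderiv_X, pderiv_two, hc, he]
    ring
  have a2 : eval p (pderiv 2 (gB' 0)) = 0 := by
    simp [gB', Derivation.leibniz_pow, Derivation.leibniz, pderiv_X, pderiv_two]
  have a3 : eval p (pderiv 3 (gB' 0)) = 0 := by
    simp [gB', Derivation.leibniz_pow, Derivation.leibniz, pderiv_X, pderiv_two]
  have b0 : eval p (pderiv 0 (gB' 1)) = - (e * (x ^ 3 + 2 * x ^ 6)) := by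
    simp [gB', Derivation.leibniz_pow, Derivation.leibniz, pderiv_X, pderiv_two, he, hx]
    ring
  have b1 : eval p (pderiv 1 (gB' 1)) = 3 * e ^ 2 * y ^ 3 - c * (x ^ 3 + 2 * x ^ 6) := by
    simp [gB', Derivation.leibniz_pow, Derivation.leibniz, pderiv_X, pderiv_two, hc, he, hx, hy]
    ring
  have b2 : eval p (pderiv 2 (gB' 1)) = - (6 * x ^ 5 + c * e * (3 * x ^ 2 + 12 * x ^ 5)) := by
    simp [gB', Derivation.leibniz_pow, Derivation.leibniz, pderiv_X, pderiv_two, hc, he, hx]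
    ring
  have b3 : eval p (pderiv 3 (gB' 1)) = 3 * (1 + e ^ 3) * y ^ 2 := by
    simp [gB', Derivation.leibniz_pow, Derivation.leibniz, pderiv_X, pderiv_two, he, hy]
    ring
  have hu : (1 + e ^ 3) * (1 - c ^ 2 * e ^ 2) = 1 := by linear_combination (- e ^ 2) * h0
  have hu1 : 1 + e ^ 3 ≠ 0 := left_ne_zero_of_mul (by rw [hu]; exact one_ne_zero)
  have hu2 : 1 - c ^ 2 * e ^ 2 ≠ 0 := right_ne_zero_of_mul (by rw [hu]; exact one_ne_zero)
  by_contra hcon
  push Not at hcon
  have m03 := hcon 0 3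
  have m13 := hcon 1 3
  have m01 := hcon 0 1
  have m02 := hcon 0 2
  have m12 := hcon 1 2
  rw [a0, a3, b0, b3] at m03
  rw [a1, a3, b1, b3] at m13
  rw [a0, a1, b0, b1] at m01
  rw [a0, a2, b0, b2] at m02
  rw [a1, a2, b1, b2] at m12
  by_cases hy0 : y = 0
  · subst hy0
    have h2 : (1 - c ^ 2 * e ^ 2) * (e * (x ^ 3 + 2 * x ^ 6)) = 0 := by
      linear_combination (-1 / 3) * m01 - (2 / 3) * (x ^ 3 + 2 * x ^ 6) * h0
    rcases mul_eq_zero.mp h2 with h3 | h3
    · exact hu2 h3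
    · rcases mul_eq_zero.mp h3 with h4 | h4
      · subst h4
        have h5 : x ^ 5 = 0 := by linear_combination (1 / 6) * m12
        have h6 : x = 0 := pow_eq_zero_iff (by norm_num) |>.mp h5
        subst h6
        norm_num at h1
      · have h6 : x ^ 6 = -1 := by linear_combination -h1 - c * e * h4
        have h7 : x ^ 3 = 2 := by linear_combination h4 - 2 * h6
        have h5 : (5 : ℂ) = 0 := by
          linear_combination h6 - (x ^ 3 + 2) * h7
        norm_num at h5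
  · have hy2 : (1 + e ^ 3) * y ^ 2 ≠ 0 := mul_ne_zero hu1 (pow_ne_zero 2 hy0)
    have hc0 : c = 0 := by
      have h2 : ((1 + e ^ 3) * y ^ 2) * ((1 + e ^ 3) * c) = 0 := by linear_combination (1 / 6) * m03
      rcases mul_eq_zero.mp h2 with h3 | h3
      · exact absurd h3 hy2
      · rcases mul_eq_zero.mp h3 with h4 | h4
        · exact absurd h4 hu1
        · exact h4
    subst hc0
    apply hy2
    linear_combination (-1 / 3) * m13

end M21.XP
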