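import Pool.Agent.H.MP_21b43d_ag.XP.Rat2
import Pool.Agent.H.MP_21b43d_ag.Defs

/-!
# M21 (Theorem X'): no rational curve, from the charts
-/

open CategoryTheory AlgebraicGeometry TopologicalSpace

namespace M21.XP

variable {X : Scheme.{0}}

/-- the residue field is the field of quotients of values of functions on an affine open set -/
theorem exists_evaluation_mul {U : X.Opens} (hU : IsAffineOpen U) {x : X} (hx : x ∈ U)
    (z : X.residueField x) : ∃ a b : Γ(X, U), X.evaluation U x hx b ≠ 0 ∧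
      z * X.evaluation U x hx b = X.evaluation U x hx a := by
  obtain ⟨t, rfl⟩ : ∃ t, X.residue x t = z := IsLocalRing.residue_surjective z
  let := TopCat.Presheaf.algebra_section_stalk X.presheaf ⟨x, hx⟩
  have h1 := hU.isLocalization_stalk ⟨x, hx⟩
  obtain ⟨⟨a, s⟩, h2⟩ := IsLocalization.surj (hU.primeIdealOf ⟨x, hx⟩).asIdeal.primeCompl t
  have h3 : t * X.presheaf.germ U x hx s.1 = X.presheaf.germ U x hx a := h2
  have h4 : IsUnit (X.presheaf.germ U x hx s.1) :=
    IsLocalization.map_units (X.presheaf.stalk x) s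
  refine ⟨a, s.1, (h4.map (X.residue x).hom).ne_zero, ?_⟩
  have h5 := congrArg (X.residue x).hom h3
  rw [map_mul] at h5
  exact h5

/-- **No rational curve from the charts** (affine open sets). -/
theorem noRationalCurve_of_opens (f : X ⟶ Spec (.of ℂ))
    (h : ∀ x : X, ∃ U : X.Opens, IsAffineOpen U ∧ x ∈ U ∧
      OnlyConst ((X.presheaf.map (homOfLE (le_top : U ≤ ⊤)).op).hom.comp (cmap f))) :
    NoRationalCurve f := by
  intro x e he
  obtain ⟨U, hU, hx, hC⟩ := h x
  have h1 := hC (e.symm.toRingHom.comp (X.evaluation U x hx).hom) (fun c => by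
    change e.symm (X.evaluation U x hx (X.presheaf.map (homOfLE (le_top : U ≤ ⊤)).op (cmap f c))) =
      RatFunc.C c
    rw [RingEquiv.symm_apply_eq]
    have h2 : X.evaluation U x hx (X.presheaf.map (homOfLE (le_top : U ≤ ⊤)).op (cmap f c)) =
        X.evaluation ⊤ x trivial (cmap f c) := by
      change X.residue x (X.presheaf.germ U x hx _) = X.residue x (X.presheaf.germ ⊤ x trivial _)
      rw [TopCat.Presheaf.germ_res_apply]
    rw [h2, ← he c]
    rfl)
  obtain ⟨a, b, hb, hab⟩ := exists_evaluation_mul hU hx (e RatFunc.X)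
  obtain ⟨ca, hca⟩ := h1 a
  obtain ⟨cb, hcb⟩ := h1 b
  have hcb' : RatFunc.C cb ≠ 0 := by
    rw [← hcb]
    intro h3
    apply hb
    have h4 : e.symm (X.evaluation U x hx b) = 0 := h3
    rwa [RingEquiv.symm_apply_eq, map_zero] at h4
  have h5 := congrArg e.symm hab
  rw [map_mul, RingEquiv.symm_apply_apply] at h5
  change RatFunc.X * e.symm.toRingHom.comp (X.evaluation U x hx).hom b =
    e.symm.toRingHom.comp (X.evaluation U x hx).hom a at h5
  rw [hca, hcb] at h5
  have hcb0 : cb ≠ 0 := by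
    rintro rfl
    exact hcb' (map_zero _)
  have h6 : (algebraMap (Polynomial ℂ) (RatFunc ℂ)) (Polynomial.X * Polynomial.C cb) =
      algebraMap _ _ (Polynomial.C ca) := by
    rw [map_mul]
    exact h5
  have h7 := algebraMap_inj h6
  have h8 := congrArg Polynomial.natDegree h7
  rw [Polynomial.natDegree_mul_C hcb0, Polynomial.natDegree_X, Polynomial.natDegree_C] at h8
  exact one_ne_zero h8

/-- **No rational curve from the charts** (open immersions of spectra). -/
theorem noRationalCurve_of_charts (f : X ⟶ Spec (.of ℂ))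
    (h : ∀ x : X, ∃ (R : Type) (_ : CommRing R) (_ : Algebra ℂ R) (j : Spec (.of R) ⟶ X),
      IsOpenImmersion j ∧ (∃ p, j p = x) ∧
      j ≫ f = Spec.map (CommRingCat.ofHom (algebraMap ℂ R)) ∧
      OnlyConst (algebraMap ℂ R)) :
    NoRationalCurve f := by
  apply noRationalCurve_of_opens
  intro x
  obtain ⟨R, _, _, j, _, ⟨p, rfl⟩, hj, hC⟩ := h x
  refine ⟨j ''ᵁ ⊤, (isAffineOpen_top _).image_of_isOpenImmersion j, ⟨p, trivial, rfl⟩, ?_⟩
  let e : R ≃+* Γ(X, j ''ᵁ ⊤) :=
    ((Scheme.ΓSpecIso (.of R)).symm ≪≫ (j.appIso ⊤).symm).commRingCatIsoToRingEquiv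
  refine hC.of_equiv e fun c => ?_
  have h1 : CommRingCat.ofHom (algebraMap ℂ R) ≫ (Scheme.ΓSpecIso (.of R)).inv =
      (Scheme.ΓSpecIso (.of ℂ)).inv ≫ f.appTop ≫ j.appTop := by
    rw [← Scheme.Hom.comp_appTop, hj, Scheme.ΓSpecIso_inv_naturality]
  have h2 : CommRingCat.ofHom (algebraMap ℂ R) ≫ (Scheme.ΓSpecIso (.of R)).inv ≫
      (j.appIso ⊤).inv = (Scheme.ΓSpecIso (.of ℂ)).inv ≫ f.appTop ≫
        X.presheaf.map (homOfLE (le_top : j ''ᵁ ⊤ ≤ ⊤)).op := by
    rw [← Category.assoc, h1, Category.assoc, Category.assoc]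
    congr 2
    exact j.app_appIso_inv ⊤
  exact congrArg (fun g => g.hom c) h2

end M21.XP
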