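import Pool.Agent.H.MP_21b43d_ag.XP.Sm3
import Pool.Agent.H.MP_21b43d_ag.XP.Rat3

set_option autoImplicit false
set_option linter.all false

open CategoryTheory AlgebraicGeometry TopologicalSpace MvPolynomial

namespace M21.XP

open M21X

noncomputable section

variable {K : Type} [Field K] [Algebra ℂ K]

theorem adjoin_top4 (a b c d : K) (ha : a ∈ Algebra.adjoin ℂ ({a, b, c, d} : Set K))
    (hb : b ∈ Algebra.adjoin ℂ ({a, b, c, d} : Set K))
    (hc : c ∈ Algebra.adjoin ℂ ({a, b, c, d} : Set K))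
    (hd : d ∈ Algebra.adjoin ℂ ({a, b, c, d} : Set K)) :
    Algebra.adjoin ℂ ({⟨a, ha⟩, ⟨b, hb⟩, ⟨c, hc⟩, ⟨d, hd⟩} :
      Set (Algebra.adjoin ℂ ({a, b, c, d} : Set K))) = ⊤ := by
  rw [← Algebra.adjoin_adjoin_coe_preimage]
  congr 1
  ext z
  simp only [Set.mem_insert_iff, Set.mem_singleton_iff, Set.mem_preimage, Subtype.ext_iff]

theorem onlyConst_AA (q : Qd K) (hE : q.s ^ 2 = q.r ^ 3 + 1)
    (hS : q.y ^ 3 = q.s * (q.x ^ 6 + 1) + (q.x ^ 3 + 2)) :
    OnlyConst (algebraMap ℂ (Algebra.adjoin ℂ ({q.r, q.s, q.x, q.y} : Set K))) :=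
  onlyConst_A (adjoin_top4 q.r q.s q.x q.y (Algebra.subset_adjoin (by simp))
    (Algebra.subset_adjoin (by simp)) (Algebra.subset_adjoin (by simp))
    (Algebra.subset_adjoin (by simp))) (Subtype.ext hE) (Subtype.ext hS)

theorem onlyConst_AA' (q : Qd K) (hE : q.s ^ 2 = q.r ^ 3 + 1)
    (hS : q.y ^ 3 = q.s * (1 + q.x ^ 6) + (q.x ^ 3 + 2 * q.x ^ 6)) :
    OnlyConst (algebraMap ℂ (Algebra.adjoin ℂ ({q.r, q.s, q.x, q.y} : Set K))) :=
  onlyConst_A' (adjoin_top4 q.r q.s q.x q.y (Algebra.subset_adjoin (by simp))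
    (Algebra.subset_adjoin (by simp)) (Algebra.subset_adjoin (by simp))
    (Algebra.subset_adjoin (by simp))) (Subtype.ext hE) (Subtype.ext hS)

theorem onlyConst_BB (c e x y : K) (hE : c ^ 2 * (1 + e ^ 3) = e)
    (hS : (1 + e ^ 3) * y ^ 3 = (x ^ 6 + 1) + c * e * (x ^ 3 + 2)) :
    OnlyConst (algebraMap ℂ (Algebra.adjoin ℂ ({c, e, x, y} : Set K))) :=
  onlyConst_B (adjoin_top4 c e x y (Algebra.subset_adjoin (by simp))
    (Algebra.subset_adjoin (by simp)) (Algebra.subset_adjoin (by simp))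
    (Algebra.subset_adjoin (by simp))) (Subtype.ext hE) (Subtype.ext hS)

theorem onlyConst_BB' (c e x y : K) (hE : c ^ 2 * (1 + e ^ 3) = e)
    (hS : (1 + e ^ 3) * y ^ 3 = (1 + x ^ 6) + c * e * (x ^ 3 + 2 * x ^ 6)) :
    OnlyConst (algebraMap ℂ (Algebra.adjoin ℂ ({c, e, x, y} : Set K))) :=
  onlyConst_B' (adjoin_top4 c e x y (Algebra.subset_adjoin (by simp))
    (Algebra.subset_adjoin (by simp)) (Algebra.subset_adjoin (by simp))
    (Algebra.subset_adjoin (by simp))) (Subtype.ext hE) (Subtype.ext hS)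

/-- the relations in the chart `B` -/
theorem relB_of {r s y P Q : K} (hr : r ≠ 0) (hs : s ≠ 0) (hE : s ^ 2 = r ^ 3 + 1)
    (hS : y ^ 3 = s * Q + P) :
    (r / s) ^ 2 * (1 + r⁻¹ ^ 3) = r⁻¹ ∧
      (1 + r⁻¹ ^ 3) * (y * r / s) ^ 3 = Q + (r / s) * r⁻¹ * P := by
  have hr3 : r ^ 3 + 1 ≠ 0 := by rw [← hE]; exact pow_ne_zero _ hs
  constructor
  · rw [div_pow, hE]
    field_simp
    try ring
  · have e1 : (y * r / s) ^ 3 = y ^ 3 * r ^ 3 / (s ^ 2 * s) := by
      field_simp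
    rw [e1, hS, hE]
    field_simp
    try ring

namespace Qd

variable {q : Qd K} (h : q.Good)

include h in
/-- The relation in the flipped chart. -/
theorem Good.hS' : q.flip.y ^ 3 = q.flip.s * (1 + q.flip.x ^ 6) +
    (q.flip.x ^ 3 + 2 * q.flip.x ^ 6) := by
  have hx := h.x_ne
  have := h.hS
  simp only [Qd.flip]
  rw [div_pow, this]
  field_simp
  try ring

include h in
theorem Good.onlyConst (i : Fin 4) : OnlyConst (algebraMap ℂ (q.rg i)) := by
  have h1 := relB_of h.r_ne h.s_ne h.hE h.hS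
  have h2 := relB_of h.r_ne h.s_ne h.hE h.hS'
  fin_cases i
  · exact onlyConst_AA q h.hE h.hS
  · exact onlyConst_AA' q.flip h.hE h.hS'
  · exact onlyConst_BB _ _ q.x _ h1.1 h1.2
  · exact onlyConst_BB' _ _ q.flip.x _ h2.1 h2.2

include h in
/-- **The surface contains no rational curve.** -/
theorem Good.noRationalCurve : NoRationalCurve q.str := by
  apply noRationalCurve_of_charts
  intro x
  obtain ⟨i, p, hp⟩ := h.ch_cover x
  exact ⟨q.rg i, inferInstance, inferInstance, h.ch i, inferInstance, ⟨p, hp⟩, h.ch_str i,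
    h.onlyConst i⟩

include h in
theorem Good.isSmoothProjectiveSurface : IsSmoothProjectiveSurface q.str :=
  ⟨q.isIntegral_XX, h.smooth, q.isProjectiveC_str⟩

end Qd

end

end M21.XP
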