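import Pool.Agent.H.MP_21b43d_ag.X.Str

/-!
# M6: closures of points of projective space are locally noetherian
-/

set_option autoImplicit false

open CategoryTheory AlgebraicGeometry

namespace M21X

variable {N : ℕ} {K : Type} [Field K] [Algebra ℂ K] (v : Fin (N + 1) → K) (hv : v 0 ≠ 0)

instance instIsLocallyNoetherianXX : IsLocallyNoetherian (XX v hv) :=
  LocallyOfFiniteType.isLocallyNoetherian (XX.str v hv)

end M21X
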