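import Mathlib

set_option autoImplicit false
set_option linter.all false

namespace M21.XP

open MvPolynomial

section red

variable {B R : Type} [CommRing B] [CommRing R] (φ : B →+* R) (u α β γ : B) (v1 v3 : R)

/-- `f` times a power of `u` is a combination of `v1 ^ i * v3 ^ j`, `i < 2`, `j < 3`. -/
def Red (f : R) : Prop :=
  ∃ (N : ℕ) (c00 c01 c02 c10 c11 c12 : B), φ u ^ N * f =
    φ c00 + φ c01 * v3 + φ c02 * v3 ^ 2 + v1 * (φ c10 + φ c11 * v3 + φ c12 * v3 ^ 2)

variable {φ u α β γ v1 v3}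

theorem red_base (b : B) : Red φ u v1 v3 (φ b) :=
  ⟨0, b, 0, 0, 0, 0, 0, by simp⟩

theorem red_add {f g : R} (hf : Red φ u v1 v3 f) (hg : Red φ u v1 v3 g) :
    Red φ u v1 v3 (f + g) := by
  obtain ⟨N, a0, a1, a2, a3, a4, a5, ha⟩ := hf
  obtain ⟨M, b0, b1, b2, b3, b4, b5, hb⟩ := hg
  refine ⟨N + M, u ^ M * a0 + u ^ N * b0, u ^ M * a1 + u ^ N * b1, u ^ M * a2 + u ^ N * b2,
    u ^ M * a3 + u ^ N * b3, u ^ M * a4 + u ^ N * b4, u ^ M * a5 + u ^ N * b5, ?_⟩
  simp only [map_add, map_mul, map_pow, pow_add]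
  linear_combination φ u ^ M * ha + φ u ^ N * hb

theorem red_base_mul (b : B) {f : R} (hf : Red φ u v1 v3 f) : Red φ u v1 v3 (φ b * f) := by
  obtain ⟨N, a0, a1, a2, a3, a4, a5, ha⟩ := hf
  refine ⟨N, b * a0, b * a1, b * a2, b * a3, b * a4, b * a5, ?_⟩
  simp only [map_mul]
  linear_combination φ b * ha

theorem red_v1_mul (h1 : φ u * v1 ^ 2 = φ α) {f : R} (hf : Red φ u v1 v3 f) :
    Red φ u v1 v3 (v1 * f) := by
  obtain ⟨N, a0, a1, a2, a3, a4, a5, ha⟩ := hf
  refine ⟨N + 1, α * a3, α * a4, α * a5, u * a0, u * a1, u * a2, ?_⟩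
  simp only [map_mul, pow_succ]
  linear_combination φ u * v1 * ha + (φ a3 + φ a4 * v3 + φ a5 * v3 ^ 2) * h1

theorem red_v3_mul (h1 : φ u * v1 ^ 2 = φ α) (h3 : φ u * v3 ^ 3 = φ β + v1 * φ γ) {f : R}
    (hf : Red φ u v1 v3 f) : Red φ u v1 v3 (v3 * f) := by
  obtain ⟨N, a0, a1, a2, a3, a4, a5, ha⟩ := hf
  refine ⟨N + 2, u * a2 * β + a5 * γ * α, u ^ 2 * a0, u ^ 2 * a1, u * a2 * γ + u * a5 * β,
    u ^ 2 * a3, u ^ 2 * a4, ?_⟩
  simp only [map_add, map_mul, map_pow, pow_add]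
  linear_combination φ u ^ 2 * v3 * ha + (φ u * φ a2 + φ u * φ a5 * v1) * h3 + φ a5 * φ γ * h1

end red

/-- The inclusion of the polynomial ring in the two base variables `X 0`, `X 2`. -/
noncomputable def bs : MvPolynomial (Fin 2) ℂ →ₐ[ℂ] MvPolynomial (Fin 4) ℂ :=
  rename ![0, 2]

theorem bs_X0 : bs (X 0) = X 0 := by simp [bs]
theorem bs_X1 : bs (X 1) = X 2 := by simp [bs]

/-- The two relations `u X1^2 = α`, `u X3^3 = β + X1 γ`. -/
noncomputable def rel (u α β γ : MvPolynomial (Fin 2) ℂ) : Fin 2 → MvPolynomial (Fin 4) ℂ :=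
  ![bs u * X 1 ^ 2 - bs α, bs u * X 3 ^ 3 - (bs β + X 1 * bs γ)]

/-- Every polynomial reduces modulo the relations. -/
theorem red_all (u α β γ : MvPolynomial (Fin 2) ℂ) (f : MvPolynomial (Fin 4) ℂ) :
    Red ((Ideal.Quotient.mk (Ideal.span (Set.range (rel u α β γ)))).comp bs.toRingHom) u
      (Ideal.Quotient.mk _ (X 1)) (Ideal.Quotient.mk _ (X 3))
      (Ideal.Quotient.mk (Ideal.span (Set.range (rel u α β γ))) f) := by
  set I := Ideal.span (Set.range (rel u α β γ)) with hI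
  set φ := (Ideal.Quotient.mk I).comp bs.toRingHom with hφ
  have h1 : φ u * (Ideal.Quotient.mk I (X 1)) ^ 2 = φ α := by
    rw [← sub_eq_zero]
    have : Ideal.Quotient.mk I (bs u * X 1 ^ 2 - bs α) = 0 :=
      Ideal.Quotient.eq_zero_iff_mem.mpr (Ideal.subset_span ⟨0, rfl⟩)
    simpa [hφ] using this
  have h3 : φ u * (Ideal.Quotient.mk I (X 3)) ^ 3 = φ β + Ideal.Quotient.mk I (X 1) * φ γ := by
    rw [← sub_eq_zero]
    have : Ideal.Quotient.mk I (bs u * X 3 ^ 3 - (bs β + X 1 * bs γ)) = 0 :=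
      Ideal.Quotient.eq_zero_iff_mem.mpr (Ideal.subset_span ⟨1, rfl⟩)
    simpa [hφ] using this
  have hX : ∀ (i : Fin 4) (g : MvPolynomial (Fin 4) ℂ),
      Red φ u (Ideal.Quotient.mk I (X 1)) (Ideal.Quotient.mk I (X 3)) (Ideal.Quotient.mk I g) →
      Red φ u (Ideal.Quotient.mk I (X 1)) (Ideal.Quotient.mk I (X 3))
        (Ideal.Quotient.mk I (X i) * Ideal.Quotient.mk I g) := by
    intro i g hg
    fin_cases i
    · have h := red_base_mul (φ := φ) (X 0) hg
      have h' : φ (X 0) = Ideal.Quotient.mk I (X 0) := by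
        show Ideal.Quotient.mk I (bs (X 0)) = _
        rw [bs_X0]
      rw [h'] at h
      exact h
    · exact red_v1_mul h1 hg
    · have h := red_base_mul (φ := φ) (X 1) hg
      have h' : φ (X 1) = Ideal.Quotient.mk I (X 2) := by
        show Ideal.Quotient.mk I (bs (X 1)) = _
        rw [bs_X1]
      rw [h'] at h
      exact h
    · exact red_v3_mul h1 h3 hg
  induction f using MvPolynomial.induction_on with
  | C a =>
    have h := red_base (φ := φ) (u := u) (v1 := Ideal.Quotient.mk I (X 1))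
      (v3 := Ideal.Quotient.mk I (X 3)) (C a)
    have h' : φ (C a) = Ideal.Quotient.mk I (C a) := by
      show Ideal.Quotient.mk I (bs (C a)) = _
      simp [bs]
    rwa [h'] at h
  | add p q hp hq =>
    rw [map_add]
    exact red_add hp hq
  | mul_X p i hp =>
    rw [mul_comm p, map_mul]
    exact hX i p hp

/-- The kernel of the evaluation at a point of the surface is generated by the two relations. -/
theorem ker_eq {K : Type} [Field K] [Algebra ℂ K] (u α β γ : MvPolynomial (Fin 2) ℂ)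
    (w : MvPolynomial (Fin 4) ℂ) (hw : bs u * w - 1 ∈ Ideal.span (Set.range (rel u α β γ)))
    (ρ : MvPolynomial (Fin 4) ℂ →ₐ[ℂ] K) (hρ : ∀ i, ρ (rel u α β γ i) = 0)
    (hinj : ∀ b, ρ (bs b) = 0 → b = 0) (F : IntermediateField ℂ K) (hF : ∀ b, ρ (bs b) ∈ F)
    (hli : LinearIndependent F fun p : Fin 2 × Fin 3 =>
      ρ (X 1) ^ (p.1 : ℕ) * ρ (X 3) ^ (p.2 : ℕ)) :
    RingHom.ker ρ = Ideal.span (Set.range (rel u α β γ)) := by
  have hle : Ideal.span (Set.range (rel u α β γ)) ≤ RingHom.ker ρ := by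
    rw [Ideal.span_le]
    rintro _ ⟨i, rfl⟩
    exact hρ i
  refine le_antisymm ?_ hle
  intro f hf
  obtain ⟨N, a0, a1, a2, a3, a4, a5, ha⟩ := red_all u α β γ f
  have hmem : bs u ^ N * f - (bs a0 + bs a1 * X 3 + bs a2 * X 3 ^ 2 +
      X 1 * (bs a3 + bs a4 * X 3 + bs a5 * X 3 ^ 2)) ∈
      Ideal.span (Set.range (rel u α β γ)) := by
    rw [← Ideal.Quotient.eq_zero_iff_mem]
    rw [← sub_eq_zero] at ha
    simpa using ha
  have h0 : ρ (bs a0) + ρ (bs a1) * ρ (X 3) + ρ (bs a2) * ρ (X 3) ^ 2 +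
      ρ (X 1) * (ρ (bs a3) + ρ (bs a4) * ρ (X 3) + ρ (bs a5) * ρ (X 3) ^ 2) = 0 := by
    have h1 := hle hmem
    rw [RingHom.mem_ker] at h1 hf
    simp only [map_sub, map_mul, map_pow, map_add, hf, mul_zero, zero_sub, neg_eq_zero] at h1
    exact h1
  have hc := Fintype.linearIndependent_iff.mp hli
    (fun p : Fin 2 × Fin 3 => ⟨ρ (bs (![![a0, a1, a2], ![a3, a4, a5]] p.1 p.2)), hF _⟩) (by
      rw [Fintype.sum_prod_type]
      simp only [Fin.sum_univ_two, Fin.sum_univ_three, Algebra.smul_def,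
        IntermediateField.algebraMap_apply]
      simp only [Matrix.cons_val_zero, Matrix.cons_val_one, Matrix.cons_val, Fin.val_zero,
        Fin.val_one, Fin.val_two, pow_zero, pow_one, mul_one, one_mul]
      linear_combination h0)
  have hz : ∀ (i : Fin 2) (j : Fin 3), (![![a0, a1, a2], ![a3, a4, a5]] i j) = 0 := by
    intro i j
    refine hinj _ ?_
    have := hc (i, j)
    exact congrArg Subtype.val this
  have e0 := hz 0 0
  have e1 := hz 0 1
  have e2 := hz 0 2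
  have e3 := hz 1 0
  have e4 := hz 1 1
  have e5 := hz 1 2
  simp only [Matrix.cons_val_zero, Matrix.cons_val_one, Matrix.cons_val] at e0 e1 e2 e3 e4 e5
  subst e0 e1 e2 e3 e4 e5
  simp only [map_zero, zero_mul, mul_zero, add_zero, sub_zero] at hmem
  rw [← Ideal.Quotient.eq_zero_iff_mem] at hmem hw ⊢
  have hw' : Ideal.Quotient.mk (Ideal.span (Set.range (rel u α β γ))) (bs u * w) = 1 := by
    rw [map_sub, map_one, sub_eq_zero] at hw
    exact hw
  have h2 : Ideal.Quotient.mk (Ideal.span (Set.range (rel u α β γ))) f =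
      Ideal.Quotient.mk _ ((bs u * w) ^ N) * Ideal.Quotient.mk _ f := by
    rw [map_pow, hw', one_pow, one_mul]
  rw [h2, ← map_mul, mul_pow, mul_assoc, mul_comm (w ^ N) f, ← mul_assoc, map_mul, hmem, zero_mul]

noncomputable def kerRange {R A B : Type} [CommRing R] [CommRing A] [CommRing B] [Algebra R A]
    [Algebra R B] (f : A →ₐ[R] B) : (A ⧸ RingHom.ker f) ≃ₐ[R] f.range :=
  Ideal.quotientKerEquivRange f

noncomputable def kerAdj {R A B : Type} [CommRing R] [CommRing A] [CommRing B] [Algebra R A]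
    [Algebra R B] (f : A →ₐ[R] B) (I : Ideal A) (hI : RingHom.ker f = I) (S : Subalgebra R B)
    (hS : f.range = S) : (A ⧸ I) ≃ₐ[R] S :=
  (Ideal.quotientEquivAlgOfEq R hI.symm).trans ((kerRange f).trans (Subalgebra.equivOfEq _ _ hS))

/-- The presented ring is the subalgebra generated by the values of the variables. -/
theorem pres_equiv {K : Type} [Field K] [Algebra ℂ K] (u α β γ : MvPolynomial (Fin 2) ℂ)
    (w : MvPolynomial (Fin 4) ℂ) (hw : bs u * w - 1 ∈ Ideal.span (Set.range (rel u α β γ)))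
    (v : Fin 4 → K) (hρ : ∀ i, aeval v (rel u α β γ i) = 0)
    (hind : AlgebraicIndependent ℂ ![v 0, v 2]) (F : IntermediateField ℂ K)
    (h0 : v 0 ∈ F) (h2 : v 2 ∈ F)
    (hli : LinearIndependent F fun p : Fin 2 × Fin 3 => v 1 ^ (p.1 : ℕ) * v 3 ^ (p.2 : ℕ)) :
    Nonempty ((MvPolynomial (Fin 4) ℂ ⧸ Ideal.span (Set.range (rel u α β γ))) ≃ₐ[ℂ]
      Algebra.adjoin ℂ (Set.range v)) := by
  have hb : ∀ b : MvPolynomial (Fin 2) ℂ, aeval v (bs b) = aeval ![v 0, v 2] b := by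
    intro b
    rw [bs, aeval_rename]
    congr 2
    funext i
    fin_cases i <;> rfl
  have hker := ker_eq u α β γ w hw (aeval v) hρ (fun b hb' => by
      rw [hb] at hb'
      exact hind.eq_zero_of_aeval_eq_zero b hb') F (fun b => by
      rw [hb]
      have : aeval ![v 0, v 2] b ∈ Algebra.adjoin ℂ (Set.range ![v 0, v 2]) := by
        rw [Algebra.adjoin_range_eq_range_aeval]
        exact ⟨b, rfl⟩
      refine (Algebra.adjoin_le (S := F.toSubalgebra) ?_) this
      rintro _ ⟨i, rfl⟩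
      fin_cases i
      · exact h0
      · exact h2) (by simpa only [aeval_X] using hli)
  exact ⟨kerAdj _ _ hker _ (Algebra.adjoin_range_eq_range_aeval ℂ v).symm⟩

end M21.XP
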