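import Mathlib

/-!
# M21 (Theorem X'): rational functions satisfying `s² = r³ + 1` or `y³ = α x⁶ + β x³ + γ` are
constant
-/

open Polynomial

namespace M21.XP

/-- coprime `u`, `v` with `u³ - h v³ = c g³` are constant -/
theorem cube_const {u v g : ℂ[X]} {h c : ℂ} (huv : IsCoprime u v) (hh : h ≠ 0) (hc : c ≠ 0)
    (heq : u ^ 3 - C h * v ^ 3 = C c * g ^ 3) : u.natDegree = 0 ∧ v.natDegree = 0 := by
  by_cases hu : u = 0
  · subst hu
    rw [isCoprime_zero_left] at huv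
    exact ⟨natDegree_zero, natDegree_eq_zero_of_isUnit huv⟩
  by_cases hv : v = 0
  · subst hv
    rw [isCoprime_zero_right] at huv
    exact ⟨natDegree_eq_zero_of_isUnit huv, natDegree_zero⟩
  by_cases hg : g = 0
  · subst hg
    have h1 : u ^ 3 = C h * v ^ 3 := by
      have : C c * (0 : ℂ[X]) ^ 3 = 0 := by ring
      rw [this, sub_eq_zero] at heq
      exact heq
    have hu1 : IsUnit (u ^ 3) := by
      have h2 : IsCoprime (u ^ 3) (v ^ 3) := huv.pow
      have h3 : IsCoprime (u ^ 3) (C h * v ^ 3) :=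
        (isCoprime_mul_unit_left_right (isUnit_C.mpr hh.isUnit) _ _).mpr h2
      rw [← h1] at h3
      exact isCoprime_self.mp h3
    have hu2 : IsUnit u := (isUnit_pow_iff (by norm_num)).mp hu1
    have hv1 : IsUnit (v ^ 3) := by
      rw [h1] at hu1
      exact isUnit_of_mul_isUnit_right hu1
    have hv2 : IsUnit v := (isUnit_pow_iff (by norm_num)).mp hv1
    exact ⟨natDegree_eq_zero_of_isUnit hu2, natDegree_eq_zero_of_isUnit hv2⟩
  have key := Polynomial.flt_catalan (k := ℂ) (p := 3) (q := 3) (r := 3) (by norm_num)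
    (by norm_num) (by norm_num) (by norm_num) (by norm_num) (by norm_num) (by norm_num)
    hu hv hg huv (u := 1) (v := -h) (w := -c) one_ne_zero (neg_ne_zero.mpr hh)
    (neg_ne_zero.mpr hc) (by
      rw [C_neg, C_neg, C_1]
      linear_combination heq)
  exact ⟨key.1, key.2.1⟩

/-- an element of `ℂ(t)` whose cube is a polynomial is a polynomial -/
theorem exists_of_pow {n : ℕ} (hn : 0 < n) {z : RatFunc ℂ} {p : ℂ[X]}
    (h : z ^ n = algebraMap ℂ[X] (RatFunc ℂ) p) : ∃ q : ℂ[X], algebraMap ℂ[X] (RatFunc ℂ) q = z := by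
  refine IsIntegrallyClosed.exists_algebraMap_eq_of_isIntegral_pow hn ?_
  rw [h]
  exact isIntegral_algebraMap

theorem algebraMap_inj {p q : ℂ[X]} (h : algebraMap ℂ[X] (RatFunc ℂ) p = algebraMap _ _ q) :
    p = q := RatFunc.algebraMap_injective ℂ h

/-- coprime `u`, `v` with `w³ = (u³ - h v³)(a u³ + b v³)` are constant -/
theorem quad_const {u v w : ℂ[X]} {h a b : ℂ} (huv : IsCoprime u v) (hh : h ≠ 0)
    (hab : ¬ (a = 0 ∧ b = 0))
    (heq : w ^ 3 = (u ^ 3 - C h * v ^ 3) * (C a * u ^ 3 + C b * v ^ 3)) :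
    u.natDegree = 0 ∧ v.natDegree = 0 := by
  have huv3 : IsCoprime (u ^ 3) (v ^ 3) := huv.pow
  by_cases hd : b + h * a = 0
  · -- double root
    have hb : b = - (h * a) := by linear_combination hd
    have ha : a ≠ 0 := by
      intro ha
      apply hab
      rw [ha] at hb
      exact ⟨ha, by rw [hb]; ring⟩
    have h1 : w ^ 3 = C a * (u ^ 3 - C h * v ^ 3) ^ 2 := by
      rw [heq, hb]
      simp only [C_neg, C_mul]
      ring
    by_cases hA : u ^ 3 - C h * v ^ 3 = 0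
    · exact cube_const huv hh one_ne_zero (g := 0) (by rw [hA]; ring)
    have hw : w ≠ 0 := by
      rintro rfl
      have : C a * (u ^ 3 - C h * v ^ 3) ^ 2 = 0 := by rw [← h1]; ring
      rw [mul_eq_zero] at this
      rcases this with h2 | h2
      · exact ha (C_eq_zero.mp h2)
      · exact hA (pow_eq_zero_iff (by norm_num) |>.mp h2)
    let K := RatFunc ℂ
    let z : RatFunc ℂ := algebraMap ℂ[X] _ (u ^ 3 - C h * v ^ 3) / algebraMap ℂ[X] _ w
    have hw' : algebraMap ℂ[X] (RatFunc ℂ) w ≠ 0 := by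
      intro h2
      apply hw
      apply algebraMap_inj
      rw [h2, map_zero]
    have hA' : algebraMap ℂ[X] (RatFunc ℂ) (u ^ 3 - C h * v ^ 3) ≠ 0 := by
      intro h2
      apply hA
      apply algebraMap_inj
      rw [h2, map_zero]
    have ha' : algebraMap ℂ[X] (RatFunc ℂ) (C a) ≠ 0 := by
      intro h2
      apply ha
      apply C_eq_zero.mp
      apply algebraMap_inj
      rw [h2, map_zero]
    have h1' := congrArg (algebraMap ℂ[X] (RatFunc ℂ)) h1
    rw [map_pow, map_mul, map_pow] at h1'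
    have hainv : algebraMap ℂ[X] (RatFunc ℂ) (C a⁻¹) * algebraMap ℂ[X] (RatFunc ℂ) (C a) = 1 := by
      rw [← map_mul, ← C_mul, inv_mul_cancel₀ ha, C_1, map_one]
    have hz : z ^ 3 = algebraMap ℂ[X] (RatFunc ℂ) (C a⁻¹ * (u ^ 3 - C h * v ^ 3)) := by
      simp only [z]
      rw [div_pow, h1', map_mul, div_eq_iff (mul_ne_zero ha' (pow_ne_zero 2 hA'))]
      linear_combination (-(algebraMap ℂ[X] (RatFunc ℂ) (u ^ 3 - C h * v ^ 3)) ^ 3) * hainv
    obtain ⟨g, hg⟩ := exists_of_pow (by norm_num) hz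
    rw [← hg, ← map_pow] at hz
    have hz' := algebraMap_inj hz
    refine cube_const huv hh ha (g := g) ?_
    rw [hz', ← mul_assoc, ← C_mul, mul_inv_cancel₀ ha, C_1, one_mul]
  · -- coprime factors
    have hcop : IsCoprime (u ^ 3 - C h * v ^ 3) (C a * u ^ 3 + C b * v ^ 3) := by
      obtain ⟨m, n, hmn⟩ := huv3
      have hd' : C (b + h * a)⁻¹ * C (b + h * a) = (1 : ℂ[X]) := by
        rw [← C_mul, inv_mul_cancel₀ hd, C_1]
      refine ⟨C (b + h * a)⁻¹ * (m * C b - n * C a), C (b + h * a)⁻¹ * (m * C h + n), ?_⟩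
      have h2 : C (b + h * a)⁻¹ * (m * C b - n * C a) * (u ^ 3 - C h * v ^ 3) +
          C (b + h * a)⁻¹ * (m * C h + n) * (C a * u ^ 3 + C b * v ^ 3) =
          (C (b + h * a)⁻¹ * C (b + h * a)) * (m * u ^ 3 + n * v ^ 3) := by
        simp only [C_add, C_mul]
        ring
      rw [h2, hd', hmn, one_mul]
    obtain ⟨g, hg⟩ := exists_associated_pow_of_mul_eq_pow' hcop heq.symm
    obtain ⟨⟨c, c', hcc, hcc'⟩, hgc⟩ := hg
    simp only at hgc
    have hcu : IsUnit c := ⟨⟨c, c', hcc, hcc'⟩, rfl⟩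
    obtain ⟨c0, hc0, rfl⟩ := Polynomial.isUnit_iff.mp hcu
    refine cube_const huv hh hc0.ne_zero (g := g) ?_
    rw [← hgc]
    ring

/-- a rational function algebraic over `ℂ` in the form `z ^ n = const` is constant -/
theorem const_of_pow {n : ℕ} (hn : 0 < n) {z : RatFunc ℂ} {c : ℂ} (h : z ^ n = RatFunc.C c) :
    ∃ z0 : ℂ, z = RatFunc.C z0 := by
  obtain ⟨c0, hc0⟩ := IsAlgClosed.exists_pow_nat_eq c hn
  obtain ⟨q, hq⟩ := exists_of_pow (p := C c) hn (by rw [h]; rfl)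
  rw [← hq, ← map_pow] at h
  have h2 : q ^ n = C c := algebraMap_inj h
  have h3 : q.natDegree = 0 := by
    have := congrArg natDegree h2
    rw [natDegree_pow, natDegree_C] at this
    rcases Nat.mul_eq_zero.mp this with h4 | h4
    · omega
    · exact h4
  rw [natDegree_eq_zero] at h3
  obtain ⟨z0, hz0⟩ := h3
  exact ⟨z0, by rw [← hq, ← hz0]; rfl⟩

theorem div_const {u v : ℂ[X]} (hu : u.natDegree = 0) (hv : v.natDegree = 0) :
    ∃ x0 : ℂ, algebraMap ℂ[X] (RatFunc ℂ) u / algebraMap ℂ[X] (RatFunc ℂ) v = RatFunc.C x0 := by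
  rw [natDegree_eq_zero] at hu hv
  obtain ⟨a, rfl⟩ := hu
  obtain ⟨b, rfl⟩ := hv
  refine ⟨a / b, ?_⟩
  rw [map_div₀]
  rfl

/-- `y³ = α x⁶ + β x³ + γ` in `ℂ(t)` implies that `x` and `y` are constant, if
`α h² + β h + γ = 0` for some `h ≠ 0` and `α`, `β` are not both zero. -/
theorem rat_S {x y : RatFunc ℂ} {α β γ h : ℂ} (hh : h ≠ 0) (hroot : α * h ^ 2 + β * h + γ = 0)
    (hne : ¬ (α = 0 ∧ β = 0))
    (heq : y ^ 3 = RatFunc.C α * x ^ 6 + RatFunc.C β * x ^ 3 + RatFunc.C γ) :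
    ∃ x0 y0 : ℂ, x = RatFunc.C x0 ∧ y = RatFunc.C y0 := by
  have hv : algebraMap ℂ[X] (RatFunc ℂ) x.denom ≠ 0 := by
    intro h2
    exact x.denom_ne_zero (algebraMap_inj (by rw [h2, map_zero]))
  have hx : algebraMap ℂ[X] (RatFunc ℂ) x.num / algebraMap ℂ[X] (RatFunc ℂ) x.denom = x :=
    RatFunc.num_div_denom x
  have hxm : x * algebraMap ℂ[X] (RatFunc ℂ) x.denom = algebraMap ℂ[X] (RatFunc ℂ) x.num := by
    nth_rewrite 1 [← hx]
    rw [div_mul_cancel₀ _ hv]
  have hCα : ∀ c : ℂ, (RatFunc.C c : RatFunc ℂ) = algebraMap ℂ[X] (RatFunc ℂ) (C c) := fun c => rfl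
  have h1 : (y * algebraMap ℂ[X] (RatFunc ℂ) x.denom ^ 2) ^ 3 = algebraMap ℂ[X] (RatFunc ℂ)
      (C α * x.num ^ 6 + C β * x.num ^ 3 * x.denom ^ 3 + C γ * x.denom ^ 6) := by
    simp only [map_add, map_mul, map_pow]
    rw [← hxm, ← hCα, ← hCα, ← hCα, mul_pow, heq]
    ring
  obtain ⟨w, hw⟩ := exists_of_pow (by norm_num) h1
  rw [← hw, ← map_pow] at h1
  have h2 := algebraMap_inj h1
  have h3 := quad_const (u := x.num) (v := x.denom) (w := w) (h := h) (a := α) (b := β + α * h)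
    x.isCoprime_num_denom hh (by
      rintro ⟨ha, hb⟩
      rw [ha] at hb
      exact hne ⟨ha, by linear_combination hb⟩) (by
      rw [h2]
      have hγ : C γ = - (C α * C h ^ 2 + C β * C h) := by
        rw [← C_pow, ← C_mul, ← C_mul, ← C_add, ← C_neg]
        congr 1
        linear_combination hroot
      rw [hγ]
      simp only [C_add, C_mul]
      ring)
  obtain ⟨x0, hx0⟩ := div_const h3.1 h3.2
  rw [hx] at hx0
  subst hx0
  obtain ⟨y0, hy0⟩ := const_of_pow (n := 3) (by norm_num) (z := y)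
    (c := α * x0 ^ 6 + β * x0 ^ 3 + γ) (by
      rw [heq]
      simp only [map_add, map_mul, map_pow])
  exact ⟨x0, y0, rfl, hy0⟩

/-- `s² = r³ + 1` in `ℂ(t)` implies that `r` and `s` are constant. -/
theorem rat_E {r s : RatFunc ℂ} (heq : s ^ 2 = r ^ 3 + 1) :
    ∃ r0 s0 : ℂ, r = RatFunc.C r0 ∧ s = RatFunc.C s0 := by
  have hd0 : algebraMap ℂ[X] (RatFunc ℂ) r.denom ≠ 0 := by
    intro h2
    exact r.denom_ne_zero (algebraMap_inj (by rw [h2, map_zero]))
  have hr : algebraMap ℂ[X] (RatFunc ℂ) r.num / algebraMap ℂ[X] (RatFunc ℂ) r.denom = r :=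
    RatFunc.num_div_denom r
  have hrm : r * algebraMap ℂ[X] (RatFunc ℂ) r.denom = algebraMap ℂ[X] (RatFunc ℂ) r.num := by
    nth_rewrite 1 [← hr]
    rw [div_mul_cancel₀ _ hd0]
  have h1 : (s * algebraMap ℂ[X] (RatFunc ℂ) r.denom ^ 2) ^ 2 = algebraMap ℂ[X] (RatFunc ℂ)
      (r.denom * (r.num ^ 3 + r.denom ^ 3)) := by
    simp only [map_add, map_mul, map_pow]
    rw [← hrm, mul_pow, heq]
    ring
  obtain ⟨w, hw⟩ := exists_of_pow (by norm_num) h1
  rw [← hw, ← map_pow] at h1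
  have h2 := algebraMap_inj h1
  have hcop0 : IsCoprime r.num r.denom := r.isCoprime_num_denom
  have hcop : IsCoprime r.denom (r.num ^ 3 + r.denom ^ 3) := by
    have h3 : IsCoprime r.denom (r.num ^ 3) := (hcop0.pow_left (m := 3)).symm
    have h4 : IsCoprime r.denom (r.num ^ 3 + r.denom * r.denom ^ 2) :=
      IsCoprime.add_mul_left_right h3 _
    have h5 : r.num ^ 3 + r.denom * r.denom ^ 2 = r.num ^ 3 + r.denom ^ 3 := by ring
    rwa [h5] at h4
  obtain ⟨d, hd⟩ := exists_associated_pow_of_mul_eq_pow' hcop h2.symm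
  obtain ⟨b, hb⟩ := exists_associated_pow_of_mul_eq_pow' hcop.symm (by
    rw [mul_comm]; exact h2.symm)
  obtain ⟨⟨c, c', hcc, hcc'⟩, hdc⟩ := hd
  obtain ⟨⟨e, e', hee, hee'⟩, hbe⟩ := hb
  simp only at hdc hbe
  have hcu : IsUnit c := ⟨⟨c, c', hcc, hcc'⟩, rfl⟩
  have heu : IsUnit e := ⟨⟨e, e', hee, hee'⟩, rfl⟩
  obtain ⟨c0, hc0, rfl⟩ := Polynomial.isUnit_iff.mp hcu
  obtain ⟨e0, he0, rfl⟩ := Polynomial.isUnit_iff.mp heu
  have hfin : r.num.natDegree = 0 ∧ r.denom.natDegree = 0 → ∃ r0 s0 : ℂ,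
      r = RatFunc.C r0 ∧ s = RatFunc.C s0 := by
    rintro ⟨h3, h4⟩
    obtain ⟨r0, hr0⟩ := div_const h3 h4
    rw [hr] at hr0
    obtain ⟨s0, hs0⟩ := const_of_pow (n := 2) (by norm_num) (z := s) (c := r0 ^ 3 + 1) (by
      rw [heq, hr0]
      simp only [map_add, map_pow, map_one])
    exact ⟨r0, s0, hr0, hs0⟩
  apply hfin
  by_cases hnum : r.num = 0
  · rw [hnum, isCoprime_zero_left] at hcop0
    exact ⟨by rw [hnum]; exact natDegree_zero, natDegree_eq_zero_of_isUnit hcop0⟩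
  have hdne : d ≠ 0 := by
    rintro rfl
    apply r.denom_ne_zero
    rw [← hdc]
    ring
  by_cases hbne : b = 0
  · have h3 : r.num ^ 3 + r.denom ^ 3 = 0 := by
      rw [← hbe, hbne]
      ring
    rw [h3] at hcop
    rw [isCoprime_zero_right] at hcop
    have h4 : IsUnit (r.num ^ 3) := by
      have h5 : r.num ^ 3 = - r.denom ^ 3 := by linear_combination h3
      rw [h5]
      exact (hcop.pow 3).neg
    exact ⟨natDegree_eq_zero_of_isUnit ((isUnit_pow_iff (by norm_num)).mp h4),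
      natDegree_eq_zero_of_isUnit hcop⟩
  have hcopd : IsCoprime r.num d := by
    rw [← hdc] at hcop0
    exact (IsCoprime.pow_right_iff (by norm_num)).mp
      ((isCoprime_mul_unit_right_right hcu _ _).mp hcop0)
  have key := Polynomial.flt_catalan (k := ℂ) (p := 3) (q := 6) (r := 2) (by norm_num)
    (by norm_num) (by norm_num) (by norm_num) (by norm_num) (by norm_num) (by norm_num)
    hnum hdne hbne hcopd (u := 1) (v := c0 ^ 3) (w := - e0) one_ne_zero
    (pow_ne_zero 3 hc0.ne_zero) (neg_ne_zero.mpr he0.ne_zero) (by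
      rw [C_neg, C_pow, C_1]
      have h3 : r.denom ^ 3 = C c0 ^ 3 * d ^ 6 := by
        rw [← hdc]
        ring
      have h4 : r.num ^ 3 + r.denom ^ 3 = b ^ 2 * C e0 := hbe.symm
      rw [h3] at h4
      linear_combination h4)
  refine ⟨key.1, ?_⟩
  rw [← hdc, natDegree_mul_C_of_isUnit hc0 , natDegree_pow, key.2.1]

end M21.XP
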