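import Pool.Agent.H.MP_21b43d_ag.XP.Rat1

/-!
# M21 (Theorem X'): the four charts have only constant rational curves

`A = ℂ[r, s, x, y]`, `A' = ℂ[r, s, x', y']`, `B = ℂ[c, e, x, y]`, `B' = ℂ[c, e, x', y']`.
-/

open Polynomial

namespace M21.XP

/-- a nonzero root of `α h² + β h + γ` -/
theorem exists_root {α β γ : ℂ} (h1 : α ≠ 0 ∨ β ≠ 0) (h2 : γ ≠ 0 ∨ (α ≠ 0 ∧ β ≠ 0)) :
    ∃ h : ℂ, h ≠ 0 ∧ α * h ^ 2 + β * h + γ = 0 := by
  by_cases hα : α = 0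
  · have hβ : β ≠ 0 := by
      rcases h1 with h | h
      · exact absurd hα h
      · exact h
    have hγ : γ ≠ 0 := by
      rcases h2 with h | h
      · exact h
      · exact absurd hα h.1
    refine ⟨- γ / β, div_ne_zero (neg_ne_zero.mpr hγ) hβ, ?_⟩
    rw [hα]
    field_simp
    ring
  · by_cases hγ : γ = 0
    · have hβ : β ≠ 0 := by
        rcases h2 with h | h
        · exact absurd hγ h
        · exact h.2
      refine ⟨- β / α, div_ne_zero (neg_ne_zero.mpr hβ) hα, ?_⟩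
      rw [hγ]
      field_simp
      ring
    · obtain ⟨d, hd⟩ := IsAlgClosed.exists_pow_nat_eq (β ^ 2 - 4 * α * γ) (n := 2) (by norm_num)
      have h3 : α * ((d - β) / (2 * α)) ^ 2 + β * ((d - β) / (2 * α)) + γ = 0 := by
        field_simp
        linear_combination hd
      refine ⟨(d - β) / (2 * α), ?_, h3⟩
      intro h4
      rw [h4] at h3
      apply hγ
      linear_combination h3

theorem C_inj {a b : ℂ} (h : (RatFunc.C a : RatFunc ℂ) = RatFunc.C b) : a = b :=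
  RatFunc.C.injective h

/-- chart `A` -/
theorem rat_A {r s x y : RatFunc ℂ} (hE : s ^ 2 = r ^ 3 + 1)
    (hS : y ^ 3 = s * (x ^ 6 + 1) + (x ^ 3 + 2)) :
    ∃ r0 s0 x0 y0 : ℂ, r = RatFunc.C r0 ∧ s = RatFunc.C s0 ∧ x = RatFunc.C x0 ∧
      y = RatFunc.C y0 := by
  obtain ⟨r0, s0, rfl, rfl⟩ := rat_E hE
  obtain ⟨h, hh, hroot⟩ := exists_root (α := s0) (β := 1) (γ := s0 + 2) (Or.inr one_ne_zero) (by
    by_cases hs : s0 = 0
    · left
      rw [hs]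
      norm_num
    · exact Or.inr ⟨hs, one_ne_zero⟩)
  obtain ⟨x0, y0, rfl, rfl⟩ := rat_S (x := x) (y := y) hh hroot (by simp) (by
    rw [hS, map_add, map_one, map_ofNat]
    ring)
  exact ⟨r0, s0, x0, y0, rfl, rfl, rfl, rfl⟩

/-- chart `A'` -/
theorem rat_A' {r s x y : RatFunc ℂ} (hE : s ^ 2 = r ^ 3 + 1)
    (hS : y ^ 3 = s * (1 + x ^ 6) + (x ^ 3 + 2 * x ^ 6)) :
    ∃ r0 s0 x0 y0 : ℂ, r = RatFunc.C r0 ∧ s = RatFunc.C s0 ∧ x = RatFunc.C x0 ∧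
      y = RatFunc.C y0 := by
  obtain ⟨r0, s0, rfl, rfl⟩ := rat_E hE
  obtain ⟨h, hh, hroot⟩ := exists_root (α := s0 + 2) (β := 1) (γ := s0) (Or.inr one_ne_zero) (by
    by_cases hs : s0 = 0
    · right
      rw [hs]
      norm_num
    · exact Or.inl hs)
  obtain ⟨x0, y0, rfl, rfl⟩ := rat_S (x := x) (y := y) hh hroot (by simp) (by
    rw [hS, map_add, map_one, map_ofNat]
    ring)
  exact ⟨r0, s0, x0, y0, rfl, rfl, rfl, rfl⟩

/-- the curve in the chart at infinity -/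
theorem rat_E' {c e : RatFunc ℂ} (hE : c ^ 2 * (1 + e ^ 3) = e) :
    ∃ c0 e0 : ℂ, c = RatFunc.C c0 ∧ e = RatFunc.C e0 ∧ c0 ^ 2 * (1 + e0 ^ 3) = e0 := by
  suffices h : ∃ c0 e0 : ℂ, c = RatFunc.C c0 ∧ e = RatFunc.C e0 by
    obtain ⟨c0, e0, rfl, rfl⟩ := h
    refine ⟨c0, e0, rfl, rfl, C_inj ?_⟩
    rw [map_mul, map_pow, map_add, map_one, map_pow]
    exact hE
  by_cases he : e = 0
  · subst he
    have hc : c = 0 := by
      have h1 : c ^ 2 = 0 := by linear_combination hE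
      exact pow_eq_zero_iff (by norm_num) |>.mp h1
    exact ⟨0, 0, by rw [hc, map_zero], by rw [map_zero]⟩
  · have hc : c ≠ 0 := by
      rintro rfl
      apply he
      linear_combination -hE
    have h1 : (c * e)⁻¹ ^ 2 = e⁻¹ ^ 3 + 1 := by
      field_simp
      linear_combination -hE
    obtain ⟨r0, s0, hr, hs⟩ := rat_E h1
    have he' : e = RatFunc.C r0⁻¹ := by
      rw [map_inv₀, ← hr, inv_inv]
    have hce : c * e = RatFunc.C s0⁻¹ := by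
      rw [map_inv₀, ← hs, inv_inv]
    refine ⟨s0⁻¹ * r0, r0⁻¹, ?_, he'⟩
    rw [map_mul, ← hce, ← hr, mul_assoc, mul_inv_cancel₀ he, mul_one]

/-- chart `B` -/
theorem rat_B {c e x y : RatFunc ℂ} (hE : c ^ 2 * (1 + e ^ 3) = e)
    (hS : (1 + e ^ 3) * y ^ 3 = (x ^ 6 + 1) + c * e * (x ^ 3 + 2)) :
    ∃ c0 e0 x0 y0 : ℂ, c = RatFunc.C c0 ∧ e = RatFunc.C e0 ∧ x = RatFunc.C x0 ∧
      y = RatFunc.C y0 := by
  obtain ⟨c0, e0, rfl, rfl, h0⟩ := rat_E' hE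
  have hl : (1 - c0 ^ 2 * e0 ^ 2) * (1 + e0 ^ 3) = 1 := by linear_combination (- e0 ^ 2) * h0
  have hl0 : 1 - c0 ^ 2 * e0 ^ 2 ≠ 0 := left_ne_zero_of_mul (by rw [hl]; exact one_ne_zero)
  obtain ⟨h, hh, hroot⟩ := exists_root (α := 1) (β := c0 * e0) (γ := 1 + 2 * (c0 * e0))
    (Or.inl one_ne_zero) (by
      by_cases hs : c0 * e0 = 0
      · left
        rw [hs]
        norm_num
      · exact Or.inr ⟨one_ne_zero, hs⟩)
  obtain ⟨x0, y0, rfl, rfl⟩ := rat_S (x := x) (y := y) (α := (1 - c0 ^ 2 * e0 ^ 2) * 1)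
    (β := (1 - c0 ^ 2 * e0 ^ 2) * (c0 * e0))
    (γ := (1 - c0 ^ 2 * e0 ^ 2) * (1 + 2 * (c0 * e0))) hh
    (by linear_combination (1 - c0 ^ 2 * e0 ^ 2) * hroot) (by simp [hl0]) (by
      have hl' := congrArg (RatFunc.C (K := ℂ)) hl
      simp only [map_mul, map_sub, map_add, map_pow, map_one, map_ofNat] at hl' ⊢
      linear_combination (1 - RatFunc.C c0 ^ 2 * RatFunc.C e0 ^ 2) * hS - y ^ 3 * hl')
  exact ⟨c0, e0, x0, y0, rfl, rfl, rfl, rfl⟩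

/-- chart `B'` -/
theorem rat_B' {c e x y : RatFunc ℂ} (hE : c ^ 2 * (1 + e ^ 3) = e)
    (hS : (1 + e ^ 3) * y ^ 3 = (1 + x ^ 6) + c * e * (x ^ 3 + 2 * x ^ 6)) :
    ∃ c0 e0 x0 y0 : ℂ, c = RatFunc.C c0 ∧ e = RatFunc.C e0 ∧ x = RatFunc.C x0 ∧
      y = RatFunc.C y0 := by
  obtain ⟨c0, e0, rfl, rfl, h0⟩ := rat_E' hE
  have hl : (1 - c0 ^ 2 * e0 ^ 2) * (1 + e0 ^ 3) = 1 := by linear_combination (- e0 ^ 2) * h0
  have hl0 : 1 - c0 ^ 2 * e0 ^ 2 ≠ 0 := left_ne_zero_of_mul (by rw [hl]; exact one_ne_zero)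
  have hne : 1 + 2 * (c0 * e0) ≠ 0 ∨ c0 * e0 ≠ 0 := by
    by_cases hs : c0 * e0 = 0
    · left
      rw [hs]
      norm_num
    · exact Or.inr hs
  obtain ⟨h, hh, hroot⟩ := exists_root (α := 1 + 2 * (c0 * e0)) (β := c0 * e0) (γ := 1)
    hne (Or.inl one_ne_zero)
  obtain ⟨x0, y0, rfl, rfl⟩ := rat_S (x := x) (y := y)
    (α := (1 - c0 ^ 2 * e0 ^ 2) * (1 + 2 * (c0 * e0)))
    (β := (1 - c0 ^ 2 * e0 ^ 2) * (c0 * e0))
    (γ := (1 - c0 ^ 2 * e0 ^ 2) * 1) hh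
    (by linear_combination (1 - c0 ^ 2 * e0 ^ 2) * hroot) (by
      rintro ⟨h1, h2⟩
      rcases hne with h3 | h3
      · exact mul_ne_zero hl0 h3 h1
      · exact mul_ne_zero hl0 h3 h2) (by
      have hl' := congrArg (RatFunc.C (K := ℂ)) hl
      simp only [map_mul, map_sub, map_add, map_pow, map_one, map_ofNat] at hl' ⊢
      linear_combination (1 - RatFunc.C c0 ^ 2 * RatFunc.C e0 ^ 2) * hS - y ^ 3 * hl')
  exact ⟨c0, e0, x0, y0, rfl, rfl, rfl, rfl⟩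

/-- A ring `R` with a homomorphism `i : ℂ → R` has only constant homomorphisms to `ℂ(t)`. -/
def OnlyConst {R : Type*} [CommRing R] (i : ℂ →+* R) : Prop :=
  ∀ φ : R →+* RatFunc ℂ, (∀ c, φ (i c) = RatFunc.C c) → ∀ a, ∃ c : ℂ, φ a = RatFunc.C c

/-- It is enough to know the values at generators. -/
theorem onlyConst_of_adjoin {R : Type*} [CommRing R] [Algebra ℂ R] {S : Set R}
    (hS : Algebra.adjoin ℂ S = ⊤)
    (h : ∀ φ : R →ₐ[ℂ] RatFunc ℂ, ∀ a ∈ S, ∃ c : ℂ, φ a = RatFunc.C c) :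
    OnlyConst (algebraMap ℂ R) := by
  intro φ hφ a
  let ψ : R →ₐ[ℂ] RatFunc ℂ := { φ with commutes' := hφ }
  have h1 : S ⊆ ((Algebra.ofId ℂ (RatFunc ℂ)).range.comap ψ : Subalgebra ℂ R) := by
    intro b hb
    obtain ⟨c, hc⟩ := h ψ b hb
    exact ⟨c, hc.symm⟩
  have h2 := Algebra.adjoin_le h1
  rw [hS] at h2
  obtain ⟨c, hc⟩ := h2 (x := a) trivial
  exact ⟨c, hc.symm⟩

theorem OnlyConst.of_equiv {R R' : Type*} [CommRing R] [CommRing R'] {i : ℂ →+* R}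
    {i' : ℂ →+* R'} (h : OnlyConst i) (e : R ≃+* R') (he : ∀ c, e (i c) = i' c) :
    OnlyConst i' := by
  intro φ hφ a
  obtain ⟨c, hc⟩ := h (φ.comp e.toRingHom) (fun c => by
    rw [RingHom.comp_apply]
    exact (congrArg φ (he c)).trans (hφ c)) (e.symm a)
  refine ⟨c, ?_⟩
  rw [← hc, RingHom.comp_apply]
  congr 1
  exact (e.apply_symm_apply a).symm

section charts

variable {R : Type*} [CommRing R] [Algebra ℂ R]

theorem onlyConst_A {r s x y : R} (hg : Algebra.adjoin ℂ {r, s, x, y} = ⊤)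
    (hE : s ^ 2 = r ^ 3 + 1) (hS : y ^ 3 = s * (x ^ 6 + 1) + (x ^ 3 + 2)) :
    OnlyConst (algebraMap ℂ R) := by
  refine onlyConst_of_adjoin hg fun φ => ?_
  have hE' := congrArg φ hE
  have hS' := congrArg φ hS
  simp only [map_mul, map_add, map_pow, map_one, map_ofNat] at hE' hS'
  obtain ⟨r0, s0, x0, y0, h1, h2, h3, h4⟩ := rat_A hE' hS'
  intro a ha
  simp only [Set.mem_insert_iff, Set.mem_singleton_iff] at ha
  rcases ha with rfl | rfl | rfl | rfl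
  exacts [⟨r0, h1⟩, ⟨s0, h2⟩, ⟨x0, h3⟩, ⟨y0, h4⟩]

theorem onlyConst_A' {r s x y : R} (hg : Algebra.adjoin ℂ {r, s, x, y} = ⊤)
    (hE : s ^ 2 = r ^ 3 + 1) (hS : y ^ 3 = s * (1 + x ^ 6) + (x ^ 3 + 2 * x ^ 6)) :
    OnlyConst (algebraMap ℂ R) := by
  refine onlyConst_of_adjoin hg fun φ => ?_
  have hE' := congrArg φ hE
  have hS' := congrArg φ hS
  simp only [map_mul, map_add, map_pow, map_one, map_ofNat] at hE' hS'
  obtain ⟨r0, s0, x0, y0, h1, h2, h3, h4⟩ := rat_A' hE' hS'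
  intro a ha
  simp only [Set.mem_insert_iff, Set.mem_singleton_iff] at ha
  rcases ha with rfl | rfl | rfl | rfl
  exacts [⟨r0, h1⟩, ⟨s0, h2⟩, ⟨x0, h3⟩, ⟨y0, h4⟩]

theorem onlyConst_B {c e x y : R} (hg : Algebra.adjoin ℂ {c, e, x, y} = ⊤)
    (hE : c ^ 2 * (1 + e ^ 3) = e)
    (hS : (1 + e ^ 3) * y ^ 3 = (x ^ 6 + 1) + c * e * (x ^ 3 + 2)) :
    OnlyConst (algebraMap ℂ R) := by
  refine onlyConst_of_adjoin hg fun φ => ?_
  have hE' := congrArg φ hE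
  have hS' := congrArg φ hS
  simp only [map_mul, map_add, map_pow, map_one, map_ofNat] at hE' hS'
  obtain ⟨r0, s0, x0, y0, h1, h2, h3, h4⟩ := rat_B hE' hS'
  intro a ha
  simp only [Set.mem_insert_iff, Set.mem_singleton_iff] at ha
  rcases ha with rfl | rfl | rfl | rfl
  exacts [⟨r0, h1⟩, ⟨s0, h2⟩, ⟨x0, h3⟩, ⟨y0, h4⟩]

theorem onlyConst_B' {c e x y : R} (hg : Algebra.adjoin ℂ {c, e, x, y} = ⊤)
    (hE : c ^ 2 * (1 + e ^ 3) = e)
    (hS : (1 + e ^ 3) * y ^ 3 = (1 + x ^ 6) + c * e * (x ^ 3 + 2 * x ^ 6)) :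
    OnlyConst (algebraMap ℂ R) := by
  refine onlyConst_of_adjoin hg fun φ => ?_
  have hE' := congrArg φ hE
  have hS' := congrArg φ hS
  simp only [map_mul, map_add, map_pow, map_one, map_ofNat] at hE' hS'
  obtain ⟨r0, s0, x0, y0, h1, h2, h3, h4⟩ := rat_B' hE' hS'
  intro a ha
  simp only [Set.mem_insert_iff, Set.mem_singleton_iff] at ha
  rcases ha with rfl | rfl | rfl | rfl
  exacts [⟨r0, h1⟩, ⟨s0, h2⟩, ⟨x0, h3⟩, ⟨y0, h4⟩]

end charts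

end M21.XP
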