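import Mathlib
import Pool.Agent.H.MP_21b43d_ag.XP.Jac
import Pool.Agent.H.MP_21b43d_ag.XP.Pres

set_option autoImplicit false
set_option linter.all false

namespace M21.XP

open MvPolynomial

/-- Nondegeneracy conditions on the pair `(P, Q)`, which make the surface
`s^2 = r^3 + 1`, `y^3 = s Q(x) + P(x)` smooth. -/
structure Good (P Q : Polynomial ℂ) : Prop where
  cop : ∀ z, P.eval z = 0 → Q.eval z = 0 → False
  add : ∀ z, P.eval z + Q.eval z = 0 → P.derivative.eval z + Q.derivative.eval z = 0 → False
  sub : ∀ z, P.eval z - Q.eval z = 0 → P.derivative.eval z - Q.derivative.eval z = 0 → False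
  q : ∀ z, Q.eval z = 0 → Q.derivative.eval z = 0 → False

/-- The relations of the chart `A`. -/
noncomputable def relA (P Q : Polynomial ℂ) : Fin 2 → MvPolynomial (Fin 4) ℂ :=
  ![X 1 ^ 2 - (X 0 ^ 3 + 1),
    X 3 ^ 3 - (Polynomial.aeval (X 2) P + X 1 * Polynomial.aeval (X 2) Q)]

/-- The relations of the chart `B`. -/
noncomputable def relB (P Q : Polynomial ℂ) : Fin 2 → MvPolynomial (Fin 4) ℂ :=
  ![(1 + X 0 ^ 3) * X 1 ^ 2 - X 0,
    (1 + X 0 ^ 3) * X 3 ^ 3 - (Polynomial.aeval (X 2) Q + X 1 * (X 0 * Polynomial.aeval (X 2) P))]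

theorem bs_aeval (P : Polynomial ℂ) :
    bs (Polynomial.aeval (X 1) P) = Polynomial.aeval (X 2) P := by
  rw [← Polynomial.aeval_algHom_apply, bs_X1]

theorem rel_eq_relA (P Q : Polynomial ℂ) :
    rel 1 (X 0 ^ 3 + 1) (Polynomial.aeval (X 1) P) (Polynomial.aeval (X 1) Q) = relA P Q := by
  unfold rel relA
  simp only [map_one, map_add, map_pow, bs_X0, bs_aeval, one_mul]

theorem rel_eq_relB (P Q : Polynomial ℂ) :
    rel (1 + X 0 ^ 3) (X 0) (Polynomial.aeval (X 1) Q) (X 0 * Polynomial.aeval (X 1) P) =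
      relB P Q := by
  unfold rel relB
  simp only [map_one, map_add, map_pow, map_mul, bs_X0, bs_aeval]

theorem eval_minor_two (g : Fin 2 → MvPolynomial (Fin 4) ℂ) (j k : Fin 4) (p : Fin 4 → ℂ) :
    eval p (minor g ![j, k]) =
      eval p (pderiv j (g 0)) * eval p (pderiv k (g 1)) -
        eval p (pderiv j (g 1)) * eval p (pderiv k (g 0)) := by
  unfold minor
  rw [Matrix.det_fin_two]
  simp

theorem eval_aeval2 (P : Polynomial ℂ) (p : Fin 4 → ℂ) :
    eval p (Polynomial.aeval (X 2 : MvPolynomial (Fin 4) ℂ) P) = P.eval (p 2) := by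
  have h := Polynomial.aeval_algHom_apply (aeval p : MvPolynomial (Fin 4) ℂ →ₐ[ℂ] ℂ) (X 2) P
  rw [aeval_X] at h
  rw [← Polynomial.coe_aeval_eq_eval, h]
  rfl

theorem pderiv_aeval2 (P : Polynomial ℂ) (j : Fin 4) :
    pderiv j (Polynomial.aeval (X 2 : MvPolynomial (Fin 4) ℂ) P) =
      Polynomial.aeval (X 2) P.derivative * pderiv j (X 2) := by
  rw [Derivation.map_aeval, smul_eq_mul]

theorem minors_A (P Q : Polynomial ℂ) (h : Good P Q) (p : Fin 4 → ℂ)
    (hp : ∀ i, eval p (relA P Q i) = 0) :
    ∃ a : Fin 2 → Fin 4, eval p (minor (relA P Q) a) ≠ 0 := by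
  have hp0 := hp 0
  have hp1 := hp 1
  simp only [relA, Matrix.cons_val_zero, Matrix.cons_val_one, map_sub, map_add, map_pow, map_mul,
    map_one, eval_X, eval_aeval2] at hp0 hp1
  by_contra hno
  push Not at hno
  have h03 := hno ![0, 3]
  have h13 := hno ![1, 3]
  have h01 := hno ![0, 1]
  have h02 := hno ![0, 2]
  have h12 := hno ![1, 2]
  rw [eval_minor_two] at h03 h13 h01 h02 h12
  simp [relA, pderiv_aeval2, eval_aeval2, pderiv_X, Pi.single_apply] at h03 h13 h01 h02 h12
  by_cases h3 : p 3 = 0
  · rw [h3] at hp1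
    by_cases h0 : p 0 = 0
    · have hsq : (p 1 - 1) * (p 1 + 1) = 0 := by
        rw [h0] at hp0
        linear_combination hp0
      rcases mul_eq_zero.mp hsq with h1 | h1
      · have e1 : p 1 = 1 := by linear_combination h1
        have h12' : -(p 1 * Polynomial.eval (p 2) (Polynomial.derivative Q)) +
            -Polynomial.eval (p 2) (Polynomial.derivative P) = 0 :=
          h12.resolve_left (by rw [e1]; exact one_ne_zero)
        rw [e1] at h12' hp1
        refine h.add (p 2) ?_ ?_
        · linear_combination -hp1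
        · linear_combination -h12'
      · have e1 : p 1 = -1 := by linear_combination h1
        have h12' : -(p 1 * Polynomial.eval (p 2) (Polynomial.derivative Q)) +
            -Polynomial.eval (p 2) (Polynomial.derivative P) = 0 :=
          h12.resolve_left (by rw [e1]; exact neg_ne_zero.mpr one_ne_zero)
        rw [e1] at h12' hp1
        refine h.sub (p 2) ?_ ?_
        · linear_combination -hp1
        · linear_combination -h12'
    · have hQ := h01.resolve_left h0
      refine h.cop (p 2) ?_ hQ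
      rw [hQ] at hp1
      linear_combination -hp1
  · have e0 := h03.resolve_right h3
    have e1 := h13.resolve_right h3
    rw [e0, e1] at hp0
    norm_num at hp0

theorem minors_B (P Q : Polynomial ℂ) (h : Good P Q) (p : Fin 4 → ℂ)
    (hp : ∀ i, eval p (relB P Q i) = 0) :
    ∃ a : Fin 2 → Fin 4, eval p (minor (relB P Q) a) ≠ 0 := by
  have hp0 := hp 0
  have hp1 := hp 1
  simp only [relB, Matrix.cons_val_zero, Matrix.cons_val_one, map_sub, map_add, map_pow, map_mul,
    map_one, eval_X, eval_aeval2] at hp0 hp1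
  by_contra hno
  push Not at hno
  have h03 := hno ![0, 3]
  have h13 := hno ![1, 3]
  have h01 := hno ![0, 1]
  have h02 := hno ![0, 2]
  have h12 := hno ![1, 2]
  rw [eval_minor_two] at h03 h13 h01 h02 h12
  simp [relB, pderiv_aeval2, eval_aeval2, pderiv_X, Pi.single_apply] at h03 h13 h01 h02 h12
  by_cases h0 : p 0 = 0
  · have e1 : p 1 = 0 := by
      have : p 1 ^ 2 = 0 := by
        rw [h0] at hp0
        linear_combination hp0
      exact pow_eq_zero_iff (two_ne_zero) |>.mp this
    rw [h0] at h03 h02 hp1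
    rw [e1] at h03 h02 hp1
    have e3 : p 3 = 0 := by
      rcases h03 with h | h | h
      · norm_num at h
      · norm_num at h
      · exact h
    rw [e3] at hp1
    refine h.q (p 2) ?_ ?_
    · linear_combination -hp1
    · rcases h02 with h | h
      · norm_num at h
      · linear_combination -h
  · have hu : 1 + p 0 ^ 3 ≠ 0 := by
      intro hu
      rw [hu] at hp0
      exact h0 (by linear_combination -hp0)
    have h1 : p 1 ≠ 0 := by
      intro h1
      rw [h1] at hp0
      exact h0 (by linear_combination -hp0)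
    have e3 : p 3 = 0 := by
      rcases h13 with (h | h) | h | h
      · exact absurd h hu
      · exact absurd h h1
      · exact absurd h hu
      · exact h
    rw [e3] at hp1 h01
    have hP : (3 * p 0 * (1 - p 0 ^ 2 * p 1 ^ 2)) * Polynomial.eval (p 2) P = 0 := by
      linear_combination h01 - 2 * Polynomial.eval (p 2) P * hp0
    have hne : 1 - p 0 ^ 2 * p 1 ^ 2 ≠ 0 := by
      intro hne
      have : (1 : ℂ) = 0 := by
        linear_combination (1 + p 0 ^ 3) * hne + p 0 ^ 2 * hp0
      exact one_ne_zero this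
    have hP0 : Polynomial.eval (p 2) P = 0 := by
      rcases mul_eq_zero.mp hP with h' | h'
      · exact absurd h' (mul_ne_zero (mul_ne_zero three_ne_zero h0) hne)
      · exact h'
    refine h.cop (p 2) hP0 ?_
    rw [hP0] at hp1
    linear_combination -hp1

/-- Chart `A` is smooth of relative dimension two. -/
theorem chartA_smooth {K : Type} [Field K] [Algebra ℂ K] (P Q : Polynomial ℂ) (h : Good P Q)
    (r s x y : K) (hs : s ^ 2 = r ^ 3 + 1)
    (hy : y ^ 3 = s * Polynomial.aeval x Q + Polynomial.aeval x P)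
    (hind : AlgebraicIndependent ℂ ![r, x]) (F : IntermediateField ℂ K)
    (hr : r ∈ F) (hx : x ∈ F)
    (hli : LinearIndependent F fun p : Fin 2 × Fin 3 => s ^ (p.1 : ℕ) * y ^ (p.2 : ℕ)) :
    RingHom.Locally (RingHom.IsStandardSmoothOfRelativeDimension 2)
      (algebraMap ℂ (Algebra.adjoin ℂ {r, s, x, y})) := by
  have hset : Set.range (![r, s, x, y] : Fin 4 → K) = {r, s, x, y} := by
    simp only [Matrix.range_cons, Matrix.range_empty, Set.union_empty, Set.singleton_union]
  obtain ⟨e⟩ := pres_equiv 1 (X 0 ^ 3 + 1) (Polynomial.aeval (X 1) P) (Polynomial.aeval (X 1) Q)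
    1 (by simp) ![r, s, x, y] (by
      rw [rel_eq_relA]
      intro i
      fin_cases i
      · simp [relA, hs]
      · simp only [relA]
        simp [← Polynomial.aeval_algHom_apply, hy]
        ring) hind F hr hx hli
  rw [rel_eq_relA, hset] at e
  exact locally_of_minors 2 rfl (relA P Q) (minors_A P Q h) e

/-- Chart `B` is smooth of relative dimension two. -/
theorem chartB_smooth' {K : Type} [Field K] [Algebra ℂ K] (P Q : Polynomial ℂ) (h : Good P Q)
    (e c x y : K) (hs : (1 + e ^ 3) * c ^ 2 = e)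
    (hy : (1 + e ^ 3) * y ^ 3 = Polynomial.aeval x Q + c * e * Polynomial.aeval x P)
    (hind : AlgebraicIndependent ℂ ![e, x]) (F : IntermediateField ℂ K)
    (hr : e ∈ F) (hx : x ∈ F)
    (hli : LinearIndependent F fun p : Fin 2 × Fin 3 => c ^ (p.1 : ℕ) * y ^ (p.2 : ℕ)) :
    RingHom.Locally (RingHom.IsStandardSmoothOfRelativeDimension 2)
      (algebraMap ℂ (Algebra.adjoin ℂ {e, c, x, y})) := by
  have hset : Set.range (![e, c, x, y] : Fin 4 → K) = {e, c, x, y} := by
    simp only [Matrix.range_cons, Matrix.range_empty, Set.union_empty, Set.singleton_union]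
  obtain ⟨E⟩ := pres_equiv (1 + X 0 ^ 3) (X 0) (Polynomial.aeval (X 1) Q)
    (X 0 * Polynomial.aeval (X 1) P) (1 - X 0 ^ 2 * X 1 ^ 2) (by
      rw [rel_eq_relB]
      have h1 : bs (1 + X 0 ^ 3) * (1 - X 0 ^ 2 * X 1 ^ 2) - 1 =
          (-X 0 ^ 2 : MvPolynomial (Fin 4) ℂ) * relB P Q 0 := by
        simp only [relB, map_add, map_one, map_pow, bs_X0, Matrix.cons_val_zero]
        ring
      rw [h1]
      exact Ideal.mul_mem_left _ _ (Ideal.subset_span ⟨0, rfl⟩)) ![e, c, x, y] (by
      rw [rel_eq_relB]
      intro i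
      fin_cases i
      · simp [relB, hs]
      · simp only [relB]
        simp [← Polynomial.aeval_algHom_apply, hy]
        ring) hind F hr hx hli
  rw [rel_eq_relB, hset] at E
  exact locally_of_minors 2 rfl (relB P Q) (minors_B P Q h) E

end M21.XP
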