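import Pool.Agent.H.MP_21b43d_ag.XP.Sm
import Pool.Agent.H.MP_21b43d_ag.XP.Emb2

set_option autoImplicit false
set_option linter.all false

namespace M21.XP

open MvPolynomial

variable {K : Type} [Field K] [Algebra ℂ K]

/-- A point of the surface `s^2 = r^3 + 1`, `y^3 = s Q(x) + P(x)` in a field, generic over `ℂ`. -/
structure Pt (P Q : Polynomial ℂ) (F : IntermediateField ℂ K) (r s x y : K) : Prop where
  hs : s ^ 2 = r ^ 3 + 1
  hy : y ^ 3 = s * Polynomial.aeval x Q + Polynomial.aeval x P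
  ai : AlgebraicIndependent ℂ ![r, x]
  hr : r ∈ F
  hx : x ∈ F
  li : LinearIndependent F fun p : Fin 2 × Fin 3 => s ^ (p.1 : ℕ) * y ^ (p.2 : ℕ)

theorem li_transfer (F : IntermediateField ℂ K) {ι : Type} (v v' : ι → K) (hli : LinearIndependent F v)
    (σ : ι → ι) (hσ : Function.Injective σ) (a : ι → K) (ha : ∀ p, a p ∈ F) (ha0 : ∀ p, a p ≠ 0)
    (h : ∀ p, v' p = a p * v (σ p)) : LinearIndependent F v' := by
  have h1 := (hli.comp σ hσ).units_smul
    (fun p => Units.mk0 (⟨a p, ha p⟩ : F) (fun h0 => ha0 p (congrArg Subtype.val h0)))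
  convert h1 using 1
  funext p
  rw [h p]
  rfl

variable {P Q : Polynomial ℂ} {F : IntermediateField ℂ K} {r s x y : K}

theorem Pt.r_ne (h : Pt P Q F r s x y) : r ≠ 0 := by
  have := ((M21X.ai_iff r x).mp h.ai).1
  rintro rfl
  exact this isAlgebraic_zero

theorem Pt.x_ne (h : Pt P Q F r s x y) : x ≠ 0 := by
  have := ((M21X.ai_iff x r).mp (M21X.ai_comm h.ai)).1
  rintro rfl
  exact this isAlgebraic_zero

theorem Pt.s_ne (h : Pt P Q F r s x y) : s ≠ 0 := by
  have ht := ((M21X.ai_iff r x).mp h.ai).1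
  intro h0
  have h1 := h.hs
  rw [h0] at h1
  have h3 : Transcendental ℂ (r ^ 3) := ht.pow (by norm_num)
  apply h3
  have : r ^ 3 = algebraMap ℂ K (-1) := by
    rw [map_neg, map_one]
    linear_combination -h1
  rw [this]
  exact isAlgebraic_algebraMap _

/-- The change of chart `x → 1 / x`. -/
theorem Pt.flip (h : Pt P Q F r s x y) (P' Q' : Polynomial ℂ)
    (hP : Polynomial.aeval x P = x ^ 6 * Polynomial.aeval x⁻¹ P')
    (hQ : Polynomial.aeval x Q = x ^ 6 * Polynomial.aeval x⁻¹ Q') :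
    Pt P' Q' F r s x⁻¹ (y / x ^ 2) := by
  have hx := h.x_ne
  refine ⟨h.hs, ?_, ?_, h.hr, inv_mem h.hx, ?_⟩
  · have := h.hy
    rw [hP, hQ] at this
    rw [div_pow, this]
    generalize Polynomial.aeval x⁻¹ P' = A
    generalize Polynomial.aeval x⁻¹ Q' = B
    field_simp
  · refine M21X.ai_congr_right ?_ h.ai
    have h3 : x⁻¹ ∈ IntermediateField.adjoin ℂ {x⁻¹} :=
      IntermediateField.subset_adjoin ℂ _ rfl
    rw [← inv_inv x]
    exact inv_mem (by rwa [inv_inv])
  · refine li_transfer F _ _ h.li id Function.injective_id (fun p => (x⁻¹) ^ (2 * (p.2 : ℕ)))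
      (fun p => pow_mem (inv_mem h.hx) _) (fun p => pow_ne_zero _ (inv_ne_zero hx)) ?_
    intro p
    simp only [id]
    rw [div_pow, ← pow_mul, div_eq_mul_inv, inv_pow]
    ring

/-- Chart `A` is smooth of relative dimension two. -/
theorem Pt.smoothA (h : Pt P Q F r s x y) (hg : Good P Q) :
    RingHom.Locally (RingHom.IsStandardSmoothOfRelativeDimension 2)
      (algebraMap ℂ (Algebra.adjoin ℂ {r, s, x, y})) :=
  chartA_smooth P Q hg r s x y h.hs h.hy h.ai F h.hr h.hx h.li

/-- The permutation used in chart `B`. -/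
def sg (p : Fin 2 × Fin 3) : Fin 2 × Fin 3 := (if p.2 = 1 then 1 - p.1 else p.1, p.2)

theorem sg_inj : Function.Injective sg := by decide

/-- Chart `B` is smooth of relative dimension two. -/
theorem Pt.smoothB (h : Pt P Q F r s x y) (hg : Good P Q) :
    RingHom.Locally (RingHom.IsStandardSmoothOfRelativeDimension 2)
      (algebraMap ℂ (Algebra.adjoin ℂ {r / s, r⁻¹, x, y * r / s})) := by
  have hr := h.r_ne
  have hs := h.s_ne
  have hE := h.hs
  have hr3 : r ^ 3 + 1 ≠ 0 := by rw [← hE]; exact pow_ne_zero _ hs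
  have hset : ({r / s, r⁻¹, x, y * r / s} : Set K) = {r⁻¹, r / s, x, y * r / s} :=
    Set.insert_comm _ _ _
  rw [hset]
  refine chartB_smooth' P Q hg r⁻¹ (r / s) x (y * r / s) ?_ ?_ ?_ F (inv_mem h.hr) h.hx ?_
  · rw [div_pow, hE]
    field_simp
    try ring
  · have := h.hy
    have e1 : (y * r / s) ^ 3 = y ^ 3 * r ^ 3 / (s ^ 2 * s) := by
      field_simp
    rw [e1, this, hE]
    field_simp
    try ring
  · refine M21X.ai_congr_left ?_ h.ai
    have h3 : r⁻¹ ∈ IntermediateField.adjoin ℂ {r⁻¹} :=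
      IntermediateField.subset_adjoin ℂ _ rfl
    rw [← inv_inv r]
    exact inv_mem (by rwa [inv_inv])
  · have hk : ∀ k : ℕ, (r / s) ^ (2 * k) = (r ^ 2 / (r ^ 3 + 1)) ^ k := by
      intro k
      rw [pow_mul, div_pow, hE]
    have hkap : r / s = (r / (r ^ 3 + 1)) * s := by
      rw [← hE]
      field_simp
    have m1 : r ^ 3 + 1 ∈ F := add_mem (pow_mem h.hr _) (one_mem _)
    have m2 : r / (r ^ 3 + 1) ∈ F := div_mem h.hr m1
    have m3 : r ^ 2 / (r ^ 3 + 1) ∈ F := div_mem (pow_mem h.hr _) m1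
    refine li_transfer F _ _ h.li sg sg_inj
      (fun p => ![![1, r / (r ^ 3 + 1), r ^ 2 / (r ^ 3 + 1)],
        ![r / (r ^ 3 + 1), r ^ 2 / (r ^ 3 + 1),
          (r ^ 2 / (r ^ 3 + 1)) * (r / (r ^ 3 + 1))]] p.1 p.2) ?_ ?_ ?_
    · rintro ⟨i, j⟩
      fin_cases i <;> fin_cases j
      · exact one_mem F
      · exact m2
      · exact m3
      · exact m2
      · exact m3
      · exact mul_mem m3 m2
    · rintro ⟨i, j⟩
      have n2 : r / (r ^ 3 + 1) ≠ 0 := div_ne_zero hr hr3
      have n3 : r ^ 2 / (r ^ 3 + 1) ≠ 0 := div_ne_zero (pow_ne_zero _ hr) hr3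
      fin_cases i <;> fin_cases j
      · exact one_ne_zero
      · exact n2
      · exact n3
      · exact n2
      · exact n3
      · exact mul_ne_zero n3 n2
    · have e2 : (r / s) ^ 2 = r ^ 2 / (r ^ 3 + 1) := by rw [div_pow, hE]
      have e3 : y * r / s = y * (r / s) := by ring
      rintro ⟨i, j⟩
      fin_cases i <;> fin_cases j
      · simp [sg]
      · simp [sg]
        rw [e3, hkap]
        ring
      · simp [sg]
        rw [e3, mul_pow, e2]
        ring
      · simp [sg]
        rw [hkap]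
      · simp [sg]
        rw [e3, ← e2]
        ring
      · simp [sg]
        rw [e3, mul_pow]
        have : r / s * (y ^ 2 * (r / s) ^ 2) = (r / s) ^ 2 * (r / s) * y ^ 2 := by ring
        rw [this, e2]
        nth_rewrite 1 [hkap]
        ring

/-! ### The concrete surface -/

/-- The polynomials of the surface. -/
noncomputable def cP : Polynomial ℂ := Polynomial.X ^ 3 + 2
noncomputable def cQ : Polynomial ℂ := Polynomial.X ^ 6 + 1
/-- The flipped polynomial `x^6 P(1/x)`. -/
noncomputable def cP' : Polynomial ℂ := 2 * Polynomial.X ^ 6 + Polynomial.X ^ 3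

theorem good_c : Good cP cQ := by
  refine ⟨?_, ?_, ?_, ?_⟩ <;> intro z
  · intro h1 h2
    simp [cP, cQ] at h1 h2
    have h3 : z ^ 3 = -2 := by linear_combination h1
    have h4 : z ^ 6 = 4 := by
      have : z ^ 6 = (z ^ 3) ^ 2 := by ring
      rw [this, h3]; norm_num
    rw [h4] at h2
    norm_num at h2
  · intro h1 h2
    simp [cP, cQ] at h1 h2
    -- h1 : z^3 + 2 + (z^6+1) = 0, h2 : 3 z^2 + 6 z^5 = 0
    have h5 : z ^ 2 * (1 + 2 * z ^ 3) = 0 := by linear_combination h2 / 3
    rcases mul_eq_zero.mp h5 with h6 | h6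
    · have hz : z = 0 := pow_eq_zero_iff (two_ne_zero) |>.mp h6
      rw [hz] at h1; norm_num at h1
    · have h3 : z ^ 3 = -1/2 := by linear_combination h6 / 2
      have h4 : z ^ 6 = 1/4 := by
        have : z ^ 6 = (z ^ 3) ^ 2 := by ring
        rw [this, h3]; norm_num
      rw [h3, h4] at h1; norm_num at h1
  · intro h1 h2
    simp [cP, cQ] at h1 h2
    have h5 : z ^ 2 * (1 - 2 * z ^ 3) = 0 := by linear_combination h2 / 3
    rcases mul_eq_zero.mp h5 with h6 | h6
    · have hz : z = 0 := pow_eq_zero_iff (two_ne_zero) |>.mp h6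
      rw [hz] at h1; norm_num at h1
    · have h3 : z ^ 3 = 1/2 := by linear_combination -h6 / 2
      have h4 : z ^ 6 = 1/4 := by
        have : z ^ 6 = (z ^ 3) ^ 2 := by ring
        rw [this, h3]; norm_num
      rw [h3, h4] at h1; norm_num at h1
  · intro h1 h2
    simp [cQ] at h1 h2
    have hz : z = 0 := h2.resolve_left (by norm_num)
    rw [hz] at h1
    norm_num at h1

theorem good_c' : Good cP' cQ := by
  refine ⟨?_, ?_, ?_, ?_⟩ <;> intro z
  · intro h1 h2
    simp [cP', cQ] at h1 h2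
    have h5 : z ^ 3 * (2 * z ^ 3 + 1) = 0 := by linear_combination h1
    rcases mul_eq_zero.mp h5 with h6 | h6
    · have hz : z = 0 := pow_eq_zero_iff (three_ne_zero) |>.mp h6
      rw [hz] at h2; norm_num at h2
    · have h3 : z ^ 3 = -1/2 := by linear_combination h6 / 2
      have h4 : z ^ 6 = 1/4 := by
        have : z ^ 6 = (z ^ 3) ^ 2 := by ring
        rw [this, h3]; norm_num
      rw [h4] at h2; norm_num at h2
  · intro h1 h2
    simp [cP', cQ] at h1 h2
    -- 2 z^6 + z^3 + z^6 + 1, derivative 2*(6 z^5) + 3 z^2 + 6 z^5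
    have h5 : z ^ 2 * (6 * z ^ 3 + 1) = 0 := by linear_combination h2 / 3
    rcases mul_eq_zero.mp h5 with h6 | h6
    · have hz : z = 0 := pow_eq_zero_iff (two_ne_zero) |>.mp h6
      rw [hz] at h1; norm_num at h1
    · have h3 : z ^ 3 = -1/6 := by linear_combination h6 / 6
      have h4 : z ^ 6 = 1/36 := by
        have : z ^ 6 = (z ^ 3) ^ 2 := by ring
        rw [this, h3]; norm_num
      rw [h3, h4] at h1; norm_num at h1
  · intro h1 h2
    simp [cP', cQ] at h1 h2
    have h5 : z ^ 2 * (2 * z ^ 3 + 1) = 0 := by linear_combination h2 / 3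
    rcases mul_eq_zero.mp h5 with h6 | h6
    · have hz : z = 0 := pow_eq_zero_iff (two_ne_zero) |>.mp h6
      rw [hz] at h1; norm_num at h1
    · have h3 : z ^ 3 = -1/2 := by linear_combination h6 / 2
      have h4 : z ^ 6 = 1/4 := by
        have : z ^ 6 = (z ^ 3) ^ 2 := by ring
        rw [this, h3]; norm_num
      rw [h3, h4] at h1; norm_num at h1
  · intro h1 h2
    simp [cQ] at h1 h2
    have hz : z = 0 := h2.resolve_left (by norm_num)
    rw [hz] at h1
    norm_num at h1

theorem aeval_two (t : K) : Polynomial.aeval t (2 : Polynomial ℂ) = 2 := map_ofNat _ 2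

/-- All four charts of the surface are smooth of relative dimension two. -/
theorem Qd.Good.smooth_rg {q : Qd K} (h : q.Good) (F : IntermediateField ℂ K) (hr : q.r ∈ F)
    (hx : q.x ∈ F)
    (li : LinearIndependent F fun p : Fin 2 × Fin 3 => q.s ^ (p.1 : ℕ) * q.y ^ (p.2 : ℕ))
    (i : Fin 4) :
    RingHom.Locally (RingHom.IsStandardSmoothOfRelativeDimension 2) (algebraMap ℂ (q.rg i)) := by
  have hpt : Pt cP cQ F q.r q.s q.x q.y := by
    refine ⟨h.hE, ?_, h.ai, hr, hx, li⟩
    rw [h.hS]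
    simp [cP, cQ, aeval_two]
  have hpt' : Pt cP' cQ F q.r q.s q.x⁻¹ (q.y / q.x ^ 2) := by
    have hx0 := h.x_ne
    refine hpt.flip cP' cQ ?_ ?_
    · simp only [cP, cP', map_add, map_mul, map_pow, Polynomial.aeval_X, aeval_two]
      field_simp
      try ring
    · simp only [cQ, map_add, map_one, map_pow, Polynomial.aeval_X]
      field_simp
      try ring
  fin_cases i
  · exact hpt.smoothA good_c
  · exact hpt'.smoothA good_c'
  · exact hpt.smoothB good_c
  · exact hpt'.smoothB good_c'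

end M21.XP
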