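import Mathlib

/-!
# M21, Theorem X': the field `K` of the surface `y^3 = s(x^6+1) + x^3 + 2`, `s^2 = r^3+1`

`K` is a field over `ℂ` with elements `r s x y`, `r` and `x` algebraically independent. The
elements `s^i y^j` (`i < 2`, `j < 3`) are linearly independent over `ℂ[r,x]`.
-/

open Polynomial

noncomputable section

namespace M21.XP

variable {K : Type*} [Field K] [Algebra ℂ K]

/-- evaluation at `(r, x)` of a polynomial in an outer variable (for `r`) with coefficients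
polynomials in an inner variable (for `x`) -/
def ev (r x : K) : Polynomial (Polynomial ℂ) →+* K :=
  Polynomial.eval₂RingHom (Polynomial.aeval x : Polynomial ℂ →ₐ[ℂ] K).toRingHom r

theorem ev_C (r x : K) (p : Polynomial ℂ) : ev r x (C p) = Polynomial.aeval x p := by
  simp [ev]

theorem ev_X (r x : K) : ev r x X = r := by
  simp [ev]

theorem ev_CX (r x : K) : ev r x (C X) = x := by
  simp [ev]

theorem ev_CC (r x : K) (c : ℂ) : ev r x (C (C c)) = algebraMap ℂ K c := by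
  simp [ev]

theorem ev_injective {r x : K} (hi : AlgebraicIndependent ℂ ![r, x]) :
    Function.Injective (ev r x) := by
  rw [injective_iff_map_eq_zero]
  intro P hP
  let f : Polynomial (Polynomial ℂ) →+* MvPolynomial (Fin 2) ℂ :=
    Polynomial.eval₂RingHom (Polynomial.eval₂RingHom MvPolynomial.C (MvPolynomial.X 1))
      (MvPolynomial.X 0)
  let g : MvPolynomial (Fin 2) ℂ →+* Polynomial (Polynomial ℂ) :=
    MvPolynomial.eval₂Hom (C.comp C) ![X, C X]
  have hgf : g.comp f = RingHom.id _ := by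
    apply Polynomial.ringHom_ext
    · intro a
      have h2 : (g.comp f).comp C = C := by
        apply Polynomial.ringHom_ext
        · intro c
          simp [f, g]
        · simp [f, g]
      exact congrArg (fun h : Polynomial ℂ →+* Polynomial (Polynomial ℂ) => h a) h2
    · simp [f, g]
  have h1 : (MvPolynomial.aeval (R := ℂ) ![r, x]).toRingHom.comp f = ev r x := by
    apply Polynomial.ringHom_ext
    · intro a
      have h2 : ((MvPolynomial.aeval (R := ℂ) ![r, x]).toRingHom.comp f).comp C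
          = (ev r x).comp C := by
        apply Polynomial.ringHom_ext
        · intro c
          simp [f, ev]
        · simp [f, ev]
      exact congrArg (fun h : Polynomial ℂ →+* K => h a) h2
    · simp [f, ev]
  have h3 : MvPolynomial.aeval (R := ℂ) ![r, x] (f P) = 0 := by
    rw [← hP, ← h1]
    rfl
  have h4 : f P = 0 := (algebraicIndependent_iff.1 hi) _ h3
  have h5 : P = g (f P) := by
    rw [← RingHom.comp_apply, hgf, RingHom.id_apply]
  rw [h5, h4, map_zero]

/-- the polynomial `r^3 + 1` -/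
def pE : Polynomial (Polynomial ℂ) := X ^ 3 + 1

/-- the polynomial `Q = x^6 + 1` -/
def pQ : Polynomial ℂ := X ^ 6 + 1

/-- the polynomial `P = x^3 + 2` -/
def pP : Polynomial ℂ := X ^ 3 + 2

/-- the data -/
structure Dat (r s x y : K) : Prop where
  inj : Function.Injective (ev r x)
  hE : s ^ 2 = r ^ 3 + 1
  hS : y ^ 3 = s * (x ^ 6 + 1) + (x ^ 3 + 2)

theorem Dat.mk' {r s x y : K} (hi : AlgebraicIndependent ℂ ![r, x]) (hE : s ^ 2 = r ^ 3 + 1)
    (hS : y ^ 3 = s * (x ^ 6 + 1) + (x ^ 3 + 2)) : Dat r s x y :=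
  ⟨ev_injective hi, hE, hS⟩

section

variable {r s x y : K}

theorem ev_pE : ev r x pE = r ^ 3 + 1 := by
  rw [pE, map_add, map_pow, ev_X, map_one]

theorem ev_pQ : ev r x (C pQ) = x ^ 6 + 1 := by
  rw [ev_C]
  simp [pQ]

theorem ev_pP : ev r x (C pP) = x ^ 3 + 2 := by
  rw [ev_C, pP, map_add, map_pow, aeval_X, map_ofNat]

theorem natDegree_pE : pE.natDegree = 3 := by
  have : pE = X ^ 3 + C 1 := by rw [pE, map_one]
  rw [this]
  exact natDegree_X_pow_add_C

/-- `1, s` are independent -/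
theorem Dat.ind2 (h : Dat r s x y) {p q : Polynomial (Polynomial ℂ)}
    (hpq : ev r x p + ev r x q * s = 0) : p = 0 ∧ q = 0 := by
  have h1 : p ^ 2 = q ^ 2 * pE := by
    apply h.inj
    have h2 : ev r x p = - (ev r x q * s) := by linear_combination hpq
    rw [map_pow, map_mul, map_pow, ev_pE, h2, ← h.hE]
    ring
  have hE0 : pE ≠ 0 := by
    intro h0
    have := natDegree_pE
    rw [h0] at this
    simp at this
  by_cases hq : q = 0
  · refine ⟨?_, hq⟩
    rw [hq] at h1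
    simpa using h1
  · exfalso
    have h2 := congrArg natDegree h1
    rw [natDegree_mul (pow_ne_zero 2 hq) hE0, natDegree_pow, natDegree_pow, natDegree_pE] at h2
    omega

/-- the norm of `p + q s` -/
def nrm (p q : Polynomial (Polynomial ℂ)) : Polynomial (Polynomial ℂ) := p ^ 2 - pE * q ^ 2

theorem nrm_eq_zero (h : Dat r s x y) {p q : Polynomial (Polynomial ℂ)} (hn : nrm p q = 0) :
    ev r x p + ev r x q * s = 0 := by
  have h1 : (ev r x p + ev r x q * s) * (ev r x p + ev r x (-q) * s) = 0 := by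
    have h2 := congrArg (ev r x) hn
    rw [nrm, map_sub, map_mul, map_pow, map_pow, ev_pE, map_zero] at h2
    rw [map_neg]
    linear_combination h2 - (ev r x q) ^ 2 * h.hE
  rcases mul_eq_zero.1 h1 with h2 | h2
  · exact h2
  · obtain ⟨h3, h4⟩ := h.ind2 h2
    rw [neg_eq_zero] at h4
    rw [h3, h4]
    simp

/-- `b` is not a cube in the field of fractions of `ℂ[r,s,x]` -/
theorem not_cube (h : Dat r s x y) {p q p' q' : Polynomial (Polynomial ℂ)}
    (he : (ev r x p + ev r x q * s) ^ 3 = (ev r x p' + ev r x q' * s) ^ 3 *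
      (s * (x ^ 6 + 1) + (x ^ 3 + 2))) : ev r x p' + ev r x q' * s = 0 := by
  by_contra hne
  -- norms
  have hN : (nrm p q) ^ 3 = (nrm p' q') ^ 3 * nrm (C pP) (C pQ) := by
    have h1 : ev r x ((p ^ 3 + 3 * p * q ^ 2 * pE) -
        ((p' ^ 3 + 3 * p' * q' ^ 2 * pE) * C pP + (3 * p' ^ 2 * q' + q' ^ 3 * pE) * C pQ * pE)) +
        ev r x ((3 * p ^ 2 * q + q ^ 3 * pE) -
        ((p' ^ 3 + 3 * p' * q' ^ 2 * pE) * C pQ + (3 * p' ^ 2 * q' + q' ^ 3 * pE) * C pP)) * s
        = 0 := by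
      simp only [map_sub, map_add, map_mul, map_pow, map_ofNat, ev_pE, ev_pP, ev_pQ]
      rw [← h.hE]
      linear_combination he
    obtain ⟨h2, h3⟩ := h.ind2 h1
    rw [sub_eq_zero] at h2 h3
    have h4 : (nrm p q) ^ 3 = (p ^ 3 + 3 * p * q ^ 2 * pE) ^ 2
        - pE * (3 * p ^ 2 * q + q ^ 3 * pE) ^ 2 := by
      rw [nrm]
      ring
    rw [h4, h2, h3, nrm, nrm]
    ring
  have hn' : nrm p' q' ≠ 0 := fun h0 => hne (nrm_eq_zero h h0)
  have hdvd : (nrm p' q') ^ 3 ∣ (nrm p q) ^ 3 := ⟨_, hN⟩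
  rw [IsIntegrallyClosed.pow_dvd_pow_iff (by norm_num)] at hdvd
  obtain ⟨m, hm⟩ := hdvd
  have hm3 : m ^ 3 = nrm (C pP) (C pQ) := by
    have h1 : (nrm p' q') ^ 3 * m ^ 3 = (nrm p' q') ^ 3 * nrm (C pP) (C pQ) := by
      rw [← hN, hm]
      ring
    exact mul_left_cancel₀ (pow_ne_zero 3 hn') h1
  have hQ0 : pQ ≠ 0 := by
    intro h0
    have := congrArg (Polynomial.eval 0) h0
    simp [pQ] at this
  have hform : nrm (C pP) (C pQ) = C (-(pQ ^ 2)) * X ^ 3 + C 0 * X ^ 2 + C 0 * X +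
      C (pP ^ 2 - pQ ^ 2) := by
    rw [nrm, pE]
    simp only [map_neg, map_sub, map_pow, map_zero]
    ring
  have hdeg : (nrm (C pP) (C pQ)).natDegree = 3 := by
    rw [hform]
    exact natDegree_cubic (neg_ne_zero.2 (pow_ne_zero 2 hQ0))
  have hdm : m.natDegree ≤ 1 := by
    rw [← hm3, natDegree_pow] at hdeg
    omega
  obtain ⟨a, b, hab⟩ := exists_eq_X_add_C_of_natDegree_le_one hdm
  have hm3' : C (a ^ 3) * X ^ 3 + C (3 * a ^ 2 * b) * X ^ 2 + C (3 * a * b ^ 2) * X + C (b ^ 3)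
      = C (-(pQ ^ 2)) * X ^ 3 + C 0 * X ^ 2 + C 0 * X + C (pP ^ 2 - pQ ^ 2) := by
    rw [← hform, ← hm3, hab]
    simp only [map_mul, map_pow, map_ofNat]
    ring
  have c3 := congrArg (fun f => f.coeff 3) hm3'
  have c2 := congrArg (fun f => f.coeff 2) hm3'
  have c0 := congrArg (fun f => f.coeff 0) hm3'
  simp only [coeff_add, coeff_C_mul, coeff_X_pow, coeff_X, coeff_C] at c3 c2 c0
  norm_num at c3 c2 c0
  have ha : a ≠ 0 := by
    intro h0
    rw [h0] at c3
    apply hQ0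
    have : pQ ^ 2 = 0 := by
      rw [← neg_eq_zero, ← c3]
      ring
    exact pow_eq_zero_iff (two_ne_zero) |>.1 this
  have hb : b = 0 := by
    rcases c2 with c2 | c2
    · exact absurd c2 ha
    · exact c2
  rw [hb] at c0
  have h9 := congrArg (Polynomial.eval 0) c0
  simp [pP, pQ] at h9
  norm_num at h9

/-- elements of `ℂ[r,s,x]` -/
def A0 (r s x z : K) : Prop := ∃ p q : Polynomial (Polynomial ℂ), z = ev r x p + ev r x q * s

theorem A0.add {z w : K} (hz : A0 r s x z) (hw : A0 r s x w) : A0 r s x (z + w) := by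
  obtain ⟨p, q, rfl⟩ := hz
  obtain ⟨p', q', rfl⟩ := hw
  refine ⟨p + p', q + q', ?_⟩
  rw [map_add, map_add]
  ring

theorem A0.neg {z : K} (hz : A0 r s x z) : A0 r s x (-z) := by
  obtain ⟨p, q, rfl⟩ := hz
  refine ⟨-p, -q, ?_⟩
  rw [map_neg, map_neg]
  ring

theorem A0.sub {z w : K} (hz : A0 r s x z) (hw : A0 r s x w) : A0 r s x (z - w) := by
  rw [sub_eq_add_neg]
  exact hz.add hw.neg

theorem A0.mul (hE : s ^ 2 = r ^ 3 + 1) {z w : K} (hz : A0 r s x z) (hw : A0 r s x w) :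
    A0 r s x (z * w) := by
  obtain ⟨p, q, rfl⟩ := hz
  obtain ⟨p', q', rfl⟩ := hw
  refine ⟨p * p' + q * q' * pE, p * q' + q * p', ?_⟩
  simp only [map_add, map_mul, ev_pE]
  rw [← hE]
  ring

theorem A0.pow (hE : s ^ 2 = r ^ 3 + 1) {z : K} (hz : A0 r s x z) (n : ℕ) :
    A0 r s x (z ^ n) := by
  induction n with
  | zero => exact ⟨1, 0, by simp⟩
  | succ n ih => rw [pow_succ]; exact ih.mul hE hz

theorem A0_b : A0 r s x (s * (x ^ 6 + 1) + (x ^ 3 + 2)) := by
  refine ⟨C pP, C pQ, ?_⟩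
  rw [ev_pP, ev_pQ]
  ring

theorem A0_r : A0 r s x r := ⟨X, 0, by simp [ev_X]⟩

theorem A0_s : A0 r s x s := ⟨0, 1, by simp⟩

theorem A0_x : A0 r s x x := ⟨C X, 0, by simp [ev_CX]⟩

theorem not_cube' (h : Dat r s x y) {u v : K} (hu : A0 r s x u) (hv : A0 r s x v)
    (he : u ^ 3 = v ^ 3 * (s * (x ^ 6 + 1) + (x ^ 3 + 2))) : v = 0 := by
  obtain ⟨p, q, rfl⟩ := hu
  obtain ⟨p', q', rfl⟩ := hv
  exact not_cube h he

/-- `1, y, y^2` are independent over `ℂ[r,s,x]` -/
theorem ind3 (h : Dat r s x y) {f0 f1 f2 : K} (h0 : A0 r s x f0) (h1 : A0 r s x f1)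
    (h2 : A0 r s x f2) (he : f0 + f1 * y + f2 * y ^ 2 = 0) : f0 = 0 ∧ f1 = 0 ∧ f2 = 0 := by
  set b := s * (x ^ 6 + 1) + (x ^ 3 + 2) with hb
  have hS : y ^ 3 = b := h.hS
  have hA : A0 r s x b := A0_b
  have e1 : (f1 ^ 2 - f0 * f2) * y + (f0 * f1 - f2 ^ 2 * b) = 0 := by
    rw [← hS]
    linear_combination f1 * he - f2 * y * he
  have k1 : f1 ^ 2 - f0 * f2 = 0 := by
    refine not_cube' h (u := - (f0 * f1 - f2 ^ 2 * b)) ?_ ?_ ?_
    · exact (((h0.mul h.hE h1).sub ((h2.pow h.hE 2).mul h.hE hA)).neg)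
    · exact (h1.pow h.hE 2).sub (h0.mul h.hE h2)
    · have e2 : - (f0 * f1 - f2 ^ 2 * b) = (f1 ^ 2 - f0 * f2) * y := by
        linear_combination -e1
      rw [e2, mul_pow, hS]
  have k2 : f0 * f1 = f2 ^ 2 * b := by
    rw [k1] at e1
    linear_combination e1
  have hf2 : f2 = 0 := by
    refine not_cube' h (u := f1) h1 h2 ?_
    change f1 ^ 3 = f2 ^ 3 * b
    linear_combination f1 * k1 + f2 * k2
  have hf1 : f1 = 0 := by
    rw [hf2] at k1
    simpa using k1
  refine ⟨?_, hf1, hf2⟩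
  rw [hf1, hf2] at he
  simpa using he

/-- the element of `K` with coordinates `P` -/
def el (r s x y : K) (P : Fin 2 → Fin 3 → Polynomial (Polynomial ℂ)) : K :=
  ∑ i, ∑ j, ev r x (P i j) * s ^ (i : ℕ) * y ^ (j : ℕ)

theorem el_eq (P : Fin 2 → Fin 3 → Polynomial (Polynomial ℂ)) : el r s x y P =
    (ev r x (P 0 0) + ev r x (P 1 0) * s) + (ev r x (P 0 1) + ev r x (P 1 1) * s) * y +
      (ev r x (P 0 2) + ev r x (P 1 2) * s) * y ^ 2 := by
  rw [el]
  simp only [Fin.sum_univ_two, Fin.sum_univ_three]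
  simp
  ring

theorem el_add (P Q : Fin 2 → Fin 3 → Polynomial (Polynomial ℂ)) :
    el r s x y (P + Q) = el r s x y P + el r s x y Q := by
  rw [el_eq, el_eq, el_eq]
  simp only [Pi.add_apply, map_add]
  ring

theorem el_sub (P Q : Fin 2 → Fin 3 → Polynomial (Polynomial ℂ)) :
    el r s x y (P - Q) = el r s x y P - el r s x y Q := by
  rw [el_eq, el_eq, el_eq]
  simp only [Pi.sub_apply, map_sub]
  ring

theorem el_mul (a : Polynomial (Polynomial ℂ)) (P : Fin 2 → Fin 3 → Polynomial (Polynomial ℂ)) :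
    el r s x y (fun i j => a * P i j) = ev r x a * el r s x y P := by
  rw [el_eq, el_eq]
  simp only [map_mul]
  ring

/-- `s^i y^j` are linearly independent over `ℂ[r,x]` -/
theorem Dat.indep (h : Dat r s x y) {P : Fin 2 → Fin 3 → Polynomial (Polynomial ℂ)}
    (hP : el r s x y P = 0) : P = 0 := by
  rw [el_eq] at hP
  obtain ⟨h0, h1, h2⟩ := ind3 h ⟨P 0 0, P 1 0, rfl⟩ ⟨P 0 1, P 1 1, rfl⟩ ⟨P 0 2, P 1 2, rfl⟩ hP
  have k0 := h.ind2 h0
  have k1 := h.ind2 h1
  have k2 := h.ind2 h2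
  funext i j
  fin_cases i <;> fin_cases j
  · exact k0.1
  · exact k1.1
  · exact k2.1
  · exact k0.2
  · exact k1.2
  · exact k2.2

theorem Dat.el_inj (h : Dat r s x y) {P Q : Fin 2 → Fin 3 → Polynomial (Polynomial ℂ)}
    (hP : el r s x y P = el r s x y Q) : P = Q := by
  rw [← sub_eq_zero, ← el_sub] at hP
  exact sub_eq_zero.1 (h.indep hP)

end

end M21.XP
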