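import Pool.Agent.H.MP_21b43d_ag.XP.Sm2
import Pool.Agent.H.MP_21b43d_ag.XP.Wt1

set_option autoImplicit false
set_option linter.all false

open CategoryTheory AlgebraicGeometry TopologicalSpace MvPolynomial

namespace M21.XP

open M21X

noncomputable section

variable {K : Type} [Field K] [Algebra ℂ K]

/-- Elements of `ℂ(r, x)` are quotients of polynomials in `r`, `x`. -/
theorem mem_F {r x f : K} (hi : AlgebraicIndependent ℂ ![r, x])
    (hf : f ∈ IntermediateField.adjoin ℂ {r, x}) :
    ∃ p q : Polynomial (Polynomial ℂ), ev r x q ≠ 0 ∧ f * ev r x q = ev r x p := by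
  induction hf using IntermediateField.adjoin_induction with
  | mem z hz =>
    rcases hz with rfl | hz
    · exact ⟨Polynomial.X, 1, by simp, by simp [ev_X]⟩
    · rw [Set.mem_singleton_iff] at hz
      subst hz
      exact ⟨Polynomial.C Polynomial.X, 1, by simp, by simp [ev_CX]⟩
  | algebraMap c => exact ⟨Polynomial.C (Polynomial.C c), 1, by simp, by simp [ev_CC]⟩
  | add a b _ _ ha hb =>
    obtain ⟨p, q, hq, h1⟩ := ha
    obtain ⟨p', q', hq', h1'⟩ := hb
    refine ⟨p * q' + p' * q, q * q', ?_, ?_⟩
    · rw [map_mul]; exact mul_ne_zero hq hq'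
    · simp only [map_add, map_mul, ← h1, ← h1']
      ring
  | inv a _ ha =>
    obtain ⟨p, q, hq, h1⟩ := ha
    by_cases h0 : a = 0
    · exact ⟨0, 1, by simp, by simp [h0]⟩
    · refine ⟨q, p, ?_, ?_⟩
      · rw [← h1]; exact mul_ne_zero h0 hq
      · rw [← h1, ← mul_assoc, inv_mul_cancel₀ h0, one_mul]
  | mul a b _ _ ha hb =>
    obtain ⟨p, q, hq, h1⟩ := ha
    obtain ⟨p', q', hq', h1'⟩ := hb
    refine ⟨p * p', q * q', ?_, ?_⟩
    · rw [map_mul]; exact mul_ne_zero hq hq'
    · simp only [map_mul, ← h1, ← h1']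
      ring

/-- The elements `s^i y^j` are linearly independent over `ℂ(r, x)`. -/
theorem Dat.li {r s x y : K} (h : Dat r s x y) (hi : AlgebraicIndependent ℂ ![r, x]) :
    LinearIndependent (IntermediateField.adjoin ℂ ({r, x} : Set K))
      fun p : Fin 2 × Fin 3 => s ^ (p.1 : ℕ) * y ^ (p.2 : ℕ) := by
  rw [Fintype.linearIndependent_iff]
  intro g hg
  choose p q hq hpq using fun k => mem_F hi (g k).2
  have hcom : ∀ k, (g k : K) * ev r x (∏ l, q l) =
      ev r x (p k * ∏ l ∈ Finset.univ.erase k, q l) := by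
    intro k
    rw [← Finset.mul_prod_erase Finset.univ q (Finset.mem_univ k), map_mul, ← mul_assoc, hpq,
      map_mul]
  have hQ : ev r x (∏ l, q l) ≠ 0 := by
    rw [map_prod]
    exact Finset.prod_ne_zero_iff.mpr (fun k _ => hq k)
  have hsum : el r s x y (fun i j => p (i, j) * ∏ l ∈ Finset.univ.erase (i, j), q l) = 0 := by
    have h2 : (∑ k, g k • (s ^ (k.1 : ℕ) * y ^ (k.2 : ℕ))) * ev r x (∏ l, q l) = 0 := by
      rw [hg, zero_mul]
    rw [Finset.sum_mul, Fintype.sum_prod_type] at h2
    rw [← h2]
    unfold el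
    refine Finset.sum_congr rfl fun i _ => Finset.sum_congr rfl fun j _ => ?_
    rw [← hcom (i, j), Algebra.smul_def, IntermediateField.algebraMap_apply]
    ring
  have h0 := h.indep hsum
  intro k
  have h3 := congrFun (congrFun h0 k.1) k.2
  have h4 : ev r x (p k * ∏ l ∈ Finset.univ.erase k, q l) = 0 := by
    have : (p k * ∏ l ∈ Finset.univ.erase k, q l) = 0 := h3
    rw [this, map_zero]
  rw [← hcom k] at h4
  rcases mul_eq_zero.mp h4 with h5 | h5
  · exact Subtype.ext h5
  · exact absurd h5 hQ

namespace Qd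

variable {q : Qd K} (h : q.Good)

/-- the affine open cover by the four charts -/
def Good.cover : q.XX.AffineOpenCover where
  I₀ := Fin 4
  X i := .of (q.rg i)
  f i := h.ch i
  idx x := (h.ch_cover x).choose
  covers x := (h.ch_cover x).choose_spec

include h in
/-- **The surface is smooth of relative dimension two.** -/
theorem Good.smooth : SmoothOfRelativeDimension 2 q.str := by
  have hl : IsZariskiLocalAtSource (@SmoothOfRelativeDimension.{0} 2) :=
    HasRingHomProperty.instIsZariskiLocalAtSource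
  rw [IsZariskiLocalAtSource.iff_of_openCover (P := @SmoothOfRelativeDimension 2) h.cover.openCover]
  have key : ∀ i : Fin 4, SmoothOfRelativeDimension 2 (h.ch i ≫ q.str) := by
    intro i
    rw [h.ch_str, HasRingHomProperty.Spec_iff (P := @SmoothOfRelativeDimension 2)]
    exact h.smooth_rg (IntermediateField.adjoin ℂ {q.r, q.x})
      (IntermediateField.subset_adjoin _ _ (by simp)) (IntermediateField.subset_adjoin _ _ (by simp))
      ((Dat.mk' h.ai h.hE h.hS).li h.ai) i
  exact fun i => key i

end Qd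

end

end M21.XP
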