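import Pool.Agent.H.MP_21b43d_ag.XP.Wt3

/-!
# M21, Theorem X', existence part: the split basis of the chart rings over `ℙ¹ × ℙ¹`, part 1

`B = x`, `Z = r s`, basis `e_(u,k) = u y^k`, `u ∈ {1, r, s, r^2, r^3}`, `k < 3`. The four chart
rings are the spans of the monomials `x^p Z^q e_l` with `0 ≤ p` resp. `p ≤ a_l` and
`0 ≤ q` resp. `q ≤ b_l`.
-/

noncomputable section

namespace M21.XP

variable {K : Type*} [Field K] [Algebra ℂ K] {r s x y : K}

/-- `0 ≤ p` on chart `0`, `p ≤ a` on chart `1` -/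
def RgX (σ : Bool) (a p : ℤ) : Prop := if σ then p ≤ a else 0 ≤ p

/-- exponents of `r` -/
def ua : Fin 5 → ℕ := ![0, 1, 0, 2, 3]

/-- exponents of `s` -/
def ub : Fin 5 → ℕ := ![0, 0, 1, 0, 0]

/-- the basis -/
def eX (r s y : K) (l : Fin 5 × Fin 3) : K := r ^ ua l.1 * s ^ ub l.1 * y ^ (l.2 : ℕ)

/-- the first exponents -/
def aX (l : Fin 5 × Fin 3) : ℤ := -(2 * (l.2 : ℕ))

/-- the second exponents -/
def bX (l : Fin 5 × Fin 3) : ℤ := -((2 * ua l.1 + 3 * ub l.1 + l.2 + 4) / 5 : ℕ)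

/-- the span of the monomials on the chart `(σ, τ)` -/
def SPX (r s x y : K) (σ τ : Bool) : Submodule ℂ K :=
  Submodule.span ℂ {g | ∃ (l : Fin 5 × Fin 3) (p q : ℤ), (RgX σ (aX l) p ∧ RgX τ (bX l) q) ∧
    g = x ^ p * (r * s) ^ q * eX r s y l}

/-- monomials -/
def mon (r s x y : K) (p q : ℤ) (a b c : ℕ) : K := x ^ p * (r * s) ^ q * (r ^ a * s ^ b * y ^ c)

/-- the monomials which are regular on the chart `(σ, τ)` -/
def Cnd (σ τ : Bool) (p q : ℤ) (a b c : ℕ) : Prop :=
  (if σ then p + 2 * c ≤ 0 else 0 ≤ p) ∧ (if τ then 5 * q + 2 * a + 3 * b + c ≤ 0 else 0 ≤ q)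

theorem mon_mem0 {σ τ : Bool} {p q : ℤ} (u : Fin 5) (k : Fin 3)
    (hc : Cnd σ τ p q (ua u) (ub u) k) :
    mon r s x y p q (ua u) (ub u) k ∈ SPX r s x y σ τ := by
  refine Submodule.subset_span ⟨(u, k), p, q, ⟨?_, ?_⟩, rfl⟩
  · have h1 := hc.1
    unfold RgX aX
    cases σ
    · simpa using h1
    · simp only [if_true] at h1 ⊢
      omega
  · have h1 := hc.2
    unfold RgX bX
    cases τ
    · simpa using h1
    · simp only [if_true] at h1 ⊢
      omega

theorem mon_mem1 (h : Dat r s x y) {σ τ : Bool} (k : Fin 3) (n : ℕ) :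
    ∀ (a b : ℕ) (p q : ℤ), a + 2 * b = n → Cnd σ τ p q a b k →
      mon r s x y p q a b k ∈ SPX r s x y σ τ := by
  have hZ : r * s ≠ 0 := mul_ne_zero h.r_ne h.s_ne
  induction n using Nat.strong_induction_on with
  | _ n ih =>
    intro a b p q hn hc
    by_cases h1 : 1 ≤ a ∧ 1 ≤ b
    · obtain ⟨a, rfl⟩ : ∃ a', a = a' + 1 := ⟨a - 1, by omega⟩
      obtain ⟨b, rfl⟩ : ∃ b', b = b' + 1 := ⟨b - 1, by omega⟩
      have e : mon r s x y p q (a + 1) (b + 1) k = mon r s x y p (q + 1) a b k := by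
        unfold mon
        rw [zpow_add₀ hZ, zpow_one]
        ring
      rw [e]
      refine ih (a + 2 * b) (by omega) a b p (q + 1) rfl ⟨hc.1, ?_⟩
      have h2 := hc.2
      cases τ
      · simp only [Bool.false_eq_true, if_false] at h2 ⊢
        omega
      · simp only [if_true] at h2 ⊢
        push_cast at h2
        omega
    by_cases h2 : 2 ≤ b
    · obtain ⟨b, rfl⟩ : ∃ b', b = b' + 2 := ⟨b - 2, by omega⟩
      have e : mon r s x y p q a (b + 2) k =
          mon r s x y p q (a + 3) b k + mon r s x y p q a b k := by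
        unfold mon
        rw [pow_add s, h.hE]
        ring
      rw [e]
      refine Submodule.add_mem _ (ih (a + 3 + 2 * b) (by omega) _ _ p q rfl ⟨hc.1, ?_⟩)
        (ih (a + 2 * b) (by omega) _ _ p q rfl ⟨hc.1, ?_⟩)
      · have h2 := hc.2
        cases τ
        · exact h2
        · simp only [if_true] at h2 ⊢
          push_cast at h2 ⊢
          omega
      · have h2 := hc.2
        cases τ
        · exact h2
        · simp only [if_true] at h2 ⊢
          push_cast at h2 ⊢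
          omega
    by_cases h3 : 4 ≤ a
    · obtain ⟨a, rfl⟩ : ∃ a', a = a' + 4 := ⟨a - 4, by omega⟩
      have e : mon r s x y p q (a + 4) b k =
          mon r s x y p (q + 1) a (b + 1) k + (-1 : ℂ) • mon r s x y p q (a + 1) b k := by
        unfold mon
        have hE := h.hE
        rw [zpow_add₀ hZ, zpow_one, neg_one_smul]
        linear_combination (-(x ^ p * (r * s) ^ q * (r ^ a * s ^ b * y ^ (k : ℕ)) * r)) * hE
      rw [e]
      refine Submodule.add_mem _ (ih (a + 2 * (b + 1)) (by omega) _ _ p (q + 1) rfl ⟨hc.1, ?_⟩)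
        (Submodule.smul_mem _ _ (ih (a + 1 + 2 * b) (by omega) _ _ p q rfl ⟨hc.1, ?_⟩))
      · have h2 := hc.2
        cases τ
        · simp only [Bool.false_eq_true, if_false] at h2 ⊢
          omega
        · simp only [if_true] at h2 ⊢
          push_cast at h2 ⊢
          omega
      · have h2 := hc.2
        cases τ
        · exact h2
        · simp only [if_true] at h2 ⊢
          push_cast at h2 ⊢
          omega
    -- the terminal cases
    obtain ⟨u, hu1, hu2⟩ : ∃ u : Fin 5, ua u = a ∧ ub u = b := by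
      have hab : (a = 0 ∧ b = 0) ∨ (a = 1 ∧ b = 0) ∨ (a = 0 ∧ b = 1) ∨ (a = 2 ∧ b = 0) ∨
          (a = 3 ∧ b = 0) := by omega
      rcases hab with ⟨rfl, rfl⟩ | ⟨rfl, rfl⟩ | ⟨rfl, rfl⟩ | ⟨rfl, rfl⟩ | ⟨rfl, rfl⟩
      · exact ⟨0, rfl, rfl⟩
      · exact ⟨1, rfl, rfl⟩
      · exact ⟨2, rfl, rfl⟩
      · exact ⟨3, rfl, rfl⟩
      · exact ⟨4, rfl, rfl⟩
    rw [← hu1, ← hu2] at hc ⊢
    exact mon_mem0 u k hc

theorem mon_mem (h : Dat r s x y) {σ τ : Bool} (c : ℕ) :
    ∀ (a b : ℕ) (p q : ℤ), Cnd σ τ p q a b c → mon r s x y p q a b c ∈ SPX r s x y σ τ := by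
  induction c using Nat.strong_induction_on with
  | _ c ih =>
    intro a b p q hc
    by_cases hc3 : c < 3
    · exact mon_mem1 h ⟨c, hc3⟩ _ a b p q rfl hc
    · obtain ⟨c, rfl⟩ : ∃ c', c = c' + 3 := ⟨c - 3, by omega⟩
      have hx := h.x_ne
      have e : mon r s x y p q a b (c + 3) =
          (mon r s x y (p + 6) q a (b + 1) c + mon r s x y p q a (b + 1) c) +
          (mon r s x y (p + 3) q a b c + (2 : ℂ) • mon r s x y p q a b c) := by
        unfold mon
        rw [pow_add y, h.hS, Algebra.smul_def, map_ofNat, zpow_add₀ hx, zpow_add₀ hx]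
        have e6 : x ^ (6 : ℤ) = x ^ 6 := by norm_cast
        have e3 : x ^ (3 : ℤ) = x ^ 3 := by norm_cast
        rw [e6, e3]
        ring
      rw [e]
      have h1 := hc.1
      have h2 := hc.2
      refine Submodule.add_mem _ (Submodule.add_mem _ (ih c (by omega) _ _ _ _ ⟨?_, ?_⟩)
        (ih c (by omega) _ _ _ _ ⟨?_, ?_⟩)) (Submodule.add_mem _ (ih c (by omega) _ _ _ _ ⟨?_, ?_⟩)
        (Submodule.smul_mem _ _ (ih c (by omega) _ _ _ _ ⟨?_, ?_⟩)))
      all_goals
        cases σ <;> cases τ <;> simp only [Bool.false_eq_true, if_false, if_true] at h1 h2 ⊢ <;>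
          push_cast at h1 h2 ⊢ <;> omega

end M21.XP
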