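import Pool.Agent.H.MP_21b43d_ag.XP.Wt1

/-!
# M21, Theorem X': pole orders

Two filtrations of `A = ℂ[r,s,x,y]`: the pole order along `x = ∞` (weights of `x, r, s, y`:
`1, 0, 0, 2`) and along the fibre of `P0` (weights `0, 2, 3, 1`).
-/

open Polynomial

noncomputable section

namespace M21.XP

variable {K : Type*} [Field K] [Algebra ℂ K]

/-- weights of `x, r, s, y` -/
structure Wgt where
  /-- weight of `x` -/
  α : ℕ
  /-- weight of `r` -/
  ρ : ℕ
  /-- weight of `s` -/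
  σ : ℕ
  /-- weight of `y` -/
  η : ℕ
  h1 : 3 * ρ ≤ 2 * σ
  h2 : σ + 6 * α ≤ 3 * η

/-- coordinates of weight at most `n` -/
def Wgt.Bd (w : Wgt) (n : ℕ) (P : Fin 2 → Fin 3 → Polynomial (Polynomial ℂ)) : Prop :=
  ∀ i j k a, ((P i j).coeff k).coeff a ≠ 0 → w.α * a + w.ρ * k + w.σ * i + w.η * j ≤ n

theorem Wgt.Bd.add {w : Wgt} {n : ℕ} {P Q : Fin 2 → Fin 3 → Polynomial (Polynomial ℂ)}
    (hP : w.Bd n P) (hQ : w.Bd n Q) : w.Bd n (P + Q) := by
  intro i j k a h
  by_cases h1 : ((P i j).coeff k).coeff a = 0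
  · refine hQ i j k a fun h2 => h ?_
    rw [Pi.add_apply, Pi.add_apply, coeff_add, coeff_add, h1, h2, add_zero]
  · exact hP i j k a h1

/-- elements with coordinates of weight at most `n` -/
def Rep (w : Wgt) (r s x y : K) (n : ℕ) (t : K) : Prop :=
  ∃ P, t = el r s x y P ∧ w.Bd n P

theorem Rep.add {w : Wgt} {r s x y : K} {n : ℕ} {t u : K} (ht : Rep w r s x y n t)
    (hu : Rep w r s x y n u) : Rep w r s x y n (t + u) := by
  obtain ⟨P, rfl, hP⟩ := ht
  obtain ⟨Q, rfl, hQ⟩ := hu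
  exact ⟨P + Q, (el_add P Q).symm, hP.add hQ⟩

theorem Rep.smul {w : Wgt} {r s x y : K} {n : ℕ} {t : K} (c : ℂ) (ht : Rep w r s x y n t) :
    Rep w r s x y n (c • t) := by
  obtain ⟨P, rfl, hP⟩ := ht
  refine ⟨fun i j => C (C c) * P i j, ?_, ?_⟩
  · rw [el_mul, ev_CC, Algebra.smul_def]
  · intro i j k a h
    refine hP i j k a fun h2 => h ?_
    rw [coeff_C_mul, coeff_C_mul, h2, mul_zero]

theorem Rep.zero {w : Wgt} {r s x y : K} {n : ℕ} : Rep w r s x y n 0 := by
  refine ⟨0, ?_, ?_⟩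
  · rw [el_eq]
    simp
  · intro i j k a h
    simp at h

theorem Rep.mono0 {w : Wgt} {r s x y : K} {n : ℕ} {a k : ℕ} (i : Fin 2) (j : Fin 3)
    (hn : w.α * a + w.ρ * k + w.σ * i + w.η * j ≤ n) :
    Rep w r s x y n (x ^ a * r ^ k * s ^ (i : ℕ) * y ^ (j : ℕ)) := by
  refine ⟨Pi.single i (Pi.single j (C (X ^ a) * X ^ k)), ?_, ?_⟩
  · rw [el, Finset.sum_eq_single i, Finset.sum_eq_single j]
    · simp only [Pi.single_eq_same, map_mul, ev_C, map_pow, ev_X, aeval_X]
    · intro j' _ hj'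
      rw [Pi.single_eq_same, Pi.single_eq_of_ne hj']
      simp
    · intro h
      exact absurd (Finset.mem_univ _) h
    · intro i' _ hi'
      rw [Pi.single_eq_of_ne hi']
      simp
    · intro h
      exact absurd (Finset.mem_univ _) h
  · intro i' j' k' a' h
    by_cases hi : i' = i
    · subst hi
      by_cases hj : j' = j
      · subst hj
        rw [Pi.single_eq_same, Pi.single_eq_same, coeff_C_mul, coeff_X_pow] at h
        by_cases hk : k' = k
        · subst hk
          rw [if_pos rfl, mul_one, coeff_X_pow] at h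
          by_cases ha : a' = a
          · subst ha
            exact hn
          · rw [if_neg ha] at h
            exact absurd rfl h
        · rw [if_neg hk] at h
          simp at h
      · rw [Pi.single_eq_same, Pi.single_eq_of_ne hj] at h
        simp at h
    · rw [Pi.single_eq_of_ne hi] at h
      simp at h

theorem Rep.mono1 {w : Wgt} {r s x y : K} (h : Dat r s x y) {n : ℕ} (j : Fin 3) (i : ℕ) :
    ∀ a k : ℕ, w.α * a + w.ρ * k + w.σ * i + w.η * j ≤ n →
    Rep w r s x y n (x ^ a * r ^ k * s ^ i * y ^ (j : ℕ)) := by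
  induction i using Nat.strong_induction_on with
  | _ i ih =>
    intro a k hn
    by_cases hi : i < 2
    · exact Rep.mono0 ⟨i, hi⟩ j hn
    · obtain ⟨i', rfl⟩ : ∃ i', i = i' + 2 := ⟨i - 2, by omega⟩
      have e : x ^ a * r ^ k * s ^ (i' + 2) * y ^ (j : ℕ) =
          x ^ a * r ^ (k + 3) * s ^ i' * y ^ (j : ℕ) + x ^ a * r ^ k * s ^ i' * y ^ (j : ℕ) := by
        rw [pow_add s, h.hE]
        ring
      rw [e]
      have h1 := w.h1
      refine (ih i' (by omega) a (k + 3) ?_).add (ih i' (by omega) a k ?_)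
      · rw [mul_add] at hn ⊢
        omega
      · rw [mul_add] at hn
        omega

theorem Rep.mono {w : Wgt} {r s x y : K} (h : Dat r s x y) {n : ℕ} (j : ℕ) :
    ∀ a k i : ℕ, w.α * a + w.ρ * k + w.σ * i + w.η * j ≤ n →
    Rep w r s x y n (x ^ a * r ^ k * s ^ i * y ^ j) := by
  induction j using Nat.strong_induction_on with
  | _ j ih =>
    intro a k i hn
    by_cases hj : j < 3
    · exact Rep.mono1 h ⟨j, hj⟩ i a k hn
    · obtain ⟨j', rfl⟩ : ∃ j', j = j' + 3 := ⟨j - 3, by omega⟩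
      have e : x ^ a * r ^ k * s ^ i * y ^ (j' + 3) =
          (x ^ (a + 6) * r ^ k * s ^ (i + 1) * y ^ j' + x ^ a * r ^ k * s ^ (i + 1) * y ^ j') +
          (x ^ (a + 3) * r ^ k * s ^ i * y ^ j' + (2 : ℂ) • (x ^ a * r ^ k * s ^ i * y ^ j')) := by
        rw [pow_add y, h.hS, Algebra.smul_def, map_ofNat]
        ring
      rw [e]
      have h2 := w.h2
      refine ((ih j' (by omega) (a + 6) k (i + 1) ?_).add
        (ih j' (by omega) a k (i + 1) ?_)).add ((ih j' (by omega) (a + 3) k i ?_).add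
        (Rep.smul _ (ih j' (by omega) a k i ?_)))
      · rw [mul_add] at hn ⊢
        rw [mul_add]
        omega
      · rw [mul_add] at hn ⊢
        omega
      · rw [mul_add] at hn ⊢
        omega
      · rw [mul_add] at hn
        omega

/-- the filtration -/
def Fil (w : Wgt) (r s x y : K) (n : ℕ) : Submodule ℂ K :=
  Submodule.span ℂ {m | ∃ a k i j : ℕ, w.α * a + w.ρ * k + w.σ * i + w.η * j ≤ n ∧
    x ^ a * r ^ k * s ^ i * y ^ j = m}

theorem mem_Fil {w : Wgt} {r s x y : K} {n : ℕ} (a k i j : ℕ)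
    (hn : w.α * a + w.ρ * k + w.σ * i + w.η * j ≤ n) :
    x ^ a * r ^ k * s ^ i * y ^ j ∈ Fil w r s x y n :=
  Submodule.subset_span ⟨a, k, i, j, hn, rfl⟩

theorem Fil_mono {w : Wgt} {r s x y : K} {n m : ℕ} (h : n ≤ m) :
    Fil w r s x y n ≤ Fil w r s x y m := by
  apply Submodule.span_mono
  rintro _ ⟨a, k, i, j, h1, rfl⟩
  exact ⟨a, k, i, j, h1.trans h, rfl⟩

theorem Fil_mul {w : Wgt} {r s x y : K} {n m : ℕ} {t u : K} (ht : t ∈ Fil w r s x y n)
    (hu : u ∈ Fil w r s x y m) : t * u ∈ Fil w r s x y (n + m) := by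
  have h1 := Submodule.mul_mem_mul ht hu
  refine (Submodule.span_mul_span ℂ _ _ |>.le.trans ?_) h1
  rw [Submodule.span_le]
  rintro _ ⟨_, ⟨a, k, i, j, h1, rfl⟩, _, ⟨a', k', i', j', h2, rfl⟩, rfl⟩
  have e : (x ^ a * r ^ k * s ^ i * y ^ j) * (x ^ a' * r ^ k' * s ^ i' * y ^ j') =
      x ^ (a + a') * r ^ (k + k') * s ^ (i + i') * y ^ (j + j') := by ring
  change (x ^ a * r ^ k * s ^ i * y ^ j) * (x ^ a' * r ^ k' * s ^ i' * y ^ j') ∈ _
  rw [e]
  refine mem_Fil _ _ _ _ ?_
  simp only [mul_add]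
  omega

theorem Fil_one {w : Wgt} {r s x y : K} : (1 : K) ∈ Fil w r s x y 0 := by
  have := mem_Fil (w := w) (r := r) (s := s) (x := x) (y := y) (n := 0) 0 0 0 0 (by simp)
  simpa using this

theorem Fil_x {w : Wgt} {r s x y : K} : x ∈ Fil w r s x y w.α := by
  have := mem_Fil (w := w) (r := r) (s := s) (x := x) (y := y) (n := w.α) 1 0 0 0 (by simp)
  simpa using this

theorem Fil_r {w : Wgt} {r s x y : K} : r ∈ Fil w r s x y w.ρ := by
  have := mem_Fil (w := w) (r := r) (s := s) (x := x) (y := y) (n := w.ρ) 0 1 0 0 (by simp)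
  simpa using this

theorem Fil_s {w : Wgt} {r s x y : K} : s ∈ Fil w r s x y w.σ := by
  have := mem_Fil (w := w) (r := r) (s := s) (x := x) (y := y) (n := w.σ) 0 0 1 0 (by simp)
  simpa using this

theorem Fil_y {w : Wgt} {r s x y : K} : y ∈ Fil w r s x y w.η := by
  have := mem_Fil (w := w) (r := r) (s := s) (x := x) (y := y) (n := w.η) 0 0 0 1 (by simp)
  simpa using this

theorem Fil_pow {w : Wgt} {r s x y : K} {n : ℕ} {t : K} (ht : t ∈ Fil w r s x y n) (N : ℕ) :
    t ^ N ∈ Fil w r s x y (N * n) := by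
  induction N with
  | zero => simpa using Fil_one
  | succ N ih =>
    rw [pow_succ, Nat.succ_mul]
    exact Fil_mul ih ht

theorem rep_of_mem_Fil {w : Wgt} {r s x y : K} (h : Dat r s x y) {n : ℕ} {t : K}
    (ht : t ∈ Fil w r s x y n) : Rep w r s x y n t := by
  induction ht using Submodule.span_induction with
  | mem m hm =>
    obtain ⟨a, k, i, j, h1, rfl⟩ := hm
    exact Rep.mono h j a k i h1
  | zero => exact Rep.zero
  | add a b _ _ ha hb => exact ha.add hb
  | smul c a _ ha => exact ha.smul c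

/-- the elements `t` with `D^N t` of weight at most `N wD` -/
theorem mem_of_adjoin {w : Wgt} {r s x y : K} {D : K} {d : ℕ}
    (hD : D ∈ Fil w r s x y d) {S : Set K}
    (hS : ∀ t ∈ S, ∃ N : ℕ, D ^ N * t ∈ Fil w r s x y (N * d)) {t : K}
    (ht : t ∈ Algebra.adjoin ℂ S) : ∃ N : ℕ, D ^ N * t ∈ Fil w r s x y (N * d) := by
  induction ht using Algebra.adjoin_induction with
  | mem t ht => exact hS t ht
  | algebraMap c =>
    refine ⟨0, ?_⟩
    rw [pow_zero, one_mul, Nat.zero_mul, Algebra.algebraMap_eq_smul_one]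
    exact Submodule.smul_mem _ _ Fil_one
  | add a b _ _ ha hb =>
    obtain ⟨N, hN⟩ := ha
    obtain ⟨M, hM⟩ := hb
    refine ⟨N + M, ?_⟩
    have e : D ^ (N + M) * (a + b) = D ^ M * (D ^ N * a) + D ^ N * (D ^ M * b) := by ring
    rw [e, Nat.add_mul]
    refine Submodule.add_mem _ ?_ (Fil_mul (Fil_pow hD N) hM)
    rw [Nat.add_comm]
    exact Fil_mul (Fil_pow hD M) hN
  | mul a b _ _ ha hb =>
    obtain ⟨N, hN⟩ := ha
    obtain ⟨M, hM⟩ := hb
    refine ⟨N + M, ?_⟩
    have e : D ^ (N + M) * (a * b) = (D ^ N * a) * (D ^ M * b) := by ring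
    rw [e, Nat.add_mul]
    exact Fil_mul hN hM

end M21.XP
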