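import Pool.Agent.H.MP_21b43d_ag.XP.Wt3

/-!
# M21, Theorem X': no differential form with nonzero value on the fibres of `S → E`

`D0 = 3 y^2 ∂_x + b_x ∂_y`, `D1 = 3 y^2 δ + δ(b) ∂_y`, `D2 = b_x δ - δ(b) ∂_x`, and
`3 y^2 D2 = b_x D1 - δ(b) D0`. If `t_i` is the value on `D_i` of a regular 1-form then the
conditions of `t0_eq_zero` hold, so `t0 = 0`.
-/

open Polynomial

noncomputable section

namespace M21.XP

variable {K : Type*} [Field K] [Algebra ℂ K] {r s x y : K}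

/-- `P' Q - P Q'` -/
def pW : Polynomial ℂ := C (-3) * X ^ 8 + C (-12) * X ^ 5 + C 3 * X ^ 2

theorem natDegree_pW : pW.natDegree = 8 := by
  rw [pW]
  compute_degree!

/-- `Q^2 - P^2` -/
def pM : Polynomial ℂ := X ^ 12 + X ^ 6 - C 4 * X ^ 3 - C 3

theorem natDegree_pM : pM.natDegree = 12 := by
  rw [pM]
  compute_degree!

theorem pM_eq : pM = pQ ^ 2 - pP ^ 2 := by
  rw [pM, pQ, pP]
  simp only [map_ofNat]
  ring

theorem pW_eq : pW = (C 3 * X ^ 2) * pQ - pP * (C 6 * X ^ 5) := by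
  rw [pW, pQ, pP]
  simp only [map_neg, map_ofNat]
  ring

theorem poly_core {A a1 : Polynomial ℂ} (hA : A.natDegree ≤ 4) (he : pW * A = -3 * a1 * pM) :
    A = 0 ∧ a1 = 0 := by
  have hW0 : pW ≠ 0 := by
    intro h0
    have := natDegree_pW
    rw [h0] at this
    simp at this
  have hM0 : pM ≠ 0 := by
    intro h0
    have := natDegree_pM
    rw [h0] at this
    simp at this
  have h1 : a1.eval 0 = 0 := by
    have h2 := congrArg (Polynomial.eval 0) he
    simp [pW, pM] at h2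
    exact h2
  have ha1 : a1 = 0 := by
    by_contra hne
    have h3 : (-3 : Polynomial ℂ) ≠ 0 := by
      intro h0
      have := congrArg (Polynomial.eval 0) h0
      simp at this
    have h3d : (-3 : Polynomial ℂ).natDegree = 0 := by
      compute_degree!
    have hA0 : A ≠ 0 := by
      intro h0
      rw [h0, mul_zero] at he
      exact (mul_ne_zero (mul_ne_zero h3 hne) hM0) he.symm
    have h4 := congrArg natDegree he
    rw [natDegree_mul hW0 hA0, natDegree_mul (mul_ne_zero h3 hne) hM0, natDegree_mul h3 hne,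
      natDegree_pW, natDegree_pM, h3d] at h4
    have h5 : a1.natDegree = 0 := by omega
    rw [eq_C_of_natDegree_eq_zero h5, coeff_zero_eq_eval_zero, h1, map_zero] at hne
    exact hne rfl
  refine ⟨?_, ha1⟩
  rw [ha1] at he
  simp only [mul_zero, zero_mul, mul_eq_zero] at he
  exact he.resolve_left hW0

theorem core (h : Dat r s x y) {A A1 a a1 : Polynomial ℂ} (hA : A.natDegree ≤ 4) {u : K}
    (hu : A0 r s x u)
    (he : u * (s * (x ^ 6 + 1) + (x ^ 3 + 2)) =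
      (6 * s * x ^ 5 + 3 * x ^ 2) * ev r x (C A + C A1 * X) -
      3 * r ^ 2 * (x ^ 6 + 1) * ev r x (C a + C a1 * X)) :
    A = 0 ∧ A1 = 0 ∧ a = 0 ∧ a1 = 0 := by
  obtain ⟨p, q, rfl⟩ := hu
  have h1 : ev r x (p * C pP + q * C pQ * pE - (C (C 3 * X ^ 2) * (C A + C A1 * X) -
      3 * X ^ 2 * C pQ * (C a + C a1 * X))) +
      ev r x (p * C pQ + q * C pP - C (C 6 * X ^ 5) * (C A + C A1 * X)) * s = 0 := by
    simp only [map_sub, map_add, map_mul, map_pow, map_ofNat, ev_pE, ev_pP, ev_pQ, ev_X, ev_CX]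
      at he ⊢
    rw [← h.hE]
    linear_combination he
  obtain ⟨h2, h3⟩ := h.ind2 h1
  rw [sub_eq_zero] at h2 h3
  have h4 : q * (C (pQ ^ 2) * X ^ 3 + C 0 * X ^ 2 + C 0 * X + C pM) =
      C (-3 * pQ ^ 2 * a1) * X ^ 3 + C (-3 * pQ ^ 2 * a) * X ^ 2 + C (pW * A1) * X
      + C (pW * A) := by
    have h5 : q * (C pQ ^ 2 * pE - C pP ^ 2) = (C (C 3 * X ^ 2) * C pQ - C pP * C (C 6 * X ^ 5)) *
        (C A + C A1 * X) - 3 * X ^ 2 * C pQ ^ 2 * (C a + C a1 * X) := by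
      linear_combination (C pQ) * h2 - (C pP) * h3
    rw [pM_eq, pW_eq]
    simp only [map_sub, map_mul, map_pow, map_ofNat, map_neg, map_zero] at h5 ⊢
    rw [pE] at h5
    linear_combination h5
  have hQ0 : pQ ≠ 0 := by
    intro h0
    have := congrArg (Polynomial.eval 0) h0
    simp [pQ] at this
  have hNd : (C (pQ ^ 2) * X ^ 3 + C 0 * X ^ 2 + C 0 * X + C pM).natDegree = 3 :=
    natDegree_cubic (pow_ne_zero 2 hQ0)
  have hN0 : (C (pQ ^ 2) * X ^ 3 + C 0 * X ^ 2 + C 0 * X + C pM : Polynomial (Polynomial ℂ))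
      ≠ 0 := by
    intro h0
    rw [h0] at hNd
    simp at hNd
  have hq : q.natDegree = 0 := by
    by_cases hq0 : q = 0
    · rw [hq0]
      simp
    · have h6 := congrArg natDegree h4
      rw [natDegree_mul hq0 hN0, hNd] at h6
      have h7 : (C (-3 * pQ ^ 2 * a1) * X ^ 3 + C (-3 * pQ ^ 2 * a) * X ^ 2 + C (pW * A1) * X
        + C (pW * A)).natDegree ≤ 3 := natDegree_cubic_le
      omega
  obtain ⟨q0, hq0⟩ : ∃ q0, q = C q0 := ⟨_, eq_C_of_natDegree_eq_zero hq⟩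
  rw [hq0] at h4
  have h4' : C (q0 * pQ ^ 2) * X ^ 3 + C 0 * X ^ 2 + C 0 * X + C (q0 * pM) =
      C (-3 * pQ ^ 2 * a1) * X ^ 3 + C (-3 * pQ ^ 2 * a) * X ^ 2 + C (pW * A1) * X
      + C (pW * A) := by
    rw [← h4]
    simp only [map_mul, map_pow, map_zero]
    ring
  have c3 := congrArg (fun f => f.coeff 3) h4'
  have c2 := congrArg (fun f => f.coeff 2) h4'
  have c1 := congrArg (fun f => f.coeff 1) h4'
  have c0 := congrArg (fun f => f.coeff 0) h4'
  simp only [coeff_add, coeff_C_mul, coeff_X_pow, coeff_X, coeff_C] at c3 c2 c1 c0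
  norm_num at c3 c2 c1 c0
  have hW0 : pW ≠ 0 := by
    intro h0
    have := natDegree_pW
    rw [h0] at this
    simp at this
  have hq0' : q0 = -3 * a1 := by
    have h8 : pQ ^ 2 * q0 = pQ ^ 2 * (-3 * a1) := by linear_combination c3
    exact mul_left_cancel₀ (pow_ne_zero 2 hQ0) h8
  obtain ⟨hA0, ha1⟩ := poly_core hA (by rw [← c0, hq0'])
  exact ⟨hA0, c1.resolve_left hW0, c2.resolve_left hQ0, ha1⟩

/-- a polynomial of degree at most 1 -/
theorem eq_lin {P : Polynomial (Polynomial ℂ)} (hP : ∀ n, P.coeff n ≠ 0 → n ≤ 1) :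
    P = C (P.coeff 0) + C (P.coeff 1) * X := by
  have h1 : P.natDegree ≤ 1 := by
    rw [natDegree_le_iff_coeff_eq_zero]
    intro n hn
    by_contra hc
    have := hP n hc
    omega
  have h2 := eq_X_add_C_of_natDegree_le_one h1
  rw [add_comm] at h2
  exact h2

/-- R4: a regular 1-form vanishes on `D0` -/
theorem t0_eq_zero (h : Dat r s x y) {t0 t1 t2 : K}
    (h0 : t0 ∈ chA r s x y) (h0' : t0 / x ^ 2 ∈ chA' r s x y) (h0B : t0 / r ∈ chB r s x y)
    (h1 : t1 ∈ chA r s x y) (h1' : t1 / x ^ 4 ∈ chA' r s x y) (h1B : t1 / r ∈ chB r s x y)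
    (h2 : t2 ∈ chA r s x y)
    (he : 3 * y ^ 2 * t2 = (6 * s * x ^ 5 + 3 * x ^ 2) * t1 - 3 * r ^ 2 * (x ^ 6 + 1) * t0) :
    t0 = 0 := by
  obtain ⟨T0, rfl⟩ := exists_el h h0
  obtain ⟨T1, rfl⟩ := exists_el h h1
  obtain ⟨T2, rfl⟩ := exists_el h h2
  have b0 := wt_P0 h (k := 1) (by rw [pow_one]; exact h0B)
  have b1 := wt_P0 h (k := 1) (by rw [pow_one]; exact h1B)
  have i0 := wt_inf h h0'
  have i1 := wt_inf h h1'
  have z0 : ∀ j, T0 1 j = 0 := by
    intro j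
    ext1 n
    rw [coeff_zero]
    by_contra hc
    have := b0 1 j n hc
    simp at this
    omega
  have z1 : ∀ j, T1 1 j = 0 := by
    intro j
    ext1 n
    rw [coeff_zero]
    by_contra hc
    have := b1 1 j n hc
    simp at this
    omega
  have w0 : T0 0 2 = 0 := by
    ext n a
    rw [coeff_zero, coeff_zero]
    by_contra hc
    have := i0 0 2 n a hc
    simp at this
  have l0 : ∀ j, T0 0 j = C ((T0 0 j).coeff 0) + C ((T0 0 j).coeff 1) * X := by
    intro j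
    refine eq_lin fun n hn => ?_
    have := b0 0 j n hn
    omega
  have l1 : ∀ j, T1 0 j = C ((T1 0 j).coeff 0) + C ((T1 0 j).coeff 1) * X := by
    intro j
    refine eq_lin fun n hn => ?_
    have := b1 0 j n hn
    omega
  have d1 : ∀ j, ((T1 0 j).coeff 0).natDegree ≤ 4 := by
    intro j
    rw [natDegree_le_iff_coeff_eq_zero]
    intro a ha
    by_contra hc
    have := i1 0 j 0 a hc
    omega
  have hb := h.hS
  have key : (3 * (ev r x (T2 0 1) + ev r x (T2 1 1) * s) * (s * (x ^ 6 + 1) + (x ^ 3 + 2)) -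
      ((6 * s * x ^ 5 + 3 * x ^ 2) * ev r x (T1 0 0) -
        3 * r ^ 2 * (x ^ 6 + 1) * ev r x (T0 0 0))) +
      (3 * (ev r x (T2 0 2) + ev r x (T2 1 2) * s) * (s * (x ^ 6 + 1) + (x ^ 3 + 2)) -
      ((6 * s * x ^ 5 + 3 * x ^ 2) * ev r x (T1 0 1) -
        3 * r ^ 2 * (x ^ 6 + 1) * ev r x (T0 0 1))) * y +
      (3 * (ev r x (T2 0 0) + ev r x (T2 1 0) * s) -
      (6 * s * x ^ 5 + 3 * x ^ 2) * ev r x (T1 0 2)) * y ^ 2 = 0 := by
    rw [el_eq, el_eq, el_eq, z0, z0, z0, z1, z1, z1, w0] at he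
    simp only [map_zero, zero_mul, add_zero] at he
    rw [← hb]
    linear_combination he
  have hbA : A0 r s x (s * (x ^ 6 + 1) + (x ^ 3 + 2)) := A0_b
  have hE := h.hE
  have hev : ∀ p, A0 r s x (ev r x p) := fun p => ⟨p, 0, by simp⟩
  have hN : ∀ n : ℕ, A0 r s x (n : K) := fun n => ⟨(n : Polynomial (Polynomial ℂ)), 0, by simp⟩
  have h3A : A0 r s x (3 : K) := by exact_mod_cast hN 3
  have h6A : A0 r s x (6 : K) := by exact_mod_cast hN 6
  have h1A : A0 r s x (1 : K) := by exact_mod_cast hN 1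
  have hbx : A0 r s x (6 * s * x ^ 5 + 3 * x ^ 2) :=
    ((h6A.mul hE A0_s).mul hE (A0_x.pow hE 5)).add (h3A.mul hE (A0_x.pow hE 2))
  have hdb : A0 r s x (3 * r ^ 2 * (x ^ 6 + 1)) :=
    (h3A.mul hE (A0_r.pow hE 2)).mul hE ((A0_x.pow hE 6).add h1A)
  have hu : ∀ j, A0 r s x (3 * (ev r x (T2 0 j) + ev r x (T2 1 j) * s)) := fun j =>
    h3A.mul hE ⟨_, _, rfl⟩
  obtain ⟨k0, k1, -⟩ := ind3 h
    (((hu 1).mul hE hbA).sub ((hbx.mul hE (hev _)).sub (hdb.mul hE (hev _))))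
    (((hu 2).mul hE hbA).sub ((hbx.mul hE (hev _)).sub (hdb.mul hE (hev _))))
    ((hu 0).sub (hbx.mul hE (hev _))) key
  rw [sub_eq_zero] at k0 k1
  have m0 : T0 0 0 = 0 := by
    rw [l1 0, l0 0] at k0
    obtain ⟨-, -, e1, e2⟩ := core h (d1 0) (hu 1) k0
    rw [l0 0, e1, e2]
    simp
  have m1 : T0 0 1 = 0 := by
    rw [l1 1, l0 1] at k1
    obtain ⟨-, -, e1, e2⟩ := core h (d1 1) (hu 2) k1
    rw [l0 1, e1, e2]
    simp
  rw [el_eq, z0, z0, z0, w0, m0, m1]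
  simp

end M21.XP
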