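import Pool.Agent.H.MP_21b43d_ag.XP.Wt3

/-!
# M21, Theorem X': `s^i y^j` are linearly independent over the field `ℂ(r,x)`
-/

open Polynomial

noncomputable section

namespace M21.XP

variable {K : Type*} [Field K] [Algebra ℂ K] {r s x y : K}

theorem exists_ev_of_adjoin {t : K} (ht : t ∈ Algebra.adjoin ℂ {r, x}) :
    ∃ P, t = ev r x P := by
  induction ht using Algebra.adjoin_induction with
  | mem t ht =>
    simp only [Set.mem_insert_iff, Set.mem_singleton_iff] at ht
    rcases ht with ht | ht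
    · exact ⟨X, by rw [ev_X, ht]⟩
    · exact ⟨C X, by rw [ev_CX, ht]⟩
  | algebraMap c => exact ⟨C (C c), (ev_CC r x c).symm⟩
  | add a b _ _ ha hb =>
    obtain ⟨P, hP⟩ := ha
    obtain ⟨Q, hQ⟩ := hb
    exact ⟨P + Q, by rw [map_add, hP, hQ]⟩
  | mul a b _ _ ha hb =>
    obtain ⟨P, hP⟩ := ha
    obtain ⟨Q, hQ⟩ := hb
    exact ⟨P * Q, by rw [map_mul, hP, hQ]⟩

theorem exists_ev_of_field {t : K} (ht : t ∈ IntermediateField.adjoin ℂ {r, x}) :
    ∃ P Q, ev r x Q ≠ 0 ∧ t = ev r x P / ev r x Q := by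
  rw [IntermediateField.mem_adjoin_iff_div] at ht
  obtain ⟨a, ha, b, hb, rfl⟩ := ht
  obtain ⟨P, rfl⟩ := exists_ev_of_adjoin ha
  obtain ⟨Q, rfl⟩ := exists_ev_of_adjoin hb
  by_cases h0 : ev r x Q = 0
  · exact ⟨0, 1, by simp, by rw [h0]; simp⟩
  · exact ⟨P, Q, h0, rfl⟩

/-- `s^i y^j` (`i < 2`, `j < 3`) are linearly independent over `ℂ(r,x)` -/
theorem Dat.linInd (h : Dat r s x y) :
    LinearIndependent (IntermediateField.adjoin ℂ {r, x})
      (fun p : Fin 2 × Fin 3 => s ^ (p.1 : ℕ) * y ^ (p.2 : ℕ)) := by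
  rw [Fintype.linearIndependent_iff]
  intro g hg
  choose N M hM hN using fun p => exists_ev_of_field (g p).2
  let Q : Fin 2 → Fin 3 → Polynomial (Polynomial ℂ) := fun i j =>
    N (i, j) * ∏ q ∈ Finset.univ.erase (i, j), M q
  have hQ : ∀ p : Fin 2 × Fin 3, ev r x (Q p.1 p.2) = (∏ q, ev r x (M q)) * (g p : K) := by
    intro p
    simp only [Q, map_mul, map_prod]
    rw [hN p, ← Finset.mul_prod_erase Finset.univ (fun q => ev r x (M q)) (Finset.mem_univ p)]
    have := hM p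
    field_simp
  have hel : el r s x y Q = 0 := by
    have h1 : el r s x y Q = (∏ q, ev r x (M q)) *
        ∑ p : Fin 2 × Fin 3, g p • (s ^ (p.1 : ℕ) * y ^ (p.2 : ℕ)) := by
      rw [Finset.mul_sum, el, ← Finset.sum_product']
      refine Finset.sum_congr rfl fun p _ => ?_
      rw [hQ p, Algebra.smul_def]
      change _ = (∏ q, ev r x (M q)) * ((g p : K) * _)
      ring
    rw [h1, hg, mul_zero]
  have h0 := h.indep hel
  intro p
  have h1 := hQ p
  rw [h0] at h1
  simp only [Pi.zero_apply, map_zero] at h1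
  have h2 : (∏ q, ev r x (M q)) ≠ 0 := Finset.prod_ne_zero_iff.2 fun q _ => hM q
  have h3 := (mul_eq_zero.1 h1.symm).resolve_left h2
  exact Subtype.ext h3

end M21.XP
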